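import Mathlib
import Pool.Agent.Lib.H19T.Defs
import Pool.Agent.Lib.H55C.W8
import Pool.Agent.Lib.H55N.A1

open NumberField IsDedekindDomain

namespace H35N

open H55B H55N H19T

variable {K : Type} [Field K] [NumberField K] [Algebra F K] {m : ℕ}

/-! Chunk D1 (S/M). Copy H55N/D1.lean (units_basis for J contained in 6 O_K); the only change is the torsion freeness: if ζ = 1 mod J, ζ^l = 1, l prime, ζ not 1, then l is in the ideal (4)
(same sum), so 4 divides l in the integers (norms), impossible. -/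

omit [Algebra F K] in
lemma D1_four {J : Ideal (𝓞 K)} (hJ4 : J ≤ Ideal.span {4}) {ζ : (𝓞 K)ˣ}
    (hζ : (ζ : 𝓞 K) - 1 ∈ J) {l : ℕ} (hl : l.Prime) (h1 : ζ ^ l = 1) : ζ = 1 := by
  by_contra hne
  have hs : ∑ i ∈ Finset.range l, (ζ : 𝓞 K) ^ i = 0 := by
    have h := mul_geom_sum (ζ : 𝓞 K) l
    have h2 : (ζ : 𝓞 K) ^ l = 1 := by
      have h0 := congrArg Units.val h1
      simpa using h0
    rw [h2, sub_self] at h
    rcases mul_eq_zero.1 h with h3 | h3
    · exact absurd (Units.ext (sub_eq_zero.1 h3)) hne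
    · exact h3
  have h3 : (l : 𝓞 K) ∈ Ideal.span {(4 : 𝓞 K)} := by
    have h4 : (l : 𝓞 K) = - ∑ i ∈ Finset.range l, ((ζ : 𝓞 K) ^ i - 1) := by
      rw [Finset.sum_sub_distrib, hs]
      simp
    rw [h4]
    refine (Ideal.neg_mem_iff _).2 (Ideal.sum_mem _ fun i _ => ?_)
    have h5 := sub_dvd_pow_sub_pow (ζ : 𝓞 K) 1 i
    rw [one_pow] at h5
    exact Ideal.mem_of_dvd _ h5 (hJ4 hζ)
  obtain ⟨y, hy⟩ := Ideal.mem_span_singleton.1 h3
  set b := RingOfIntegers.basis K
  have hn1 : Algebra.norm ℤ ((algebraMap ℤ (𝓞 K)) (l : ℤ)) =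
      (l : ℤ) ^ Fintype.card (Module.Free.ChooseBasisIndex ℤ (𝓞 K)) :=
    Algebra.norm_algebraMap_of_basis b _
  have hn2 : Algebra.norm ℤ ((algebraMap ℤ (𝓞 K)) (4 : ℤ)) =
      (4 : ℤ) ^ Fintype.card (Module.Free.ChooseBasisIndex ℤ (𝓞 K)) :=
    Algebra.norm_algebraMap_of_basis b _
  have hy2 : (algebraMap ℤ (𝓞 K)) (l : ℤ) = (algebraMap ℤ (𝓞 K)) (4 : ℤ) * y := by
    rw [map_natCast, hy]
    simp
  have hy3 := congrArg (Algebra.norm ℤ) hy2
  rw [map_mul, hn1, hn2] at hy3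
  have hpos : Fintype.card (Module.Free.ChooseBasisIndex ℤ (𝓞 K)) ≠ 0 := by
    rw [← Module.finrank_eq_card_basis b]
    exact (Module.finrank_pos (R := ℤ) (M := 𝓞 K)).ne'
  have h6 : (4 : ℤ) ∣ (l : ℤ) := (Int.pow_dvd_pow_iff hpos).1 ⟨_, hy3⟩
  have h7 : 4 ∣ l := by exact_mod_cast h6
  have h8 : 2 ∣ l := dvd_trans (by norm_num) h7
  have h10 := (Nat.prime_dvd_prime_iff_eq Nat.prime_two hl).1 h8
  omega

theorem units_basis4 (hm : Module.finrank F K = m + 1) (J : Ideal (𝓞 K)) (hJ : J ≠ ⊥)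
    (hJ4 : J ≤ Ideal.span {4}) : ∃ u : Fin m → (𝓞 K)ˣ, (∀ j, (u j : 𝓞 K) - 1 ∈ J) ∧
      (∀ z, (uu u z : 𝓞 K) - 1 ∈ J) ∧
      (∀ v : (𝓞 K)ˣ, (v : 𝓞 K) - 1 ∈ J → ∃! z : Fin m → ℤ, v = uu u z) ∧
      (Subgroup.closure (Set.range u)).FiniteIndex := by
  classical
  have hrank : Units.rank K = m := by
    have h1 := H55C.complex_places K
    have h2 := InfinitePlace.card_eq_nrRealPlaces_add_nrComplexPlaces (K := K)
    have h3 : InfinitePlace.nrRealPlaces K = 0 := by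
      have h4 := InfinitePlace.card_add_two_mul_card_eq_rank K
      have h5 := Module.finrank_mul_finrank ℚ F K
      have h6 : Module.finrank ℚ F = 2 := by
        have h := IsCyclotomicExtension.finrank (n := 3) F
          (Polynomial.cyclotomic.irreducible_rat (by norm_num))
        rw [h]
        decide
      rw [h6] at h5
      omega
    unfold Units.rank
    omega
  let φ : (𝓞 K)ˣ →* (𝓞 K ⧸ J)ˣ := Units.map (Ideal.Quotient.mk J).toMonoidHom
  haveI : Finite (𝓞 K ⧸ J) := Ideal.finiteQuotientOfFreeOfNeBot J hJ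
  have hV : ∀ v : (𝓞 K)ˣ, v ∈ φ.ker ↔ (v : 𝓞 K) - 1 ∈ J := by
    intro v
    rw [MonoidHom.mem_ker, Units.ext_iff, ← Ideal.Quotient.mk_eq_mk_iff_sub_mem]
    exact Iff.rfl
  haveI hVfi : φ.ker.FiniteIndex := inferInstance
  let N : Submodule ℤ (Additive (𝓞 K)ˣ) := AddSubgroup.toIntSubmodule (Subgroup.toAddSubgroup φ.ker)
  have hmemN : ∀ x : Additive (𝓞 K)ˣ, x ∈ N ↔ Additive.toMul x ∈ φ.ker := fun x => Iff.rfl
  -- torsion free
  have htf : ∀ v ∈ φ.ker, ∀ n : ℕ, 0 < n → v ^ n = 1 → v = 1 := by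
    intro v hv n hn h1
    by_contra hne
    have h2 : orderOf v ≠ 1 := fun h => hne (orderOf_eq_one_iff.1 h)
    obtain ⟨l, hl, hdvd⟩ := Nat.exists_prime_and_dvd h2
    have hfo : IsOfFinOrder v := isOfFinOrder_iff_pow_eq_one.2 ⟨n, hn, h1⟩
    have hpos := hfo.orderOf_pos
    obtain ⟨k, hk⟩ := hdvd
    have h3 : (v ^ k) ^ l = 1 := by
      rw [← pow_mul, mul_comm, ← hk, pow_orderOf_eq_one]
    have h4 := D1_four hJ4 ((hV _).1 (Subgroup.pow_mem _ hv k)) hl h3
    have h5 := orderOf_dvd_of_pow_eq_one h4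
    have hk0 : 0 < k := Nat.pos_of_ne_zero (fun h => by rw [hk, h, mul_zero] at hpos; exact lt_irrefl _ hpos)
    have h6 := Nat.le_of_dvd hk0 h5
    have h7 := hl.two_le
    nlinarith
  haveI hN : Module.Finite ℤ N := inferInstance
  haveI hNt : Module.IsTorsionFree ℤ N := by
    apply Module.IsTorsionFree.of_smul_eq_zero
    intro r x hx
    by_contra hcon
    push Not at hcon
    obtain ⟨hr, hx0⟩ := hcon
    apply hx0
    apply Subtype.ext
    have h1 : r • (x : Additive (𝓞 K)ˣ) = 0 := congrArg Subtype.val hx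
    have h2 : (r.natAbs) • (x : Additive (𝓞 K)ˣ) = 0 := by
      rcases Int.natAbs_eq r with h | h
      · rw [h, natCast_zsmul] at h1
        exact h1
      · rw [h, neg_smul, natCast_zsmul, neg_eq_zero] at h1
        exact h1
    exact congrArg Additive.ofMul (htf (Additive.toMul (x : Additive (𝓞 K)ˣ)) ((hmemN _).1 x.2)
      r.natAbs (Int.natAbs_pos.2 hr) (congrArg Additive.toMul h2))
  haveI hNf : Module.Free ℤ N := Module.free_of_finite_type_torsion_free'
  have hfr : Module.finrank ℤ N = m := by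
    have h1 := Submodule.finrank_quotient_add_finrank N
    have h2 : Module.finrank ℤ (Additive (𝓞 K)ˣ ⧸ N) = 0 := by
      rw [Module.finrank_eq_zero_iff]
      intro x
      obtain ⟨y, rfl⟩ := Submodule.Quotient.mk_surjective N x
      refine ⟨(φ.ker.index : ℤ), by exact_mod_cast hVfi.index_ne_zero, ?_⟩
      rw [← Submodule.Quotient.mk_smul, Submodule.Quotient.mk_eq_zero, hmemN, natCast_zsmul]
      exact φ.ker.pow_index_mem (Additive.toMul y)
    rw [h2, zero_add, Units.finrank_eq, hrank] at h1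
    exact h1
  let b : Module.Basis (Fin m) ℤ N := Module.finBasisOfFinrankEq ℤ N hfr
  let u : Fin m → (𝓞 K)ˣ := fun j => Additive.toMul (b j : Additive (𝓞 K)ˣ)
  have huV : ∀ j, u j ∈ φ.ker := fun j => (hmemN _).1 (b j).2
  have huu : ∀ z : Fin m → ℤ, Additive.ofMul (uu u z) = ((∑ j, z j • b j : N) : Additive (𝓞 K)ˣ) := by
    intro z
    unfold uu
    rw [ofMul_prod, AddSubmonoidClass.coe_finset_sum]
    rfl
  have huz : ∀ z : Fin m → ℤ, uu u z ∈ φ.ker := fun z =>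
    Subgroup.prod_mem _ fun j _ => Subgroup.zpow_mem _ (huV j) _
  have hex : ∀ v : (𝓞 K)ˣ, v ∈ φ.ker → ∃! z : Fin m → ℤ, v = uu u z := by
    intro v hv
    have hvN : Additive.ofMul v ∈ N := (hmemN _).2 hv
    refine ⟨b.equivFun ⟨Additive.ofMul v, hvN⟩, ?_, ?_⟩
    · have h1 := huu (b.equivFun ⟨Additive.ofMul v, hvN⟩)
      rw [b.sum_equivFun] at h1
      exact (Additive.ofMul.injective h1).symm
    · intro z hz
      have h1 := huu z
      rw [← hz] at h1
      have h2 : (⟨Additive.ofMul v, hvN⟩ : N) = ∑ j, z j • b j := Subtype.ext h1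
      rw [h2, ← b.equivFun_symm_apply, LinearEquiv.apply_symm_apply]
  refine ⟨u, fun j => (hV _).1 (huV j), fun z => (hV _).1 (huz z),
    fun v hv => hex v ((hV v).2 hv), ?_⟩
  apply Subgroup.finiteIndex_of_le (H := φ.ker)
  intro v hv
  obtain ⟨z, hz, -⟩ := hex v hv
  rw [hz]
  exact Subgroup.prod_mem _ fun j _ =>
    Subgroup.zpow_mem _ (Subgroup.subset_closure (Set.mem_range_self j)) _

/-! Compare norm_one in H55N/D2.lean. N = N_{K/F}(v) is a unit of O, so one of the six roots of unity ±1, ±om, ±om^2, and N = 1 mod 4 O, so N = 1. -/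

theorem D1_prod {ι : Type} (s : Finset ι) (a : ι → ℂ) (ha : ∀ i, IsIntegral ℤ (a i)) :
    ∃ y : ℂ, IsIntegral ℤ y ∧ ∏ i ∈ s, (1 + 4 * a i) = 1 + 4 * y := by
  classical
  induction s using Finset.induction_on with
  | empty => exact ⟨0, isIntegral_zero, by simp⟩
  | insert i s his ih =>
    obtain ⟨y, hy, h⟩ := ih
    refine ⟨y + a i + 4 * (a i * y), ?_, ?_⟩
    · have h3 : IsIntegral ℤ (4 : ℂ) := by
        have := isIntegral_algebraMap (R := ℤ) (A := ℂ) (x := 4)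
        simpa using this
      exact (hy.add (ha i)).add (h3.mul ((ha i).mul hy))
    · rw [Finset.prod_insert his, h]; ring

/-- The only unit of O which is 1 modulo 4 is 1. -/
theorem D1_unit4 (n : Oˣ) (y : O) (h : (n : O) - 1 = 4 * y) : (n : O) = 1 := by
  have h1 := Nm_eq (n : O)
  rw [Nm_eq_one.2 n.isUnit] at h1
  have h2 : ‖e (n : O)‖ = 1 := by
    have h3 : ‖e (n : O)‖ ^ 2 = 1 := by
      rw [← h1]; norm_num
    exact (pow_eq_one_iff_of_nonneg (norm_nonneg _) two_ne_zero).1 h3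
  have h3 : e (n : O) - 1 = 4 * e y := by
    have := congrArg e h
    rw [map_sub, map_one, map_mul, map_ofNat] at this
    exact this
  have h4 : ‖(4 : ℂ) * e y‖ ≤ 2 := by
    rw [← h3]
    refine (norm_sub_le _ _).trans ?_
    rw [h2, NormOneClass.norm_one]
    norm_num
  rw [norm_mul] at h4
  have h5 : ‖e y‖ ≤ 1 / 2 := by
    have h6 : ‖(4 : ℂ)‖ = 4 := by norm_num
    rw [h6] at h4
    linarith
  have h7 := Nm_eq y
  have h8 : (Nm y : ℝ) < 1 := by
    rw [h7]
    nlinarith [norm_nonneg (e y)]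
  have h9 : Nm y = 0 := by
    have : Nm y < 1 := by exact_mod_cast h8
    omega
  rw [Nm_eq_zero.1 h9, mul_zero] at h
  exact sub_eq_zero.1 h

theorem D1_norm {σ : Fin (m + 1) → K →+* ℂ} (hE : Emb σ) (v : (𝓞 K)ˣ)
    (hv : (v : 𝓞 K) - 1 ∈ Ideal.span {(4 : 𝓞 K)}) : ∏ i, σ i ((v : 𝓞 K) : K) = 1 := by
  have h0 : ∏ i, σ i ((v : 𝓞 K) : K) = e ((Units.map (RingOfIntegers.norm F) v : Oˣ) : O) := by
    rw [norm_eq hE]
    rfl
  set n : Oˣ := Units.map (RingOfIntegers.norm F) v with hn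
  obtain ⟨w, hw⟩ := Ideal.mem_span_singleton.1 hv
  have hv' : (v : 𝓞 K) = 1 + 4 * w := by linear_combination hw
  obtain ⟨y, hy, hy1⟩ := D1_prod Finset.univ (fun i => σ i (w : K)) (fun i => by
    have h1 : IsIntegral ℤ (w : K) := RingOfIntegers.isIntegral_coe w
    exact h1.map (σ i).toIntAlgHom)
  have h1 : e (n : O) = 1 + 4 * y := by
    rw [← h0, ← hy1]
    refine Finset.prod_congr rfl fun i _ => ?_
    rw [hv']
    have h3' : (algebraMap (𝓞 K) K) 4 = 4 := map_ofNat _ 4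
    have h3'' : (σ i) 4 = 4 := map_ofNat _ 4
    simp [h3', h3'']
  have h2 : emb (((n : O) : F) - 1) = 4 * y := by
    rw [map_sub, map_one]
    have : emb ((n : O) : F) = e (n : O) := rfl
    rw [this, h1]; ring
  have h3 : emb ((((n : O) : F) - 1) / 4) = y := by
    rw [map_div₀, h2]
    have : emb (4 : F) = 4 := map_ofNat emb 4
    rw [this]
    field_simp
  have h4 : IsIntegral ℤ ((((n : O) : F) - 1) / 4) := by
    rw [← h3] at hy
    exact (isIntegral_algHom_iff emb.toIntAlgHom emb.injective).1 hy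
  obtain ⟨y', hy'⟩ : ∃ y' : O, (algebraMap O F) y' = (((n : O) : F) - 1) / 4 :=
    (IsIntegralClosure.isIntegral_iff (A := O)).1 h4
  have h5 : (n : O) - 1 = 4 * y' := by
    apply FaithfulSMul.algebraMap_injective O F
    rw [map_sub, map_one, map_mul, hy']
    have : (algebraMap O F) (4 : O) = 4 := map_ofNat _ 4
    rw [this]
    field_simp
  rw [h0, D1_unit4 n y' h5, map_one]

theorem norm_one4 (D : Ctx K m) (hE : Emb D.σ) (v : (𝓞 K)ˣ)
    (hv : (v : 𝓞 K) - 1 ∈ Ideal.span {(4 : 𝓞 K)}) : ∏ i, D.σ i ((v : 𝓞 K) : K) = 1 :=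
  D1_norm hE v hv

/-- The same for the integral norm (algebraMap is injective; Algebra.algebraMap_intNorm, norm_eq in H55N.A1). -/
theorem intNorm_one4 (hm : Module.finrank F K = m + 1) (v : (𝓞 K)ˣ)
    (hv : (v : 𝓞 K) - 1 ∈ Ideal.span {(4 : 𝓞 K)}) : Algebra.intNorm O (𝓞 K) (v : 𝓞 K) = 1 := by
  obtain ⟨σ, hσ⟩ := emb_exists K m hm
  have h1 := D1_norm hσ v hv
  rw [norm_eq hσ] at h1
  apply FaithfulSMul.algebraMap_injective O F
  apply emb.injective
  rw [Algebra.algebraMap_intNorm (L := K), map_one, map_one]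
  exact h1

end H35N
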