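import Mathlib
import Pool.Agent.Lib.H19T.Defs
import Pool.Agent.Lib.H55N.U5

open NumberField IsDedekindDomain MeasureTheory

namespace H35N

open H55B H55N H19T

variable {K : Type} [Field K] [NumberField K] [Algebra F K] {m : ℕ}

/-! Chunk U1 (S/M, copy of zfun_one in H55N/U5.lean with om replaced by -1). w0 = 2 c₀; x -> x - w0 maps X onto -X; fs t s (-x) = (-1)^(m+1) fs t s x = -fs t s x (m + 1 odd); so
sum_X Dif(fs) = 2 sum_X fs. κ = 2. -/

theorem U1_coe (D : Ctx K m) (x : 𝓞 K) (i : Fin (m + 1)) :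
    D.σ i ((-x : 𝓞 K) : K) = -D.σ i x := by
  have h1 : ((-x : 𝓞 K) : K) = -(x : K) := map_neg (algebraMap (𝓞 K) K) x
  rw [h1, map_neg]

theorem U1_fs_neg (D : Ctx K m) (hodd : Odd (m + 1)) (t : Fin (m + 1) → ℝ) (s : ℂ) (x : 𝓞 K) :
    D.fs t s (-x) = -D.fs t s x := by
  have hN : D.N (-x) = -D.N x := by
    unfold Ctx.N
    rw [Finset.prod_congr rfl fun i _ => U1_coe D x i, Finset.prod_neg,
      Finset.card_univ, Fintype.card_fin, hodd.neg_one_pow, neg_one_mul]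
  have hQ : D.Q t (-x) = D.Q t x := by
    unfold Ctx.Q
    refine Finset.sum_congr rfl fun i _ => ?_
    rw [U1_coe D x i, norm_neg]
  unfold Ctx.fs
  rw [hN, hQ, map_neg, neg_mul]

theorem zfun_neg (D : Ctx K m) (hE : Emb D.σ) (h0 : D.c₀ ∉ D.I) (hodd : Odd (m + 1))
    (u : Fin m → (𝓞 K)ˣ) (hu : D.UOk u) (I' : Ideal (𝓞 K)) (hI : D.I ≤ I') (h1 : D.c₀ ∉ I')
    (h2 : 2 * D.c₀ ∈ I') :
    ∃ Z : ℂ → ℂ, AnalyticOnNhd ℂ Z {s | 3 / 2 - 1 / (2 * (m + 1)) < s.re} ∧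
      ∀ T : Set (𝓞 K), T ⊆ D.X →
        (∀ x ∈ D.X, ∃! q : (Fin m → ℤ) × T, x = (uu u q.1 : 𝓞 K) * q.2) →
        ∀ s : ℂ, 3 / 2 < s.re → HasSum (fun x : T => nf s (x : 𝓞 K)) (Z s) := by
  set w : Unit → 𝓞 K := fun _ => 2 * D.c₀ with hw
  have hwI : ∀ i, w i ∈ I' := fun i => h2
  set V : ℂ → ℂ := fun s => ∫ z in Set.Icc (0 : Fin m → ℝ) 1,
      ∑' x : D.X, (1 : ℂ) * Dif w Finset.univ (D.fs (tt (D.lm u) z) s) x with hVdef
  have hV : AnalyticOnNhd ℂ V {s | 3 / 2 - 1 / (2 * (m + 1)) < s.re} := by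
    have h := cont_analytic D hE I' hI h1 w hwI (by simp; omega) (fun _ => 1)
      ⟨1, fun _ => by simp⟩ (D.lm u)
    rw [Fintype.card_unit, Nat.cast_one] at h
    exact h
  have hr : (0 : ℝ) ≤ 3 / 2 - 1 / (2 * (m + 1)) := by
    have h4 : (1 : ℝ) / (2 * (m + 1)) ≤ 1 / 2 := by
      rw [div_le_div_iff₀ (by positivity) (by norm_num)]
      have : (0 : ℝ) ≤ m := Nat.cast_nonneg m
      linarith
    linarith
  obtain ⟨hA1, hA2⟩ := U5_gam D u hu (fun s => V s * 2⁻¹) _ hr (hV.mul analyticOnNhd_const)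
  refine ⟨_, hA1, ?_⟩
  intro T hT hbij s hs
  obtain ⟨h4, h5⟩ := unfold D hE h0 u hu (fun _ => 1) ⟨1, fun _ => by simp⟩
    (fun x _ z => rfl) T hT hbij s hs
  have hdif : ∀ (h : 𝓞 K → ℂ) (x : 𝓞 K), Dif w Finset.univ h x = h x - h (x - 2 * D.c₀) := by
    intro h x
    have h6 : (Finset.univ : Finset Unit) = insert () ∅ := rfl
    rw [h6, dif_insert w ∅ () (Finset.notMem_empty _), dif_empty, dif_empty]
  have hmem : ∀ x : 𝓞 K, x ∈ D.X → 2 * D.c₀ - x ∈ D.X := by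
    intro x hx
    rw [D.mem_X] at hx ⊢
    have h6 : 2 * D.c₀ - x - D.c₀ = -(x - D.c₀) := by ring
    rw [h6]
    exact D.I.neg_mem_iff.2 hx
  let ε : D.X ≃ D.X :=
    { toFun := fun x => ⟨2 * D.c₀ - (x : 𝓞 K), hmem x x.2⟩
      invFun := fun x => ⟨2 * D.c₀ - (x : 𝓞 K), hmem x x.2⟩
      left_inv := by
        intro x
        apply Subtype.ext
        show 2 * D.c₀ - (2 * D.c₀ - (x : 𝓞 K)) = x
        ring
      right_inv := by
        intro x
        apply Subtype.ext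
        show 2 * D.c₀ - (2 * D.c₀ - (x : 𝓞 K)) = x
        ring }
  have hsum : ∀ t : Fin (m + 1) → ℝ, (∀ i, 0 < t i) →
      ∑' x : D.X, (1 : ℂ) * Dif w Finset.univ (D.fs t s) x = 2 * ∑' x : D.X, D.fs t s x := by
    intro t ht
    have hsm := (fs_summable D hE h0 t ht s hs).of_norm
    have h6 : ∀ x : D.X, D.fs t s ((x : 𝓞 K) - 2 * D.c₀) = -D.fs t s (ε x : 𝓞 K) := by
      intro x
      rw [← U1_fs_neg D hodd]
      congr 1
      show _ = -(2 * D.c₀ - (x : 𝓞 K))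
      ring
    have h7 : Summable fun x : D.X => D.fs t s (ε x : 𝓞 K) := (ε.summable_iff).2 hsm
    have h8 : ∑' x : D.X, D.fs t s (ε x : 𝓞 K) = ∑' x : D.X, D.fs t s x :=
      ε.tsum_eq (fun x : D.X => D.fs t s x)
    simp only [one_mul, hdif, h6]
    rw [hsm.tsum_sub h7.neg, tsum_neg, h8]
    ring
  have h6 : (∑' x : T, (1 : ℂ) * nf s (x : 𝓞 K)) * cst (D.lm u) s = V s * 2⁻¹ := by
    rw [h5, hVdef]
    simp only
    rw [← integral_mul_const]
    refine integral_congr_ae (Filter.Eventually.of_forall fun z => ?_)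
    show ∑' x : D.X, (1 : ℂ) * D.fs (tt (D.lm u) z) s x =
      (∑' x : D.X, (1 : ℂ) * Dif w Finset.univ (D.fs (tt (D.lm u) z) s) x) * 2⁻¹
    rw [hsum (tt (D.lm u) z) fun i => Real.exp_pos _]
    simp only [one_mul]
    field_simp
  have h7 := hA2 s (by linarith) _ h6
  rw [h7]
  have h8 := h4.of_norm.hasSum
  simp only [one_mul] at h8 ⊢
  exact h8

end H35N
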