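import Mathlib
import Pool.Agent.Lib.H19T.Defs
import Pool.Agent.Lib.H55B.A0

/-!
# H35N: the 3-adic core. Definitions. See PROOF.md.
-/

open NumberField IsDedekindDomain

namespace H35N

open H55B H55N H19T

/-! ### One variable -/

/-- The limit of the first Eisenstein sums. -/
noncomputable def sl (z : ℂ) : ℂ := Filter.limUnder Filter.atTop fun R : ℝ => sR R z

/-- A point of order lam. -/
noncomputable def TT : ℂ := 3 / e lam

/-- Half of the slope of the line through z and the point of order lam, even part. -/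
noncomputable def c1 (z : ℂ) : ℂ := wpd z / (2 * wp z * R0)

/-- The odd part. -/
noncomputable def c2 (z : ℂ) : ℂ := wpd TT / (2 * wp z * R0)

/-- The constant approximating c2 (4 r^3 = 1). -/
noncomputable def c0 (r : ℂ) : ℂ := 3 * wpd TT / (2 * r * R0 ^ 3)

/-! ### Finite sums over O^n modulo N -/

/-- The sum of F over representatives of O^n modulo N. -/
noncomputable def SO (n : ℕ) (N : O) (F : (Fin n → O) → ℂ) : ℂ :=
  ∑ᶠ cl : Fin n → O ⧸ Ideal.span {N}, F fun k => Quotient.out (cl k)

/-! ### Labels -/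

/-- Rational labels (colours modulo lam, odd values on the class of c₁). -/
structure LabOk3 {K : Type} [Field K] [NumberField K] [Algebra F K] {m : ℕ} (b : Ideal (𝓞 K))
    (c₁ : 𝓞 K) (u : Fin m → (𝓞 K)ˣ) (L : (Fin m → ℤ) → K) : Prop where
  equi : ∀ a z : Fin m → ℤ, L (a + ((m + 1 : ℕ) : ℤ) • z) = ((uu u z : 𝓞 K) : K) * L a
  int : ∀ a, ∀ x ∈ b, ∃ y : O, Algebra.trace F K ((x : K) * L a) = algebraMap O F y
  one : ∀ a, ∃ y : O, Algebra.trace F K ((c₁ : K) * L a) = algebraMap O F (1 + 2 * y)
  cop : ∀ (a : Fin m → ℤ) (π : Equiv.Perm (Fin m)), ∃ d : O, IsCoprime d lam ∧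
    ∀ y : Fin (m + 1) → O, ∃ x ∈ b, ∀ k : Fin (m + 1),
      Algebra.trace F K ((x : K) * L (kv a π k)) = algebraMap O F (d * y k)

open Classical in
/-- The weight h as a function of the coordinates Tr(A_k x), x in X; 0 outside of the image of X. -/
noncomputable def Gf {K : Type} [Field K] [NumberField K] [Algebra F K] {m : ℕ} (D : Ctx K m)
    (A : Fin (m + 1) → K) (h : 𝓞 K → ℂ) (y : Fin (m + 1) → O) : ℂ :=
  if hx : ∃ x ∈ D.X, ∀ k, D.Tr (A k) x = e (y k) then h hx.choose else 0

/-- The quadratic character modulo lam of the norm. -/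
noncomputable def kn {K : Type} [Field K] [NumberField K] [Algebra F K] (x : 𝓞 K) : ℂ :=
  kl (Algebra.intNorm O (𝓞 K) x)

end H35N
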