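import Mathlib
import Pool.Agent.Lib.H19T.Defs
import Pool.Agent.Lib.H35T.L3
import Pool.Agent.Lib.H55N.L2

open NumberField IsDedekindDomain

namespace H35N

open H55B H55N H19T

/-! ### Integrality above 3 -/

theorem i3_mul {a b : ℂ} (ha : Int3 a) (hb : Int3 b) : Int3 (a * b) := by
  intro V hV
  rw [map_mul]
  exact mul_le_one' (ha V hV) (hb V hV)

theorem i3_add {a b : ℂ} (ha : Int3 a) (hb : Int3 b) : Int3 (a + b) := fun V hV =>
  (Valuation.map_add _ _ _).trans (max_le (ha V hV) (hb V hV))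

theorem i3_neg {a : ℂ} (ha : Int3 a) : Int3 (-a) := by
  intro V hV
  rw [Valuation.map_neg]
  exact ha V hV

theorem i3_sub {a b : ℂ} (ha : Int3 a) (hb : Int3 b) : Int3 (a - b) := by
  rw [sub_eq_add_neg]
  exact i3_add ha (i3_neg hb)

theorem i3_zero : Int3 0 := fun V _ => by
  rw [map_zero]
  exact zero_le

theorem i3_one : Int3 1 := fun V _ => by
  rw [map_one]

theorem i3_sum {ι : Type*} (s : Finset ι) (a : ι → ℂ) (ha : ∀ i ∈ s, Int3 (a i)) :
    Int3 (∑ i ∈ s, a i) :=
  Finset.sum_induction _ Int3 (fun _ _ => i3_add) i3_zero ha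

theorem i3_prod {ι : Type*} (s : Finset ι) (a : ι → ℂ) (ha : ∀ i ∈ s, Int3 (a i)) :
    Int3 (∏ i ∈ s, a i) :=
  Finset.prod_induction _ Int3 (fun _ _ => i3_mul) i3_one ha

theorem i3_pow {a : ℂ} (ha : Int3 a) (n : ℕ) : Int3 (a ^ n) := by
  intro V hV
  rw [map_pow]
  exact pow_le_one' (ha V hV) n

theorem i3_intCast (n : ℤ) : Int3 (n : ℂ) := by
  intro V hV
  rw [ValuationSubring.valuation_le_one_iff]
  exact intCast_mem V n

theorem i3_natCast (n : ℕ) : Int3 (n : ℂ) := by
  intro V hV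
  rw [ValuationSubring.valuation_le_one_iff]
  exact natCast_mem V n

theorem i3_e (x : O) : Int3 (e x) := fun V _ => val_e_le V x

theorem i3_unit {a : ℂ} (ha : H35T.Unit3 a) : Int3 a := fun V hV => (ha V hV).le

theorem i3_div_unit {a b : ℂ} (ha : Int3 a) (hb : H35T.Unit3 b) : Int3 (a / b) := by
  intro V hV
  rw [map_div₀, hb V hV, div_one]
  exact ha V hV

theorem i3_det {n : ℕ} (M : Matrix (Fin n) (Fin n) ℂ) (h : ∀ i j, Int3 (M i j)) :
    Int3 M.det := by
  rw [Matrix.det_apply]
  refine i3_sum _ _ fun s _ => ?_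
  rcases Int.units_eq_one_or (Equiv.Perm.sign s) with h1 | h1
  · rw [h1, one_smul]
    exact i3_prod _ _ fun i _ => h _ _
  · rw [h1, Units.neg_smul, one_smul]
    exact i3_neg (i3_prod _ _ fun i _ => h _ _)

theorem unit3_nat {n : ℕ} (hn : ¬ 3 ∣ n) : H35T.Unit3 (n : ℂ) := fun V hV => H35T.val_nat V hV n hn

theorem unit3_om : H35T.Unit3 (e om) := fun V _ => H35T.L3_om V.valuation

/-- The relation between lam and the square root of -3. -/
theorem sq3_lam : H35T.sq3 = -om * lam := by
  unfold H35T.sq3 lam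
  linear_combination om_rel

theorem three_lam : (3 : O) = -(om ^ 2) * lam ^ 2 := by
  have h := om_rel
  unfold lam
  linear_combination (om ^ 2 - 3 * om + 3) * h

theorem e_lam_ne : e lam ≠ 0 := by
  intro h
  have h1 := congrArg e three_lam
  rw [map_mul, map_pow, h, map_ofNat] at h1
  norm_num at h1

theorem lam_prime' : Prime (lam : O) := H55N.L2_lam_prime

/-- 3 / (lam sqrt(-3)) is a unit. -/
theorem unit3_c : H35T.Unit3 (3 / (e lam * e H35T.sq3)) := by
  have h : (3 : ℂ) / (e lam * e H35T.sq3) = e om := by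
    have h0 := e_lam_ne
    have h1 := congrArg e sq3_lam
    have h2 := congrArg e three_lam
    rw [map_mul, map_neg] at h1
    rw [map_mul, map_neg, map_pow, map_pow, map_ofNat] at h2
    have h3 : e om ≠ 0 := by
      intro h
      have := e_om_rel
      rw [h] at this
      norm_num at this
    rw [h1, h2]
    field_simp
  rw [h]
  exact unit3_om

theorem int3_q {q : ℂ} (hq : q ^ 4 = 3) : Int3 q := by
  intro V hV
  by_contra hcon
  push Not at hcon
  have h1 : 1 < V.valuation q ^ 4 := one_lt_pow₀ hcon (by norm_num)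
  rw [← map_pow, hq] at h1
  exact absurd hV (not_lt.2 h1.le)

end H35N
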