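import Mathlib
import Pool.Agent.Lib.H35N.Defs
import Pool.Agent.Lib.H35N.I0

open NumberField IsDedekindDomain

namespace H35N

open H55B H55N H19T

variable {K : Type} [Field K] [NumberField K] [Algebra F K] {m : ℕ}

private theorem L2_det3 (s : Equiv.Perm (Fin (m + 1))) (Y W : Matrix (Fin (m + 1)) (Fin (m + 1)) O)
    (hY : ∀ k j, Y k j = (if s k = j then 1 else 0) + lam * W k j) : IsCoprime Y.det lam := by
  set φ := Ideal.Quotient.mk (Ideal.span {(lam : O)}) with hφ
  have h2 : φ lam = 0 := by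
    rw [hφ, Ideal.Quotient.eq_zero_iff_mem]
    exact Ideal.mem_span_singleton_self lam
  have h1 : φ.mapMatrix Y = (1 : Matrix (Fin (m + 1)) (Fin (m + 1)) (O ⧸ Ideal.span {(lam : O)})).submatrix s id := by
    ext k j
    rw [RingHom.mapMatrix_apply, Matrix.map_apply, hY, map_add, map_mul, h2, zero_mul, add_zero,
      Matrix.submatrix_apply, Matrix.one_apply]
    rw [id_eq]
    by_cases h : s k = j
    · rw [if_pos h, if_pos h, map_one]
    · rw [if_neg h, if_neg h, map_zero]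
  have h3 : φ (Y.det * Y.det) = 1 := by
    rw [map_mul, RingHom.map_det, h1, Matrix.det_permute, Matrix.det_one, mul_one]
    rcases Int.units_eq_one_or (Equiv.Perm.sign s) with h | h <;> rw [h] <;> simp
  rw [← map_one φ, hφ, Ideal.Quotient.eq, Ideal.mem_span_singleton] at h3
  obtain ⟨t, ht⟩ := h3
  exact ⟨Y.det, -t, by linear_combination ht⟩

/-! Chunk L2 (M, copy of H55N/L2 labels_exist with the roles of 2 and lam exchanged). c₁ = sum c_j β_j, some c_(j0) not divisible by 2 (2 is a prime element of O: two_prime);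
y_s = e_s + lam q_s e_(j0) with c_s + lam q_s c_(j0) = 1 mod 2 (lam c_(j0) is invertible mod 2). Units: u^z = 1 mod 2 lam changes the traces by multiples of 2 lam. one: Tr(c₁ L(a)) = 1 mod 2.
cop: the matrix Y is congruent to a permutation matrix modulo lam, so d = det Y is ±1 modulo lam, adjugate as in H55N/L2 (all lemmas L2_col, L2_bij, L2_pair .. there can be used). -/

theorem labels_exist3 (hm : Module.finrank F K = m + 1) (b : Ideal (𝓞 K)) (hb : b ≠ ⊥)
    (c₁ : 𝓞 K) (hc : c₁ ∈ b) (hc' : c₁ ∉ Ideal.span {2} * b) (u : Fin m → (𝓞 K)ˣ)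
    (hu : ∀ z, (uu u z : 𝓞 K) - 1 ∈ Ideal.span {algebraMap O (𝓞 K) (2 * lam)}) :
    ∃ L : (Fin m → ℤ) → K, LabOk3 b c₁ u L := by
  classical
  obtain ⟨β, β', hβ, hdual, hrep, hind⟩ := dual_basis hm b hb
  obtain ⟨c, hcc⟩ := hrep c₁ hc
  -- a coordinate not divisible by lam
  obtain ⟨j₀, hj₀⟩ : ∃ j₀, ¬ (2 : O) ∣ c j₀ := by
    by_contra hcon
    push Not at hcon
    choose c' hc'' using hcon
    apply hc'
    rw [Ideal.mem_span_singleton_mul]
    refine ⟨∑ j, algebraMap O (𝓞 K) (c' j) * β j, b.sum_mem fun j _ => b.mul_mem_left _ (hβ j), ?_⟩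
    rw [hcc, Finset.mul_sum]
    refine Finset.sum_congr rfl fun j _ => ?_
    rw [hc'' j, map_mul, map_ofNat]
    ring
  obtain ⟨t3, ht3⟩ := L2_lam_three
  have hl2 : ¬ (2 : O) ∣ lam := by
    rintro ⟨t, ht⟩
    apply two_prime.not_isUnit
    apply isUnit_of_dvd_one
    exact ⟨t * t3 - 1, by linear_combination ht3 + t3 * ht⟩
  have hcop : IsCoprime (2 : O) (lam * c j₀) := by
    rw [Prime.coprime_iff_not_dvd two_prime]
    intro h
    rcases two_prime.dvd_or_dvd h with h1 | h1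
    · exact hl2 h1
    · exact hj₀ h1
  obtain ⟨a', b', hab⟩ := hcop
  -- the coordinate vectors
  let Yv : Fin (m + 1) → Fin (m + 1) → O := fun s j =>
    (if s = j then 1 else 0) + lam * (b' * (1 - c s) * if j₀ = j then 1 else 0)
  have hYone : ∀ s, ∑ j, c j * Yv s j = 1 + 2 * (-(a' * (1 - c s))) := by
    intro s
    have h1 : ∑ j, c j * Yv s j = c s + lam * (b' * (1 - c s)) * c j₀ := by
      simp only [Yv, mul_add, Finset.sum_add_distrib]
      congr 1
      · simp
      · rw [Finset.sum_eq_single j₀]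
        · rw [if_pos rfl]; ring
        · intro j _ hj
          rw [if_neg hj.symm]; ring
        · intro h
          exact absurd (Finset.mem_univ _) h
    rw [h1]
    linear_combination (1 - c s) * hab
  let L0 : Fin (m + 1) → K := fun s => ∑ k, (algebraMap O F (Yv s k)) • β' k
  have hL0 : ∀ (x : Fin (m + 1) → O) (s : Fin (m + 1)),
      Algebra.trace F K (((∑ j, algebraMap O (𝓞 K) (x j) * β j : 𝓞 K) : K) * L0 s) =
        algebraMap O F (∑ j, x j * Yv s j) := fun x s => L2_pair β β' hdual x (Yv s)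
  have hL0b : ∀ x ∈ b, ∀ s, ∃ y : O, Algebra.trace F K ((x : K) * L0 s) = algebraMap O F y := by
    intro x hx s
    obtain ⟨y, hy⟩ := hrep x hx
    exact ⟨_, by rw [hy]; exact hL0 y s⟩
  let L : (Fin m → ℤ) → K := fun a =>
    ((uu u (fun i => a i / ((m + 1 : ℕ) : ℤ)) : 𝓞 K) : K) * L0 (L2_col a)
  -- the action of the units modulo 6
  have hmod : ∀ (x : 𝓞 K) (_ : x ∈ b) (z : Fin m → ℤ) (s : Fin (m + 1)), ∃ w : O,
      Algebra.trace F K ((x : K) * (((uu u z : 𝓞 K) : K) * L0 s)) =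
        Algebra.trace F K ((x : K) * L0 s) + algebraMap O F (2 * lam * w) := by
    intro x hx z s
    obtain ⟨t, ht⟩ := Ideal.mem_span_singleton.1 (hu z)
    obtain ⟨w, hw⟩ := hL0b (t * x) (b.mul_mem_left _ hx) s
    refine ⟨w, ?_⟩
    have h1 : (uu u z : 𝓞 K) = 1 + algebraMap O (𝓞 K) (2 * lam) * t := by linear_combination ht
    have h2 : (x : K) * (((uu u z : 𝓞 K) : K) * L0 s) =
        (x : K) * L0 s + ((algebraMap O (𝓞 K) (2 * lam) : 𝓞 K) : K) * (((t * x : 𝓞 K) : K) * L0 s) := by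
      rw [h1]
      have h3 : ((1 + algebraMap O (𝓞 K) (2 * lam) * t : 𝓞 K) : K) =
          1 + ((algebraMap O (𝓞 K) (2 * lam) : 𝓞 K) : K) * (t : K) := by
        rw [L2_coe_add, L2_coe_mul]
        rfl
      rw [h3, L2_coe_mul]
      ring
    rw [h2, map_add, L2_trace_mul, hw, ← map_mul (algebraMap O F)]
  refine ⟨L, ⟨?_, ?_, ?_, ?_⟩⟩
  · intro a z
    have hn : ((m + 1 : ℕ) : ℤ) ≠ 0 := by positivity
    have h1 : L2_col (a + ((m + 1 : ℕ) : ℤ) • z) = L2_col a := by
      apply L2_col_eq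
      have : ∑ i, (a + ((m + 1 : ℕ) : ℤ) • z) i = ∑ i, a i + ((m + 1 : ℕ) : ℤ) * ∑ i, z i := by
        simp only [Pi.add_apply, Pi.smul_apply, smul_eq_mul, Finset.sum_add_distrib, Finset.mul_sum]
      rw [this, Int.add_mul_emod_self_left]
    have h2 : (fun i => (a + ((m + 1 : ℕ) : ℤ) • z) i / ((m + 1 : ℕ) : ℤ)) =
        (fun i => a i / ((m + 1 : ℕ) : ℤ)) + z := by
      funext i
      simp only [Pi.add_apply, Pi.smul_apply, smul_eq_mul]
      rw [Int.add_mul_ediv_left _ _ hn]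
    show ((uu u (fun i => (a + ((m + 1 : ℕ) : ℤ) • z) i / ((m + 1 : ℕ) : ℤ)) : 𝓞 K) : K) *
      L0 (L2_col (a + ((m + 1 : ℕ) : ℤ) • z)) = _
    rw [h1, h2, L2_uu_add, Units.val_mul, L2_coe_mul]
    show _ = ((uu u z : 𝓞 K) : K) *
      (((uu u (fun i => a i / ((m + 1 : ℕ) : ℤ)) : 𝓞 K) : K) * L0 (L2_col a))
    ring
  · intro a x hx
    have h1 : (x : K) * L a =
        ((x * (uu u (fun i => a i / ((m + 1 : ℕ) : ℤ)) : 𝓞 K) : 𝓞 K) : K) * L0 (L2_col a) := by
      rw [L2_coe_mul, mul_assoc]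
    rw [h1]
    exact hL0b _ (b.mul_mem_right _ hx) _
  · intro a
    obtain ⟨w, hw⟩ := hmod c₁ hc (fun i => a i / ((m + 1 : ℕ) : ℤ)) (L2_col a)
    have h1 := hL0 c (L2_col a)
    rw [← hcc, hYone] at h1
    refine ⟨-(a' * (1 - c (L2_col a))) + lam * w, ?_⟩
    show Algebra.trace F K ((c₁ : K) *
      (((uu u (fun i => a i / ((m + 1 : ℕ) : ℤ)) : 𝓞 K) : K) * L0 (L2_col a))) = _
    rw [hw, h1, ← map_add]
    congr 1
    ring
  · intro a π
    let s : Equiv.Perm (Fin (m + 1)) := Equiv.ofBijective _ (L2_bij a π)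
    have hs : ∀ k, s k = L2_col (kv a π k) := fun k => rfl
    -- the matrix of the coordinates
    have hY : ∀ k j : Fin (m + 1), ∃ W : O, Algebra.trace F K ((β j : K) * L (kv a π k)) =
        algebraMap O F ((if s k = j then 1 else 0) + lam * W) := by
      intro k j
      obtain ⟨w, hw⟩ := hmod (β j) (hβ j) (fun i => kv a π k i / ((m + 1 : ℕ) : ℤ))
        (L2_col (kv a π k))
      have h1 := hL0 (Pi.single j 1) (L2_col (kv a π k))
      have h2 : ∑ i, algebraMap O (𝓞 K) ((Pi.single j 1 : Fin (m + 1) → O) i) * β i = β j := by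
        rw [Finset.sum_eq_single j]
        · rw [Pi.single_eq_same, map_one, one_mul]
        · intro i _ hi
          rw [Pi.single_eq_of_ne hi, map_zero, zero_mul]
        · intro h
          exact absurd (Finset.mem_univ _) h
      have h3 : ∑ i, (Pi.single j 1 : Fin (m + 1) → O) i * Yv (L2_col (kv a π k)) i =
          Yv (L2_col (kv a π k)) j := by
        rw [Finset.sum_eq_single j]
        · rw [Pi.single_eq_same, one_mul]
        · intro i _ hi
          rw [Pi.single_eq_of_ne hi, zero_mul]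
        · intro h
          exact absurd (Finset.mem_univ _) h
      rw [h2, h3] at h1
      refine ⟨b' * (1 - c (L2_col (kv a π k))) * (if j₀ = j then 1 else 0) + 2 * w, ?_⟩
      show Algebra.trace F K ((β j : K) *
        (((uu u (fun i => kv a π k i / ((m + 1 : ℕ) : ℤ)) : 𝓞 K) : K) * L0 (L2_col (kv a π k)))) = _
      rw [hw, h1, ← map_add]
      congr 1
      rw [hs]
      simp only [Yv]
      ring
    choose W hW using hY
    let Y : Matrix (Fin (m + 1)) (Fin (m + 1)) O := fun k j => (if s k = j then 1 else 0) + lam * W k j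
    refine ⟨Y.det, L2_det3 s Y W fun k j => rfl, fun y => ?_⟩
    refine ⟨∑ j, algebraMap O (𝓞 K) ((Y.adjugate.mulVec y) j) * β j,
      b.sum_mem fun j _ => b.mul_mem_left _ (hβ j), fun k => ?_⟩
    rw [L2_coe_sum, Finset.sum_mul, map_sum]
    have h1 : ∀ j, Algebra.trace F K
        (((algebraMap O (𝓞 K) ((Y.adjugate.mulVec y) j) * β j : 𝓞 K) : K) * L (kv a π k)) =
          algebraMap O F (Y k j * (Y.adjugate.mulVec y) j) := by
      intro j
      rw [L2_coe_mul, mul_assoc, L2_trace_mul, hW k j, mul_comm, ← map_mul]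
    rw [Finset.sum_congr rfl fun j _ => h1 j, ← map_sum]
    congr 1
    have h2 : Y.mulVec (Y.adjugate.mulVec y) = Y.det • y := by
      rw [Matrix.mulVec_mulVec, Matrix.mul_adjugate, Matrix.smul_mulVec, Matrix.one_mulVec]
    exact congrFun h2 k

/-- Copy of labels_indep. -/
theorem labels_indep3 (b : Ideal (𝓞 K)) (c₁ : 𝓞 K) (u : Fin m → (𝓞 K)ˣ) (L : (Fin m → ℤ) → K)
    (hL : LabOk3 b c₁ u L) (a : Fin m → ℤ) (π : Equiv.Perm (Fin m)) :
    LinearIndependent F fun k : Fin (m + 1) => L (kv a π k) := by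
  rw [Fintype.linearIndependent_iff]
  intro g hg k₀
  obtain ⟨d, hd, h⟩ := hL.cop a π
  obtain ⟨x, _, hx⟩ := h (Pi.single k₀ 1)
  have hd0 : d ≠ 0 := by
    rintro rfl
    exact lam_prime'.not_isUnit (isCoprime_zero_left.1 hd)
  have h1 := congrArg (fun t => Algebra.trace F K ((x : K) * t)) hg
  simp only [Finset.mul_sum, map_sum, mul_zero, map_zero, mul_smul_comm, map_smul, smul_eq_mul,
    hx] at h1
  rw [Finset.sum_eq_single k₀] at h1
  · rw [Pi.single_eq_same, mul_one] at h1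
    rcases mul_eq_zero.1 h1 with h2 | h2
    · exact h2
    · exfalso
      apply hd0
      exact RingOfIntegers.coe_injective (h2.trans (map_zero _).symm)
  · intro k _ hk
    rw [Pi.single_eq_of_ne hk, mul_zero, map_zero, mul_zero]
  · intro h
    exact absurd (Finset.mem_univ _) h

/-- The values on the class c₁ + 4 f b are odd (copy of labels_low; stated for all x, used for contexts D with D.X contained in this class). -/
theorem labels_low3 (D : Ctx K m) (hE : Emb D.σ) (b f : Ideal (𝓞 K)) (c₁ : 𝓞 K) (hc : c₁ ∈ b)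
    (u : Fin m → (𝓞 K)ˣ) (L : (Fin m → ℤ) → K) (hL : LabOk3 b c₁ u L) (a : Fin m → ℤ) :
    ∀ x ∈ XS (Ideal.span {4} * f * b) c₁,
      (∃ y : O, D.Tr (L a) x = e (1 + 2 * y)) ∧ 1 ≤ ‖D.Tr (L a) x‖ := by
  intro x hx
  have key : ∃ y : O, D.Tr (L a) x = e (1 + 2 * y) := by
    have hx1 : x - c₁ ∈ Ideal.span {(4 : 𝓞 K)} * (f * b) := by
      rw [← mul_assoc]
      exact hx
    obtain ⟨t, ht, hxt⟩ := Ideal.mem_span_singleton_mul.1 hx1
    have htb : t ∈ b := Ideal.mul_le_right ht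
    obtain ⟨y, hy⟩ := hL.one a
    obtain ⟨w, hw⟩ := hL.int a t htb
    refine ⟨y + 2 * w, ?_⟩
    rw [Tr_eq D hE]
    have h1 : (x : K) * L a = (c₁ : K) * L a +
        ((algebraMap O (𝓞 K) 4 : 𝓞 K) : K) * ((t : K) * L a) := by
      have h2 : x = c₁ + 4 * t := by linear_combination -hxt
      rw [h2, map_ofNat, L2_coe_add, L2_coe_mul]
      ring
    rw [h1, map_add, L2_trace_mul, hy, hw, ← map_mul (algebraMap O F), ← map_add (algebraMap O F)]
    show e _ = e _
    congr 1
    ring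
  refine ⟨key, ?_⟩
  obtain ⟨y, hy⟩ := key
  rw [hy]
  have h1 := Nm_eq (1 + 2 * y)
  have h2 : 1 ≤ Nm (1 + 2 * y) := by
    rw [Nat.one_le_iff_ne_zero]
    intro h0
    have h3 := Nm_eq_zero.1 h0
    apply two_prime.not_isUnit
    apply isUnit_of_dvd_one
    exact ⟨-y, by linear_combination h3⟩
  have h3 : (1 : ℝ) ≤ Nm (1 + 2 * y) := by exact_mod_cast h2
  rw [h1] at h3
  nlinarith [norm_nonneg (e (1 + 2 * y))]

end H35N
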