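import Mathlib
import Pool.Agent.Lib.H35N.Defs
import Pool.Agent.Lib.H35N.I0
import Pool.Agent.Lib.H55N.E4
import Pool.Agent.Lib.H55N.E5

open NumberField IsDedekindDomain

namespace H35N

open H55B H55N H19T

/-! Basic facts on sl, TT and lattice points (used by the chunks E1-E6). -/

theorem TT_mul : e lam * TT = 3 := by
  unfold TT
  rw [mul_div_cancel₀ _ e_lam_ne]

theorem mem_three (y : O) : 3 * e y ∈ Lam := ⟨y, rfl⟩

theorem mem_mul {z : ℂ} (h : z ∈ Lam) (a : O) : e a * z ∈ Lam := by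
  obtain ⟨y, hy⟩ := h
  exact ⟨a * y, by rw [hy, map_mul]; ring⟩

theorem mem_nat {z : ℂ} (h : z ∈ Lam) (n : ℕ) : (n : ℂ) * z ∈ Lam := by
  have := mem_mul h (n : O)
  rwa [map_natCast] at this

theorem mem_sub {z w : ℂ} (h : z ∈ Lam) (h' : w ∈ Lam) : z - w ∈ Lam := by
  rw [sub_eq_add_neg]
  exact A1_add_mem h (A1_neg_mem h')

theorem TT_not : TT ∉ Lam := by
  rintro ⟨y, hy⟩
  have h1 := TT_mul
  rw [hy] at h1
  have h2 : e (lam * y) = e 1 := by
    rw [map_mul, map_one]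
    linear_combination (1 / 3) * h1
  have h3 := e_injective h2
  exact lam_prime'.not_isUnit (IsUnit.of_mul_eq_one _ h3)

/-- e om TT = TT + 3. -/
theorem om_TT : e om * TT = TT + 3 * e 1 := by
  have h1 := TT_mul
  unfold lam at h1
  rw [map_sub, map_one] at h1
  rw [map_one]
  linear_combination h1

theorem sR_TT (R : ℝ) : sR R TT = 0 := by
  have h2 := sR_om R TT
  rw [om_TT, sR_per] at h2
  have h3 : (1 - e om ^ 2) * sR R TT = 0 := by linear_combination h2
  rcases mul_eq_zero.1 h3 with h | h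
  · exfalso
    apply A0_om_ne_one
    have h7 : e om ^ 2 = 1 := by linear_combination -h
    have : e om ^ 3 = e om := by rw [pow_succ, h7, one_mul]
    rw [← this, A0_om_cube]
  · exact h

theorem wp_TT : wp TT = 0 := by
  have h4 := wp_om TT
  rw [om_TT, wp_per] at h4
  have h5 : (e om - 1) * wp TT = 0 := by linear_combination -h4
  rcases mul_eq_zero.1 h5 with h | h
  · exact absurd (sub_eq_zero.1 h) A0_om_ne_one
  · exact h

theorem wpd_TT_sq : wpd TT ^ 2 = -wp 1 ^ 3 := by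
  have h := wp_ode TT TT_not
  rw [wp_TT, A3_g3] at h
  rw [h]
  ring

theorem wpd_TT_ne : wpd TT ≠ 0 := by
  intro h
  have h1 := wpd_TT_sq
  rw [h] at h1
  have h2 : wp 1 ^ 3 = 0 := by linear_combination h1
  exact A3_wp_one_ne (pow_eq_zero_iff (by norm_num) |>.1 h2)

/-- If N z and 3 z are in Lam and N is prime to 3 then z is in Lam. -/
theorem mem_of_three {z : ℂ} {N : ℕ} (h3 : ¬ 3 ∣ N) (h1 : (N : ℂ) * z ∈ Lam) (h2 : 3 * z ∈ Lam) :
    z ∈ Lam := by
  have hc : Nat.Coprime N 3 := ((Nat.Prime.coprime_iff_not_dvd Nat.prime_three).mpr h3).symm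
  exact E5_mem hc h1 (by exact_mod_cast h2)

/-- If N z and lam z are in Lam and N is prime to 3 then z is in Lam. -/
theorem mem_of_lam {z : ℂ} {N : ℕ} (h3 : ¬ 3 ∣ N) (h1 : (N : ℂ) * z ∈ Lam) (h2 : e lam * z ∈ Lam) :
    z ∈ Lam := by
  refine mem_of_three h3 h1 ?_
  have h4 := mem_mul h2 (-(om ^ 2) * lam)
  have h5 : e (-(om ^ 2) * lam) * (e lam * z) = 3 * z := by
    have h6 := congrArg e three_lam
    rw [map_mul, map_ofNat] at h6
    rw [h6, map_mul, map_pow]
    ring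
  rwa [h5] at h4

theorem add_TT_not {z : ℂ} (hz : z ∉ Lam) {N : ℕ} (h3 : ¬ 3 ∣ N) (hN : (N : ℂ) * z ∈ Lam) :
    z + TT ∉ Lam := by
  intro h
  apply hz
  refine mem_of_lam h3 hN ?_
  have h1 := mem_sub (mem_mul h lam) (mem_three 1)
  have h2 : e lam * (z + TT) - 3 * e 1 = e lam * z := by
    rw [map_one]
    linear_combination TT_mul
  rwa [h2] at h1

theorem sub_TT_not {z : ℂ} (hz : z ∉ Lam) {N : ℕ} (h3 : ¬ 3 ∣ N) (hN : (N : ℂ) * z ∈ Lam) :
    z - TT ∉ Lam := by
  intro h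
  apply hz
  refine mem_of_lam h3 hN ?_
  have h1 := A1_add_mem (mem_mul h lam) (mem_three 1)
  have h2 : e lam * (z - TT) + 3 * e 1 = e lam * z := by
    rw [map_one]
    linear_combination -TT_mul
  rwa [h2] at h1

theorem sl_eq {z S : ℂ} (h : Filter.Tendsto (fun R : ℝ => sR R z) Filter.atTop (nhds S)) :
    sl z = S := h.limUnder_eq

theorem sl_per (z : ℂ) (y : O) : sl (z + 3 * e y) = sl z := by
  unfold sl
  simp only [sR_per]

theorem sl_TT : sl TT = 0 := by
  apply sl_eq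
  simp only [sR_TT]
  exact tendsto_const_nhds

theorem c1_per (z : ℂ) (y : O) : c1 (z + 3 * e y) = c1 z := by
  unfold c1
  rw [wp_per, A0_wpd_per]

theorem c2_per (z : ℂ) (y : O) : c2 (z + 3 * e y) = c2 z := by
  unfold c2
  rw [wp_per]

end H35N
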