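import Mathlib
import Pool.Agent.Lib.H35N.EA
import Pool.Agent.Lib.H55N.E6

open NumberField IsDedekindDomain

namespace H35N

open H55B H55N H19T

/-! Chunk E1 (S/M). Existence of the limits sl z at all torsion points z outside of Lam. Write N = 2^a k with k odd and prove by induction on a, for all z not in Lam with
2^a k z in Lam: there is S with sR R z -> S (then sl_eq and the limit is sl z; Tendsto with nhds (sl z)).
a = 0: s_exists (H55N.E6; 3 dividing k is allowed). Step a + 1: if 2 z in Lam then sR R z = sR R (-z + 2 z) = -sR R z (sR_per, sR_neg) so sR R z = 0. If 2 z not in Lam and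
3 z in Lam: s_exists with k = 3. Otherwise z, 2 z, 3 z not in Lam: by induction (applied to 2 z) sR R (2 z) converges, and sR R (2 z) - 2 sR R z converges by sR_double (H55N.E4). -/

theorem E1_ex (k : ℕ) (hk : Odd k) (a : ℕ) : ∀ z : ℂ, z ∉ Lam → ((2 ^ a * k : ℕ) : ℂ) * z ∈ Lam →
    ∃ S : ℂ, Filter.Tendsto (fun R : ℝ => sR R z) Filter.atTop (nhds S) := by
  induction a with
  | zero =>
    intro z hz h
    rw [pow_zero, one_mul] at h
    obtain ⟨S, hS, -⟩ := s_exists z hz k hk h
    exact ⟨S, hS⟩
  | succ a ih =>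
    intro z hz h
    by_cases h2 : 2 * z ∈ Lam
    · obtain ⟨y, hy⟩ := h2
      have h0 : ∀ R : ℝ, sR R z = 0 := by
        intro R
        have e1 : z = -z + 3 * e y := by rw [← hy]; ring
        have e2 : sR R z = -sR R z := by
          conv_lhs => rw [e1, sR_per, sR_neg]
        have e3 : 2 * sR R z = 0 := by linear_combination e2
        exact (mul_eq_zero.1 e3).resolve_left two_ne_zero
      refine ⟨0, ?_⟩
      simp only [h0]
      exact tendsto_const_nhds
    · by_cases h3 : 3 * z ∈ Lam
      · obtain ⟨S, hS, -⟩ := s_exists z hz 3 (by decide) (by exact_mod_cast h3)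
        exact ⟨S, hS⟩
      · have e1 : ((2 ^ a * k : ℕ) : ℂ) * (2 * z) = ((2 ^ (a + 1) * k : ℕ) : ℂ) * z := by
          push_cast
          ring
        obtain ⟨S, hS⟩ := ih (2 * z) h2 (by rw [e1]; exact h)
        have h4 := (hS.sub (sR_double z hz h2 h3)).div_const 2
        refine ⟨_, h4.congr fun R => ?_⟩
        ring

theorem sl_exists (z : ℂ) (hz : z ∉ Lam) (N : ℕ) (hN : N ≠ 0) (h : (N : ℂ) * z ∈ Lam) :
    Filter.Tendsto (fun R : ℝ => sR R z) Filter.atTop (nhds (sl z)) := by
  obtain ⟨a, k, hk, rfl⟩ := Nat.exists_eq_two_pow_mul_odd hN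
  obtain ⟨S, hS⟩ := E1_ex k hk a z hz h
  rw [sl_eq hS]
  exact hS

end H35N
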