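import Mathlib
import Pool.Agent.Lib.H35N.E1

open NumberField IsDedekindDomain

namespace H35N

open H55B H55N H19T

/-! Chunk E2 (S/M). Addition of the point TT. z + TT, z - TT are not in Lam (add_TT_not, sub_TT_not in EA), neither are z, TT.
T_formula (H55N.E1) and sR_diff (H55N.E3) with (a, w) = (z, TT): sR(z + T) + sR(z - T) - 2 sR(z) -> T1, T1 (wp z - wp T) = wpd z; with (a, w) = (T, z):
sR(T + z) + sR(T - z) - 2 sR(T) -> T2, T2 (wp T - wp z) = wpd T. wp T = 0, wpd T is not 0 (EA), sR(T) = 0 (sR_TT), sR(T - z) = -sR(z - T) (sR_neg). So wp z is not 0,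
T1 = wpd z / wp z, T2 = -wpd T / wp z, sR(z + T) - sR(z) -> (T1 + T2)/2, sR(z - T) - sR(z) -> (T1 - T2)/2. R0 c1 z = wpd z/(2 wp z), R0 c2 z = wpd T/(2 wp z) (R0 is not 0: E5_R0.2).
sR(z) -> sl z (sl_exists; N is not 0 as 3 does not divide N). -/

theorem wp_ne (z : ℂ) (hz : z ∉ Lam) (N : ℕ) (h3 : ¬ 3 ∣ N) (hN : (N : ℂ) * z ∈ Lam) :
    wp z ≠ 0 := by
  intro h0
  have h1 : TT + z ∉ Lam := by
    rw [add_comm]
    exact add_TT_not hz h3 hN
  have h2 : TT - z ∉ Lam := by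
    intro h
    apply sub_TT_not hz h3 hN
    have := A1_neg_mem h
    rwa [neg_sub] at this
  obtain ⟨T2, -, e2⟩ := T_formula TT z TT_not hz h1 h2
  rw [wp_TT, h0, sub_zero, mul_zero] at e2
  exact wpd_TT_ne e2.symm

theorem sl_add (z : ℂ) (hz : z ∉ Lam) (N : ℕ) (h3 : ¬ 3 ∣ N) (hN : (N : ℂ) * z ∈ Lam) :
    Filter.Tendsto (fun R : ℝ => sR R (z + TT)) Filter.atTop (nhds (sl z + R0 * c1 z - R0 * c2 z)) ∧
    Filter.Tendsto (fun R : ℝ => sR R (z - TT)) Filter.atTop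
      (nhds (sl z + R0 * c1 z + R0 * c2 z)) := by
  have hN0 : N ≠ 0 := by
    rintro rfl
    exact h3 (dvd_zero 3)
  have hw := wp_ne z hz N h3 hN
  have hR0 : R0 ≠ 0 := E5_R0.2
  have h1 : TT + z ∉ Lam := by
    rw [add_comm]
    exact add_TT_not hz h3 hN
  have h2 : TT - z ∉ Lam := by
    intro h
    apply sub_TT_not hz h3 hN
    have := A1_neg_mem h
    rwa [neg_sub] at this
  obtain ⟨T1, hT1, e1⟩ := T_formula z TT hz TT_not (add_TT_not hz h3 hN) (sub_TT_not hz h3 hN)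
  obtain ⟨T2, hT2, e2⟩ := T_formula TT z TT_not hz h1 h2
  have t1 := sR_diff z TT T1 hz TT_not (add_TT_not hz h3 hN) (sub_TT_not hz h3 hN) hT1
  have t2 := sR_diff TT z T2 TT_not hz h1 h2 hT2
  rw [wp_TT, sub_zero] at e1
  rw [wp_TT, zero_sub] at e2
  have g1 : R0 * c1 z = T1 / 2 := by
    unfold c1
    rw [← e1]
    field_simp
  have g2 : R0 * c2 z = -T2 / 2 := by
    unfold c2
    rw [← e2]
    field_simp
  have t0 := sl_exists z hz N hN0 hN
  rw [g1, g2]
  constructor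
  · have t3 := (t0.add (t1.div_const 2)).add (t2.div_const 2)
    have e3 : sl z + T1 / 2 + T2 / 2 = sl z + T1 / 2 - -T2 / 2 := by ring
    rw [e3] at t3
    refine t3.congr fun R => ?_
    have e4 : TT - z = -(z - TT) := by ring
    rw [e4, sR_neg, sR_TT, add_comm TT z]
    ring
  · have t3 := (t0.add (t1.div_const 2)).sub (t2.div_const 2)
    have e3 : sl z + T1 / 2 - T2 / 2 = sl z + T1 / 2 + -T2 / 2 := by ring
    rw [e3] at t3
    refine t3.congr fun R => ?_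
    have e4 : TT - z = -(z - TT) := by ring
    rw [e4, sR_neg, sR_TT, add_comm TT z]
    ring

end H35N
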