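import Mathlib
import Pool.Agent.Lib.H35N.E2

open NumberField IsDedekindDomain

namespace H35N

open H55B H55N H19T

/-! Chunk E3 (M). Multiplication by lam. O is the disjoint union of t + lam O, t in {0, 1, -1} (O/lam has three elements; x = a + b om is congruent to a + b modulo lam; 3 = 0 mod lam).
With x = t + lam y: e lam z + 3 e x = e lam (z + t TT + 3 e y). |e lam|^2 = 3. So for R > 0 (absolute summability: sR_summable in H55N.E3, or E1_sR_summable)
sR (sqrt 3 R) (e lam z) = (e lam)^(-1) (sR R z + sR R (z + TT) + sR R (z - TT)) exactly: the cutoff (sqrt 3 R)^2/((sqrt 3 R)^2 + |e lam w|^2) = R^2/(R^2 + |w|^2). -/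

theorem E3_three : lam ∣ (3 : O) := ⟨-(om ^ 2) * lam, by rw [three_lam]; ring⟩

theorem E3_cases (y : O) : lam ∣ y ∨ lam ∣ y - 1 ∨ lam ∣ y + 1 := by
  obtain ⟨a, b, rfl⟩ := exists_repr y
  have h0 : lam ∣ (a : O) + b * om - ((a + b : ℤ) : O) := ⟨b, by unfold lam; push_cast; ring⟩
  obtain ⟨c, hc⟩ := h0
  obtain ⟨d, hd⟩ := E3_three
  have h1 : (a + b) % 3 = 0 ∨ (a + b) % 3 = 1 ∨ (a + b) % 3 = 2 := by omega
  have h2 : ((a + b : ℤ) : O) = 3 * (((a + b) / 3 : ℤ) : O) + (((a + b) % 3 : ℤ) : O) := by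
    have h3 := Int.mul_ediv_add_emod (a + b) 3
    have h4 : ((3 * ((a + b) / 3) + (a + b) % 3 : ℤ) : O) = ((a + b : ℤ) : O) := by rw [h3]
    rw [← h4]
    push_cast
    ring
  rcases h1 with h1 | h1 | h1
  · left
    rw [h1] at h2
    refine ⟨c + d * (((a + b) / 3 : ℤ) : O), ?_⟩
    push_cast at h2 hc ⊢
    linear_combination hc + h2 + (((a + b) / 3 : ℤ) : O) * hd
  · right; left
    rw [h1] at h2
    refine ⟨c + d * (((a + b) / 3 : ℤ) : O), ?_⟩
    push_cast at h2 hc ⊢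
    linear_combination hc + h2 + (((a + b) / 3 : ℤ) : O) * hd
  · right; right
    rw [h1] at h2
    refine ⟨c + d * (((a + b) / 3 : ℤ) : O) + d, ?_⟩
    push_cast at h2 hc ⊢
    linear_combination hc + h2 + (((a + b) / 3 : ℤ) : O) * hd + hd

theorem E3_not_one : ¬ lam ∣ (1 : O) := fun h => lam_prime'.not_isUnit (isUnit_of_dvd_one h)

theorem E3_not_two : ¬ lam ∣ (2 : O) := by
  intro h
  apply E3_not_one
  have h2 : (1 : O) = 3 - 2 := by norm_num
  rw [h2]
  exact dvd_sub E3_three h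

/-- the representatives modulo lam -/
noncomputable def E3_t : Fin 3 → O := ![0, 1, -1]

theorem E3_t_inj {i j : Fin 3} (h : lam ∣ E3_t i - E3_t j) : i = j := by
  have n1 : ¬ lam ∣ (-1 : O) := fun h => E3_not_one ((dvd_neg).1 h)
  have n2 : ¬ lam ∣ (-2 : O) := fun h => E3_not_two ((dvd_neg).1 h)
  have e0 : E3_t 0 = 0 := rfl
  have e1 : E3_t 1 = 1 := rfl
  have e2 : E3_t 2 = -1 := rfl
  fin_cases i <;> fin_cases j
  · rfl
  · exfalso
    apply n1
    have : E3_t 0 - E3_t 1 = -1 := by rw [e0, e1]; ring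
    rw [← this]; exact h
  · exfalso
    apply E3_not_one
    have : E3_t 0 - E3_t 2 = 1 := by rw [e0, e2]; ring
    rw [← this]; exact h
  · exfalso
    apply E3_not_one
    have : E3_t 1 - E3_t 0 = 1 := by rw [e0, e1]; ring
    rw [← this]; exact h
  · rfl
  · exfalso
    apply E3_not_two
    have : E3_t 1 - E3_t 2 = 2 := by rw [e2, e1]; ring
    rw [← this]; exact h
  · exfalso
    apply n1
    have : E3_t 2 - E3_t 0 = -1 := by rw [e0, e2]; ring
    rw [← this]; exact h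
  · exfalso
    apply n2
    have : E3_t 2 - E3_t 1 = -2 := by rw [e2, e1]; ring
    rw [← this]; exact h
  · rfl

theorem E3_bij : Function.Bijective fun q : Fin 3 × O => E3_t q.1 + lam * q.2 := by
  constructor
  · rintro ⟨i, a⟩ ⟨j, b⟩ h
    simp only at h
    have h1 : i = j := E3_t_inj ⟨b - a, by linear_combination h⟩
    subst h1
    have h2 : lam * a = lam * b := by linear_combination h
    rw [mul_left_cancel₀ lam_prime'.ne_zero h2]
  · intro x
    rcases E3_cases x with ⟨y, hy⟩ | ⟨y, hy⟩ | ⟨y, hy⟩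
    · exact ⟨(0, y), by rw [hy]; exact zero_add _⟩
    · refine ⟨(1, y), ?_⟩
      show (1 : O) + lam * y = x
      rw [← hy]; ring
    · refine ⟨(2, y), ?_⟩
      show (-1 : O) + lam * y = x
      rw [← hy]; ring

theorem E3_norm : ‖e lam‖ ^ 2 = 3 := by
  have h1 : ‖e om‖ ^ 3 = 1 := by rw [← norm_pow, A0_om_cube, NormOneClass.norm_one]
  have h2 : ‖e om‖ = 1 := (pow_eq_one_iff_of_nonneg (norm_nonneg _) (by norm_num)).1 h1
  have h3 := congrArg (fun x => ‖e x‖) three_lam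
  simp only [map_mul, map_neg, map_pow, map_ofNat, norm_mul, norm_neg, norm_pow, h2] at h3
  have h4 : ‖(3 : ℂ)‖ = 3 := by simp
  rw [h4] at h3
  rw [h3]
  ring

theorem E3_term (R : ℝ) (z : ℂ) (t y : O) :
    (e lam * z + 3 * e (t + lam * y))⁻¹ * (((Real.sqrt 3 * R) ^ 2 / ((Real.sqrt 3 * R) ^ 2 +
      ‖e lam * z + 3 * e (t + lam * y)‖ ^ 2) : ℝ) : ℂ) =
    (e lam)⁻¹ * ((z + e t * TT + 3 * e y)⁻¹ * ((R ^ 2 / (R ^ 2 +
      ‖z + e t * TT + 3 * e y‖ ^ 2) : ℝ) : ℂ)) := by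
  have h1 : e lam * z + 3 * e (t + lam * y) = e lam * (z + e t * TT + 3 * e y) := by
    rw [map_add, map_mul]
    linear_combination (-e t) * TT_mul
  rw [h1, norm_mul, mul_pow, mul_pow, E3_norm, Real.sq_sqrt (by norm_num : (0 : ℝ) ≤ 3), ← mul_add,
    mul_div_mul_left _ _ (by norm_num : (3 : ℝ) ≠ 0), mul_inv]
  ring

theorem sR_lam (R : ℝ) (hR : 0 < R) (z : ℂ) :
    e lam * sR (Real.sqrt 3 * R) (e lam * z) = sR R z + sR R (z + TT) + sR R (z - TT) := by
  have hR3 : 0 < Real.sqrt 3 * R := by positivity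
  have hs := E1_sR_summable (Real.sqrt 3 * R) hR3 (e lam * z)
  let E : Fin 3 × O ≃ O := Equiv.ofBijective _ E3_bij
  have h1 : sR (Real.sqrt 3 * R) (e lam * z) = ∑' q : Fin 3 × O, (e lam)⁻¹ *
      ((z + e (E3_t q.1) * TT + 3 * e q.2)⁻¹ * ((R ^ 2 / (R ^ 2 +
      ‖z + e (E3_t q.1) * TT + 3 * e q.2‖ ^ 2) : ℝ) : ℂ)) := by
    unfold sR
    rw [← E.tsum_eq]
    refine tsum_congr fun q => ?_
    exact E3_term R z (E3_t q.1) q.2
  have hs2 : Summable fun q : Fin 3 × O => (e lam)⁻¹ *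
      ((z + e (E3_t q.1) * TT + 3 * e q.2)⁻¹ * ((R ^ 2 / (R ^ 2 +
      ‖z + e (E3_t q.1) * TT + 3 * e q.2‖ ^ 2) : ℝ) : ℂ)) := by
    refine ((E.summable_iff).2 hs).congr fun q => ?_
    exact (E3_term R z (E3_t q.1) q.2)
  rw [h1, hs2.tsum_prod, tsum_fintype, Fin.sum_univ_three]
  have e0 : z + e (E3_t 0) * TT = z := by
    have : E3_t 0 = 0 := rfl
    rw [this, map_zero]; ring
  have e1 : z + e (E3_t 1) * TT = z + TT := by
    have : E3_t 1 = 1 := rfl
    rw [this, map_one]; ring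
  have e2 : z + e (E3_t 2) * TT = z - TT := by
    have : E3_t 2 = -1 := rfl
    rw [this, map_neg, map_one]; ring
  simp only [e0, e1, e2]
  rw [tsum_mul_left, tsum_mul_left, tsum_mul_left, ← mul_add, ← mul_add, ← mul_assoc,
    mul_inv_cancel₀ e_lam_ne, one_mul]
  rfl

/-! Let R tend to infinity: lam z is not in Lam (mem_of_lam), N lam z in Lam, so sR (sqrt 3 R) (e lam z) -> sl (e lam z) (sl_exists composed with R -> sqrt 3 R), and sl_add. -/

theorem sl_lam (z : ℂ) (hz : z ∉ Lam) (N : ℕ) (h3 : ¬ 3 ∣ N) (hN : (N : ℂ) * z ∈ Lam) :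
    e lam * sl (e lam * z) = 3 * sl z + 2 * R0 * c1 z := by
  have hN0 : N ≠ 0 := by
    rintro rfl
    exact h3 (dvd_zero 3)
  have hz' : e lam * z ∉ Lam := fun h => hz (mem_of_lam h3 hN h)
  have hN' : (N : ℂ) * (e lam * z) ∈ Lam := by
    have := mem_mul hN lam
    have e1 : e lam * ((N : ℂ) * z) = (N : ℂ) * (e lam * z) := by ring
    rwa [e1] at this
  have t1 := sl_exists (e lam * z) hz' N hN0 hN'
  have t2 : Filter.Tendsto (fun R : ℝ => Real.sqrt 3 * R) Filter.atTop Filter.atTop :=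
    Filter.tendsto_id.const_mul_atTop (by positivity)
  have t3 := (t1.comp t2).const_mul (e lam)
  obtain ⟨t4, t5⟩ := sl_add z hz N h3 hN
  have t6 := ((sl_exists z hz N hN0 hN).add t4).add t5
  have t7 : Filter.Tendsto (fun R : ℝ => sR R z + sR R (z + TT) + sR R (z - TT)) Filter.atTop
      (nhds (e lam * sl (e lam * z))) := by
    refine t3.congr' ?_
    filter_upwards [Filter.eventually_gt_atTop 0] with R hR
    exact sR_lam R hR z
  rw [tendsto_nhds_unique t7 t6]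
  ring

end H35N
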