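import Mathlib
import Pool.Agent.Lib.H35N.EA
import Pool.Agent.Lib.H35T.L2

open NumberField IsDedekindDomain

namespace H35N

open H55B H55N H19T

/-! Chunk E4 (S/M). A periodic function attains its maximum on the nonzero N-torsion points. Every z with N z in Lam is z = 3 e y / N for some y in O, and h z depends only on
y modulo N (h periodic), O/N is finite: the set of values of h on {z : N z in Lam} is finite (Set.Finite.exists_maximal_wrt, Finset.exists_max_image ..). -/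

/-- the N-torsion point attached to a class modulo N -/
noncomputable def E4_pt (N : ℕ) (c : O ⧸ Ideal.span {(N : O)}) : ℂ :=
  3 * e (Quotient.out c) / N

theorem E4_rep (N : ℕ) (hN : N ≠ 0) (y : O) : ∃ t : O,
    E4_pt N (Ideal.Quotient.mk (Ideal.span {(N : O)}) y) = 3 * e y / N + 3 * e t := by
  have hN' : (N : ℂ) ≠ 0 := by exact_mod_cast hN
  obtain ⟨t, ht⟩ : ∃ t, (Ideal.Quotient.mk (Ideal.span {(N : O)}) y).out = y + (N : O) * t := by
    have h1 : Ideal.Quotient.mk (Ideal.span {(N : O)})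
        (Ideal.Quotient.mk (Ideal.span {(N : O)}) y).out
        = Ideal.Quotient.mk (Ideal.span {(N : O)}) y := Quotient.out_eq _
    rw [Ideal.Quotient.mk_eq_mk_iff_sub_mem, Ideal.mem_span_singleton] at h1
    obtain ⟨t, ht⟩ := h1
    exact ⟨t, by linear_combination ht⟩
  refine ⟨t, ?_⟩
  unfold E4_pt
  have h2 : (Quotient.out (Ideal.Quotient.mk (Ideal.span {(N : O)}) y) : O) =
      (Ideal.Quotient.mk (Ideal.span {(N : O)}) y).out := rfl
  rw [h2, ht, map_add, map_mul, map_natCast]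
  field_simp

theorem E4_mem_add {z : ℂ} (t : O) : z + 3 * e t ∈ Lam ↔ z ∈ Lam := by
  constructor
  · intro h
    have := mem_sub h (mem_three t)
    rwa [add_sub_cancel_right] at this
  · intro h
    exact A1_add_mem h (mem_three t)

theorem E4_fin (N : ℕ) (hN : N ≠ 0) : Finite (O ⧸ Ideal.span {(N : O)}) :=
  Ring.HasFiniteQuotients.finiteQuotient (by
    rw [Ne, Ideal.span_singleton_eq_bot]
    exact_mod_cast hN)

theorem E4_pt_mul (N : ℕ) (hN : N ≠ 0) (c : O ⧸ Ideal.span {(N : O)}) :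
    (N : ℂ) * E4_pt N c ∈ Lam := by
  have hN' : (N : ℂ) ≠ 0 := by exact_mod_cast hN
  refine ⟨Quotient.out c, ?_⟩
  unfold E4_pt
  field_simp

theorem E4_of (N : ℕ) (hN : N ≠ 0) {z : ℂ} (hz : (N : ℂ) * z ∈ Lam) :
    ∃ (c : O ⧸ Ideal.span {(N : O)}) (t : O), E4_pt N c = z + 3 * e t := by
  have hN' : (N : ℂ) ≠ 0 := by exact_mod_cast hN
  obtain ⟨y, hy⟩ := hz
  obtain ⟨t, ht⟩ := E4_rep N hN y
  refine ⟨Ideal.Quotient.mk (Ideal.span {(N : O)}) y, t, ?_⟩
  rw [ht, ← hy, mul_div_cancel_left₀ _ hN']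

theorem max_pt {Γ : Type*} [LinearOrder Γ] (N : ℕ) (hN : N ≠ 0) (h : ℂ → Γ)
    (hp : ∀ (z : ℂ) (y : O), h (z + 3 * e y) = h z) (hne : ∃ z, z ∉ Lam ∧ (N : ℂ) * z ∈ Lam) :
    ∃ z₀, z₀ ∉ Lam ∧ (N : ℂ) * z₀ ∈ Lam ∧ ∀ z, z ∉ Lam → (N : ℂ) * z ∈ Lam → h z ≤ h z₀ := by
  have hfin := E4_fin N hN
  let κ := {c : O ⧸ Ideal.span {(N : O)} // E4_pt N c ∉ Lam}
  have hκ : Nonempty κ := by
    obtain ⟨z, hz, hz2⟩ := hne
    obtain ⟨c, t, hc⟩ := E4_of N hN hz2
    refine ⟨⟨c, ?_⟩⟩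
    rw [hc, E4_mem_add]
    exact hz
  obtain ⟨c₀, hc₀⟩ := Finite.exists_max (fun c : κ => h (E4_pt N c.1))
  refine ⟨E4_pt N c₀.1, c₀.2, E4_pt_mul N hN _, fun z hz hz2 => ?_⟩
  obtain ⟨c, t, hc⟩ := E4_of N hN hz2
  have h1 := hc₀ ⟨c, by rw [hc, E4_mem_add]; exact hz⟩
  simp only [hc, hp] at h1
  exact h1

/-! The dynamics (compare H35T.L9_near). κ = the nonzero classes of O/N (subtype of O/(N), finite), x_c = H35T.xw (3 e y/N), y = Quotient.out c, f = multiplication by sq3 (sq3 y is not divisible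
by N: otherwise 3 y = -sq3^2 y is, and 3 is invertible modulo N). By H35T.xw_sq3: 3 x^2 x' = 1 - x^3 (w = 3 e y/N is not in Lam, sq3 w is not in Lam: sq3 = -om lam (sq3_lam in I0),
mem_of_lam in EA). H35T.xw_per: independence of the representative. Apply H35T.dyn3 with v = V.valuation. z = 3 e y/N with N z in Lam, z not in Lam. -/

theorem X_near (V : ValuationSubring ℂ) (hV : V.valuation 3 < 1) (z : ℂ) (hz : z ∉ Lam) (N : ℕ)
    (h3 : ¬ 3 ∣ N) (hN : (N : ℂ) * z ∈ Lam) :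
    V.valuation (4 * H35T.xw z ^ 3 - 1) ^ 2 ≤ V.valuation 27 := by
  have hN0 : N ≠ 0 := by
    rintro rfl
    exact h3 (dvd_zero 3)
  have hfin := E4_fin N hN0
  have hsq : ∀ w : ℂ, w ∉ Lam → (N : ℂ) * w ∈ Lam → e H35T.sq3 * w ∉ Lam := by
    intro w hw hNw h
    apply hw
    refine mem_of_lam h3 hNw ?_
    have h4 := mem_mul h (-(om ^ 2))
    have h5 : e (-(om ^ 2)) * (e H35T.sq3 * w) = e lam * w := by
      rw [sq3_lam, map_neg, map_mul, map_neg, map_pow]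
      have h6 := A0_om_cube
      linear_combination (e lam * w) * h6
    rwa [h5] at h4
  have hpt : ∀ y : O, ∃ t : O, E4_pt N (Ideal.Quotient.mk (Ideal.span {(N : O)}) y) =
      3 * e y / N + 3 * e t := E4_rep N hN0
  let κ := {c : O ⧸ Ideal.span {(N : O)} // E4_pt N c ∉ Lam}
  have hstep : ∀ c : O ⧸ Ideal.span {(N : O)}, ∃ t : O,
      E4_pt N (Ideal.Quotient.mk (Ideal.span {(N : O)}) (H35T.sq3 * Quotient.out c)) =
      e H35T.sq3 * E4_pt N c + 3 * e t := by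
    intro c
    obtain ⟨t, ht⟩ := hpt (H35T.sq3 * Quotient.out c)
    refine ⟨t, ?_⟩
    rw [ht, map_mul]
    unfold E4_pt
    ring
  have h1 := H35T.dyn3 V.valuation hV (κ := κ) (fun c => H35T.xw (E4_pt N c.1))
    (fun c => ⟨Ideal.Quotient.mk _ (H35T.sq3 * Quotient.out c.1), by
      obtain ⟨t, ht⟩ := hstep c.1
      rw [ht, E4_mem_add]
      exact hsq _ c.2 (E4_pt_mul N hN0 _)⟩)
    (fun c => by
      obtain ⟨t, ht⟩ := hstep c.1
      simp only
      rw [ht, H35T.xw_per]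
      exact H35T.xw_sq3 _ c.2 (hsq _ c.2 (E4_pt_mul N hN0 _)))
  obtain ⟨c, t, hc⟩ := E4_of N hN0 hN
  have h2 := h1 ⟨c, by rw [hc, E4_mem_add]; exact hz⟩
  simp only [hc, H35T.xw_per] at h2
  exact h2

end H35N
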