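import Mathlib
import Pool.Agent.Lib.H35N.E4

open NumberField IsDedekindDomain

namespace H35N

open H55B H55N H19T

/-! Chunk E5 (M). Put x = H35T.xw z = wp z / wp 1, so wp z = x R0^2/3 (E5_R0 in H55N.E5: R0^2 = 3 wp 1, R0 not 0) and wpd z^2 = 4 wp z^3 - wp 1^3 = (4 x^3 - 1) R0^6/27 (wp_ode, A3_g3). For V
above 3: V(x) = 1 (X_near and H35T.near with any r, 4 r^3 = 1, which exists: C is algebraically closed, see H35T.L9_root), V(2) = 1 (H35T.val_nat).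
c1_int: c1 z = wpd z/(2 wp z R0); (c1 z)^2 = (4 x^3 - 1) R0^6/27 / (4 x^2 R0^4/9 R0^2) = (4 x^3 - 1)/(12 x^2), so (c1 z)^4 = (4 x^3 - 1)^2/(144 x^4), V((c1 z)^4) <= V(27)/V(9) = V(3)
(V(144) = V(9)), and V(q)^4 = V(3). So V(c1 z / q)^4 <= 1. -/

theorem E5_c1_sq (z : ℂ) (hz : z ∉ Lam) (hx : H35T.xw z ≠ 0) :
    12 * H35T.xw z ^ 2 * c1 z ^ 2 = 4 * H35T.xw z ^ 3 - 1 := by
  have hW := A3_wp_one_ne
  obtain ⟨hR, hR0⟩ := E5_R0
  have hode := wp_ode z hz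
  rw [A3_g3] at hode
  have hwx : wp z = H35T.xw z * wp 1 := by
    unfold H35T.xw
    rw [div_mul_cancel₀ _ hW]
  have hwz : wp z ≠ 0 := by
    rw [hwx]
    exact mul_ne_zero hx hW
  have h1 : c1 z * (2 * wp z * R0) = wpd z := by
    unfold c1
    rw [div_mul_cancel₀ _ (mul_ne_zero (mul_ne_zero two_ne_zero hwz) hR0)]
  have h2 : wp 1 ^ 3 * (12 * H35T.xw z ^ 2 * c1 z ^ 2) = wp 1 ^ 3 * (4 * H35T.xw z ^ 3 - 1) := by
    have h3 : (c1 z * (2 * wp z * R0)) ^ 2 = 4 * wp z ^ 3 - wp 1 ^ 3 := by rw [h1, hode]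
    rw [hwx] at h3
    linear_combination h3 - 4 * c1 z ^ 2 * H35T.xw z ^ 2 * wp 1 ^ 2 * hR
  exact mul_left_cancel₀ (pow_ne_zero 3 hW) h2

theorem c1_int (q : ℂ) (hq : q ^ 4 = 3) (z : ℂ) (hz : z ∉ Lam) (N : ℕ) (h3 : ¬ 3 ∣ N)
    (hN : (N : ℂ) * z ∈ Lam) : Int3 (c1 z / q) := by
  intro V hV
  obtain ⟨r, hr⟩ : ∃ r : ℂ, 4 * r ^ 3 = 1 := by
    obtain ⟨r, hr⟩ := IsAlgClosed.exists_pow_nat_eq (1 / 4 : ℂ) (n := 3) (by norm_num)
    exact ⟨r, by rw [hr]; norm_num⟩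
  have hX := X_near V hV z hz N h3 hN
  obtain ⟨hx1, -, -⟩ := H35T.near V.valuation hV _ r hX hr
  have hx0 : H35T.xw z ≠ 0 := by
    intro h
    rw [h, map_zero] at hx1
    exact zero_ne_one hx1
  have h12 : V.valuation 12 = V.valuation 3 := by
    have h4 : V.valuation ((4 : ℕ) : ℂ) = 1 := H35T.val_nat V hV 4 (by norm_num)
    have h5 : (12 : ℂ) = ((4 : ℕ) : ℂ) * 3 := by norm_num
    rw [h5, map_mul, h4, one_mul]
  have h27 : V.valuation 27 = V.valuation 3 ^ 2 * V.valuation 3 := by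
    rw [← map_pow, ← map_mul]
    norm_num
  have hv3 : V.valuation 3 ≠ 0 := by
    rw [Valuation.ne_zero_iff]
    norm_num
  have hpos : 0 < V.valuation 3 ^ 2 := by
    rw [zero_lt_iff]
    exact pow_ne_zero 2 hv3
  rw [← E5_c1_sq z hz hx0, map_mul, map_mul, map_pow, hx1, one_pow, mul_one, h12, map_pow, mul_pow,
    h27] at hX
  have h6 : (V.valuation (c1 z) ^ 2) ^ 2 ≤ V.valuation 3 := by
    by_contra hcon
    push Not at hcon
    exact absurd hX (not_le.2 (mul_lt_mul_of_pos_left hcon hpos))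
  rw [← pow_mul, ← hq, map_pow] at h6
  have h7 : V.valuation (c1 z) ≤ V.valuation q := by
    by_contra hcon
    push Not at hcon
    exact absurd h6 (not_le.2 (pow_lt_pow_left₀ hcon zero_le (by norm_num)))
  have hq0 : V.valuation q ≠ 0 := by
    rw [Valuation.ne_zero_iff]
    rintro rfl
    norm_num at hq
  rw [map_div₀]
  exact (div_le_one₀ (zero_lt_iff.2 hq0)).2 h7

/-! c2_int: c2 z = wpd T/(2 wp z R0) = 3 wpd T/(2 x R0^3), so c2 z - c0 r = (3 wpd T/(2 R0^3)) (1/x - 1/r), and (3 wpd T/(2 R0^3))^2 = 9 (-wp 1^3)/(4 R0^6) = -9/(4 27) = -1/12 (wpd_TT_sq), whose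
valuation is V(3)^(-1) = V(e sq3)^(-2) (H35T.e_sq3: e sq3^2 = -3). V(1/x - 1/r) <= V(e sq3) by X_near and H35T.inv_near. -/

theorem c2_int (r : ℂ) (hr : 4 * r ^ 3 = 1) (z : ℂ) (hz : z ∉ Lam) (N : ℕ) (h3 : ¬ 3 ∣ N)
    (hN : (N : ℂ) * z ∈ Lam) : Int3 (c2 z - c0 r) := by
  intro V hV
  have hX := X_near V hV z hz N h3 hN
  obtain ⟨hx1, hr1, -⟩ := H35T.near V.valuation hV _ r hX hr
  have hinv := H35T.inv_near V.valuation hV _ r hX hr
  have hx0 : H35T.xw z ≠ 0 := by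
    intro h
    rw [h, map_zero] at hx1
    exact zero_ne_one hx1
  have hr0 : r ≠ 0 := by
    rintro rfl
    rw [map_zero] at hr1
    exact zero_ne_one hr1
  have hW := A3_wp_one_ne
  obtain ⟨hR, hR0⟩ := E5_R0
  have hwx : wp z = H35T.xw z * wp 1 := by
    unfold H35T.xw
    rw [div_mul_cancel₀ _ hW]
  have hW3 : wp 1 = R0 ^ 2 / 3 := by rw [hR]; ring
  have h1 : c2 z - c0 r = 3 * wpd TT / (2 * R0 ^ 3) * (1 / H35T.xw z - 1 / r) := by
    unfold c2 c0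
    rw [hwx, hW3]
    field_simp
  have h2 : (3 * wpd TT / (2 * R0 ^ 3) * e H35T.sq3) ^ 2 = 1 / 4 := by
    have h4 : (R0 ^ 3) ^ 2 = 27 * wp 1 ^ 3 := by
      have h5 : (R0 ^ 3) ^ 2 = (R0 ^ 2) ^ 3 := by ring
      rw [h5, hR]
      ring
    rw [mul_pow, H35T.e_sq3, div_pow, mul_pow, mul_pow, wpd_TT_sq, h4]
    have hW' : wp 1 ^ 3 ≠ 0 := pow_ne_zero 3 hW
    field_simp
    norm_num
  have h6 : V.valuation (3 * wpd TT / (2 * R0 ^ 3)) * V.valuation (e H35T.sq3) ≤ 1 := by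
    rw [← map_mul]
    by_contra hcon
    push Not at hcon
    have h7 : 1 < V.valuation (3 * wpd TT / (2 * R0 ^ 3) * e H35T.sq3) ^ 2 :=
      one_lt_pow₀ hcon (by norm_num)
    rw [← map_pow, h2] at h7
    have h4 : V.valuation ((4 : ℕ) : ℂ) = 1 := H35T.val_nat V hV 4 (by norm_num)
    have h8 : (1 / 4 : ℂ) = 1 / ((4 : ℕ) : ℂ) := by norm_num
    rw [h8, map_div₀, h4, map_one, div_one] at h7
    exact lt_irrefl _ h7
  rw [h1, map_mul]
  exact (mul_le_mul_right hinv _).trans h6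

end H35N
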