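import Mathlib
import Pool.Agent.Lib.H35N.E3
import Pool.Agent.Lib.H35N.E5

open NumberField IsDedekindDomain

namespace H35N

open H55B H55N H19T

/-! Chunk E6 (M). Let V be above 3, h(w) = V(sl w / R0) (periodic: sl_per), z₀ a point where h is maximal among the w not in Lam with N w in Lam (max_pt; N is not 0). There is such a w with
z₀ = e lam w mod Lam: with 3 a + N b = 1 (integers), 3 = -om^2 lam^2, put w = e(-om^2 lam a) z₀, so e lam w = 3 a z₀ = z₀ - b N z₀. By sl_lam at w, divided by lam R0: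
sl(lam w)/R0 = (3/lam) (sl w/R0) + (2/lam) c1 w, so h(z₀) <= max(V(3/lam) h(w), V(2 c1 w / lam)). V(3/lam) = V(lam) < 1 (3 = -om^2 lam^2; V(om) = 1), h(w) <= h(z₀). If h(z₀) is not 0
then V(lam) h(w) < h(z₀), so h(z₀) <= V(c1 w)/V(lam) <= V(q)/V(lam) (c1_int), and V(lam)^2 = V(3) = V(q)^4, so V(lam) = V(q)^2 and h(z₀) <= V(q)^(-1). (If h(z₀) = 0 the claim is trivial.)
So V(q (sl z/R0)) <= V(q) h(z₀) <= 1. -/

theorem sl_int (q : ℂ) (hq : q ^ 4 = 3) (z : ℂ) (hz : z ∉ Lam) (N : ℕ) (h3 : ¬ 3 ∣ N)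
    (hN : (N : ℂ) * z ∈ Lam) : Int3 (q * (sl z / R0)) := by
  intro V hV
  have hN0 : N ≠ 0 := by
    rintro rfl
    exact h3 (dvd_zero 3)
  have hR0 : R0 ≠ 0 := E5_R0.2
  obtain ⟨z₀, hz₀, hNz₀, hmax⟩ := max_pt N hN0 (fun w => V.valuation (sl w / R0))
    (fun w y => by rw [sl_per]) ⟨z, hz, hN⟩
  obtain ⟨a, b, hab⟩ : ∃ a b : ℤ, (a : ℂ) * 3 + b * N = 1 := by
    have hc : IsCoprime (3 : ℤ) (N : ℤ) := by
      have h2 : Nat.Coprime 3 N := (Nat.Prime.coprime_iff_not_dvd Nat.prime_three).mpr h3
      exact_mod_cast Nat.isCoprime_iff_coprime.mpr h2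
    obtain ⟨a, b, hab⟩ := hc
    refine ⟨a, b, ?_⟩
    exact_mod_cast hab
  have h3e : (3 : ℂ) = -(e om ^ 2) * e lam ^ 2 := by
    have h := congrArg e three_lam
    rwa [map_mul, map_neg, map_pow, map_pow, map_ofNat] at h
  set w : ℂ := e (-(om ^ 2) * lam * (a : O)) * z₀ with hw
  obtain ⟨y, hy⟩ := mem_mul hNz₀ (-(b : O))
  have hlw : e lam * w = z₀ + 3 * e y := by
    rw [← hy, hw, map_mul, map_mul, map_neg, map_pow, map_neg, map_intCast, map_intCast]
    linear_combination (-(a : ℂ) * z₀) * h3e + z₀ * hab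
  have hwL : w ∉ Lam := by
    intro h
    apply hz₀
    have h1 := mem_sub (mem_mul h lam) (mem_three y)
    rwa [hlw, add_sub_cancel_right] at h1
  have hNw : (N : ℂ) * w ∈ Lam := by
    have h1 := mem_mul hNz₀ (-(om ^ 2) * lam * (a : O))
    have h2 : e (-(om ^ 2) * lam * (a : O)) * ((N : ℂ) * z₀) = (N : ℂ) * w := by
      rw [hw]
      ring
    rwa [h2] at h1
  have hsl := sl_lam w hwL N h3 hNw
  rw [hlw, sl_per] at hsl
  have hlam := e_lam_ne
  have heq : sl z₀ / R0 = 3 / e lam * (sl w / R0) + 2 / e lam * c1 w := by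
    field_simp
    linear_combination hsl
  have hc1 := c1_int q hq w hwL N h3 hNw V hV
  have hq0 : V.valuation q ≠ 0 := by
    rw [Valuation.ne_zero_iff]
    rintro rfl
    norm_num at hq
  rw [map_div₀, div_le_one₀ (zero_lt_iff.2 hq0)] at hc1
  have hvlam : V.valuation (e lam) ^ 2 = V.valuation 3 := by
    have h1 := congrArg V.valuation h3e
    rw [map_mul, Valuation.map_neg, map_pow, map_pow, unit3_om V hV, one_pow, one_mul] at h1
    exact h1.symm
  have hlam0 : V.valuation (e lam) ≠ 0 := (Valuation.ne_zero_iff _).2 hlam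
  have hlam1 : V.valuation (e lam) < 1 := by
    by_contra hcon
    push Not at hcon
    have h1 : 1 ≤ V.valuation (e lam) ^ 2 := one_le_pow₀ hcon
    rw [hvlam] at h1
    exact absurd hV (not_lt.2 h1)
  have hvq : V.valuation q ^ 2 = V.valuation (e lam) := by
    have h1 : (V.valuation q ^ 2) ^ 2 = V.valuation (e lam) ^ 2 := by
      rw [hvlam, ← pow_mul, ← map_pow, hq]
    exact (pow_left_inj₀ zero_le zero_le two_ne_zero).1 h1
  have h2v : V.valuation 2 = 1 := by
    have h4 : V.valuation ((2 : ℕ) : ℂ) = 1 := H35T.val_nat V hV 2 (by norm_num)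
    have h5 : (2 : ℂ) = ((2 : ℕ) : ℂ) := by norm_num
    rw [h5, h4]
  have h3v : V.valuation (3 / e lam) = V.valuation (e lam) := by
    rw [map_div₀, ← hvlam, pow_two, mul_div_assoc, div_self hlam0, mul_one]
  have key : V.valuation q * V.valuation (sl z₀ / R0) ≤ 1 := by
    by_contra hcon
    push Not at hcon
    have hpos : 0 < V.valuation (sl z₀ / R0) := by
      rw [zero_lt_iff]
      intro h
      rw [h, mul_zero] at hcon
      exact absurd hcon (not_lt.2 zero_le_one)
    have h1 : V.valuation (sl z₀ / R0) ≤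
        max (V.valuation (3 / e lam * (sl w / R0))) (V.valuation (2 / e lam * c1 w)) := by
      conv_lhs => rw [heq]
      exact Valuation.map_add _ _ _
    rcases le_max_iff.1 h1 with h2 | h2
    · rw [map_mul, h3v] at h2
      have h4 : V.valuation (e lam) * V.valuation (sl w / R0) ≤
          V.valuation (e lam) * V.valuation (sl z₀ / R0) := mul_le_mul_right (hmax w hwL hNw) _
      have h5 : V.valuation (e lam) * V.valuation (sl z₀ / R0) <
          1 * V.valuation (sl z₀ / R0) := mul_lt_mul_of_pos_right hlam1 hpos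
      rw [one_mul] at h5
      exact absurd (h2.trans h4) (not_le.2 h5)
    · rw [map_mul, map_div₀ V.valuation 2 (e lam), h2v] at h2
      have h4 : V.valuation q * V.valuation (sl z₀ / R0) ≤
          V.valuation q * (1 / V.valuation (e lam) * V.valuation (c1 w)) := mul_le_mul_right h2 _
      have h5 : V.valuation q * (1 / V.valuation (e lam) * V.valuation (c1 w)) ≤
          V.valuation q * (1 / V.valuation (e lam) * V.valuation q) :=
        mul_le_mul_right (mul_le_mul_right hc1 _) _
      have h6 : V.valuation q * (1 / V.valuation (e lam) * V.valuation q) = 1 := by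
        have h7 : V.valuation q * (1 / V.valuation (e lam) * V.valuation q) =
            V.valuation q ^ 2 / V.valuation (e lam) := by
          rw [one_div, pow_two, div_eq_mul_inv]
          rw [mul_comm (V.valuation (e lam))⁻¹, mul_assoc]
        rw [h7, hvq, div_self hlam0]
      rw [h6] at h5
      exact absurd (h4.trans h5) (not_le.2 hcon)
  rw [map_mul]
  exact (mul_le_mul_right (hmax z hz hN) _).trans key

end H35N
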