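import Mathlib

namespace H35N

/-! Chunk G2 (M). Gauss sums on finite rings. G(ψ) = sum_x κ x ψ x, ψ_t(x) = ψ(t x).
(1) If an ideal I, not zero, satisfies ψ(x i) = 1 for all x in R, i in I, then G(ψ) = 0: take u with u - 1 in I, κ u = -1; u is a unit (hu), so G = sum κ(u x) ψ(u x) = -sum κ x ψ(x + (u-1) x) = -G.
(2) For t in R: sum_x κ x ψ(t x) = κ t G(ψ): if t is a unit reindex x -> t x (κ t^2 = 1); if t is not a unit then κ t = 0 (hu) and there is y, not zero, with t y = 0 (finite ring: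
isUnit_iff_mem_nonZeroDivisors_of_finite or injective multiplication is surjective); the annihilator I of t is a nonzero ideal, apply (1) to ψ_t.
(3) If ψ(t x) = 1 for all x for some t not zero then G(ψ) = 0 by (1), I = (t). Otherwise for every y not zero the additive character t -> ψ(t y) is nontrivial, so sum_t ψ(t y) = 0, and
sum_t κ t G(ψ) ψ(-t) = sum_t sum_x κ x ψ(t x) ψ(-t) = sum_x κ x sum_t ψ(t (x - 1)) = card R. The left side is G(ψ) κ(-1) G(ψ) (t -> -t). κ(-1) is 1 or -1. -/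

theorem G2_vanish {A : Type} [CommRing A] [Fintype A] {κ : A → ℂ}
    (hmul : ∀ x y, κ (x * y) = κ x * κ y) (hu : ∀ x, κ x ≠ 0 ↔ IsUnit x) (φ : AddChar A ℂ)
    (I : Ideal A) (hI : ∃ u, u - 1 ∈ I ∧ κ u = -1) (hφ : ∀ x, ∀ i ∈ I, φ (x * i) = 1) :
    ∑ x, κ x * φ x = 0 := by
  obtain ⟨u, hu1, hu2⟩ := hI
  have hunit : IsUnit u := (hu u).mp (by rw [hu2]; norm_num)
  obtain ⟨v, rfl⟩ := hunit
  have h1 : ∑ x, κ x * φ x = ∑ x, κ (v * x) * φ (v * x) :=
    (Equiv.sum_comp (Units.mulLeft v) fun x => κ x * φ x).symm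
  have h2 : ∑ x, κ (v * x) * φ (v * x) = -∑ x, κ x * φ x := by
    rw [← Finset.sum_neg_distrib]
    refine Finset.sum_congr rfl fun x _ => ?_
    have h3 : (v : A) * x = x + x * (v - 1) := by ring
    have h4 : φ (v * x) = φ x := by
      rw [h3, AddChar.map_add_eq_mul, hφ x _ hu1, mul_one]
    rw [hmul, hu2, h4]
    ring
  have h3 : ∑ x, κ x * φ x = -∑ x, κ x * φ x := h1.trans h2
  exact self_eq_neg.mp h3

theorem G2_twist {A : Type} [CommRing A] [Fintype A] {κ : A → ℂ}
    (hmul : ∀ x y, κ (x * y) = κ x * κ y) (h1 : κ 1 = 1) (hu : ∀ x, κ x ≠ 0 ↔ IsUnit x)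
    (hv : ∀ x, κ x = 0 ∨ κ x = 1 ∨ κ x = -1)
    (hprim : ∀ I : Ideal A, I ≠ ⊥ → ∃ u, u - 1 ∈ I ∧ κ u = -1) (ψ : AddChar A ℂ) (t : A) :
    ∑ x, κ x * ψ (t * x) = κ t * ∑ x, κ x * ψ x := by
  by_cases ht : IsUnit t
  · obtain ⟨v, rfl⟩ := ht
    have h2 : ∑ x, κ x * ψ x = ∑ x, κ (v * x) * ψ (v * x) :=
      (Equiv.sum_comp (Units.mulLeft v) fun x => κ x * ψ x).symm
    have h3 : κ (v : A) * κ (v : A) = 1 := by
      rcases hv (v : A) with h | h | h
      · exact absurd h ((hu _).mpr v.isUnit)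
      · rw [h]; norm_num
      · rw [h]; norm_num
    rw [h2, Finset.mul_sum]
    refine Finset.sum_congr rfl fun x _ => ?_
    rw [hmul, ← mul_assoc, ← mul_assoc, h3, one_mul]
  · have hκ : κ t = 0 := by
      by_contra h
      exact ht ((hu t).mp h)
    rw [hκ, zero_mul]
    have hnz : ∃ y, y ≠ 0 ∧ t * y = 0 := by
      by_contra hno
      push Not at hno
      apply ht
      have hinj : Function.Injective fun x : A => t * x := by
        intro a b hab
        by_contra hne
        refine hno (a - b) (sub_ne_zero.mpr hne) ?_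
        have hab' : t * a = t * b := hab
        rw [mul_sub, hab', sub_self]
      obtain ⟨y, hy⟩ := (Finite.injective_iff_surjective.mp hinj) 1
      exact IsUnit.of_mul_eq_one y hy
    obtain ⟨y, hy0, hy⟩ := hnz
    have h2 := G2_vanish hmul hu (AddChar.mulShift ψ t) (Ideal.span {y})
      (hprim _ (by rw [Ne, Ideal.span_singleton_eq_bot]; exact hy0)) (by
        intro x i hi
        obtain ⟨c, rfl⟩ := Ideal.mem_span_singleton.mp hi
        rw [AddChar.mulShift_apply]
        have h3 : t * (x * (y * c)) = 0 := by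
          calc t * (x * (y * c)) = (t * y) * (x * c) := by ring
            _ = 0 := by rw [hy, zero_mul]
        rw [h3, AddChar.map_zero_eq_one])
    simpa [AddChar.mulShift_apply] using h2

theorem gauss_sq (A : Type) [CommRing A] [Fintype A] (κ : A → ℂ)
    (hmul : ∀ x y, κ (x * y) = κ x * κ y) (h1 : κ 1 = 1) (hv : ∀ x, κ x = 0 ∨ κ x = 1 ∨ κ x = -1)
    (hu : ∀ x, κ x ≠ 0 ↔ IsUnit x)
    (hprim : ∀ I : Ideal A, I ≠ ⊥ → ∃ u, u - 1 ∈ I ∧ κ u = -1) (ψ : AddChar A ℂ) :
    (∑ x, κ x * ψ x) ^ 2 = 0 ∨ (∑ x, κ x * ψ x) ^ 2 = (Fintype.card A : ℂ) ∨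
      (∑ x, κ x * ψ x) ^ 2 = -(Fintype.card A : ℂ) := by
  classical
  by_cases ht : ∃ t : A, t ≠ 0 ∧ ∀ x, ψ (t * x) = 1
  · obtain ⟨t, ht0, ht⟩ := ht
    left
    have h2 := G2_vanish hmul hu ψ (Ideal.span {t})
      (hprim _ (by rw [Ne, Ideal.span_singleton_eq_bot]; exact ht0)) (by
        intro x i hi
        obtain ⟨c, rfl⟩ := Ideal.mem_span_singleton.mp hi
        have h3 : x * (t * c) = t * (x * c) := by ring
        rw [h3, ht])
    rw [h2]
    norm_num
  · right
    push Not at ht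
    set G := ∑ x, κ x * ψ x with hG
    have hy : ∀ y : A, y ≠ 0 → ∑ t, ψ (y * t) = 0 := by
      intro y hy0
      obtain ⟨x, hx⟩ := ht y hy0
      have h2 : AddChar.mulShift ψ y ≠ 1 := by
        intro h
        apply hx
        have h3 := congrArg (fun χ : AddChar A ℂ => χ x) h
        simpa [AddChar.mulShift_apply] using h3
      have h3 := AddChar.sum_eq_zero_of_ne_one h2
      simpa [AddChar.mulShift_apply] using h3
    have hA : ∑ t, (κ t * G) * ψ (-t) = (Fintype.card A : ℂ) := by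
      have h2 : ∀ t, (κ t * G) * ψ (-t) = ∑ x, κ x * ψ ((x - 1) * t) := by
        intro t
        rw [hG, ← G2_twist hmul h1 hu hv hprim ψ t, Finset.sum_mul]
        refine Finset.sum_congr rfl fun x _ => ?_
        have h3 : (x - 1) * t = t * x + -t := by ring
        rw [h3, AddChar.map_add_eq_mul, mul_assoc]
      simp only [h2]
      rw [Finset.sum_comm, Finset.sum_eq_single_of_mem 1 (Finset.mem_univ _)]
      · simp [h1]
      · intro x _ hx
        rw [← Finset.mul_sum, hy (x - 1) (sub_ne_zero.mpr hx), mul_zero]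
    have hB : ∑ t, (κ t * G) * ψ (-t) = κ (-1) * G ^ 2 := by
      have h2 : ∑ t, (κ t * G) * ψ (-t) = ∑ t, (κ (-t) * G) * ψ t := by
        rw [← Equiv.sum_comp (Equiv.neg A)]
        refine Finset.sum_congr rfl fun t _ => ?_
        rw [Equiv.neg_apply, neg_neg]
      rw [h2, sq, ← mul_assoc]
      conv_rhs => rw [hG, Finset.mul_sum]
      refine Finset.sum_congr rfl fun t _ => ?_
      have h3 : -t = -1 * t := by ring
      rw [h3, hmul]
      ring
    rw [hA] at hB
    rcases hv (-1) with h | h | h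
    · exfalso
      exact (hu (-1)).mpr isUnit_one.neg h
    · left
      rw [hB, h, one_mul]
    · right
      rw [hB, h]
      ring

end H35N
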