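import Mathlib
import Pool.Agent.Lib.H35N.I0
import Pool.Agent.Lib.H35T.A4

open NumberField IsDedekindDomain

namespace H35N

open H55B H55N H19T

/-- K/F is unramified at the primes above 3. -/
def Unr3 (K : Type) [Field K] [NumberField K] [Algebra F K] : Prop :=
  ∀ w : HeightOneSpectrum (𝓞 K), (3 : 𝓞 K) ∈ w.asIdeal → w.asIdeal.ramificationIdx O = 1

variable {K : Type} [Field K] [NumberField K] [Algebra F K]

theorem under_ne (w : HeightOneSpectrum (𝓞 K)) (h3 : (3 : 𝓞 K) ∈ w.asIdeal) :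
    (3 : O) ∈ w.asIdeal.under O ∧ w.asIdeal.under O ≠ ⊥ := by
  have h3v : (3 : O) ∈ w.asIdeal.under O := by
    rw [Ideal.under_def, Ideal.mem_comap, map_ofNat]
    exact h3
  refine ⟨h3v, ?_⟩
  intro h
  rw [h, Ideal.mem_bot] at h3v
  norm_num at h3v

theorem unr3_of (hK : H35T.UnrOut K) : Unr3 K := by
  intro w h3
  have hwp := w.isPrime
  obtain ⟨h3v, hvne⟩ := under_ne w h3
  let v : HeightOneSpectrum O := ⟨w.asIdeal.under O, inferInstance, hvne⟩
  exact hK w v rfl (fun h => h.2.1 h3v)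

theorem val_lam3 (hU : Unr3 K) (w : HeightOneSpectrum (𝓞 K)) (h3 : (3 : 𝓞 K) ∈ w.asIdeal) :
    w.valuation K (algebraMap O K lam) = WithZero.exp (-1 : ℤ) := by
  have hwm := w.isMaximal
  have hwp := w.isPrime
  have hπ : Prime lam := lam_prime'
  let v : HeightOneSpectrum O := ⟨Ideal.span {lam}, (Ideal.span_singleton_prime hπ.ne_zero).2 hπ,
    by simpa using hπ.ne_zero⟩
  have hvm := v.isMaximal
  have hunder : v.asIdeal = w.asIdeal.under O := by
    apply hvm.eq_of_le (Ideal.IsPrime.ne_top inferInstance)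
    show Ideal.span {lam} ≤ _
    rw [Ideal.span_singleton_le_iff_mem]
    exact H35T.A4_lam w h3
  have hl : w.asIdeal.LiesOver v.asIdeal := ⟨hunder⟩
  have hram : v.asIdeal.ramificationIdx' w.asIdeal = 1 := by
    rw [Ideal.ramificationIdx'_eq_ramificationIdx v.asIdeal w.asIdeal v.ne_bot]
    exact hU w h3
  have h4 := HeightOneSpectrum.valuation_liesOver K v w (algebraMap O F lam)
  rw [hram, pow_one] at h4
  rw [IsScalarTower.algebraMap_apply O F K, ← h4, HeightOneSpectrum.valuation_of_algebraMap]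
  exact HeightOneSpectrum.intValuation_singleton v hπ.ne_zero rfl

end H35N
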