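import Mathlib
import Pool.Agent.Lib.H35N.U3
import Pool.Agent.Lib.H55N.D3

open NumberField IsDedekindDomain

namespace H35N

open H55B H55N H19T

variable {K : Type} [Field K] [NumberField K] [Algebra F K]

/-! Chunk D3 (S/M). rad3: (lam) is a radical ideal of 𝓞K, since the primes w above lam have ramification index 1 over O (v = span {lam} is not Good: it contains 3; H35T.UnrOut): the valuation
w(lam) is exp(-1) (compare val_two in H55C/A4 and D3_rad in H55N/D3). cop3_change: as odd_change in H55N/D3 with 2 replaced by 3, lam: D3_main with ν = index. If 3 divides the index take an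
element a of order 3 in the quotient: a^3 = 1 mod J', a = 1 mod J, (a - 1)^3 = (a^3 - 1) - 3 a (a - 1) is in (lam), so a - 1 is in (lam) (rad3), so in (lam) J = J' (coprime), contradiction. -/

theorem rad3 (hK : Unr3 K) (x : 𝓞 K) (n : ℕ)
    (h : x ^ n ∈ Ideal.span {algebraMap O (𝓞 K) lam}) (hn : n ≠ 0) :
    x ∈ Ideal.span {algebraMap O (𝓞 K) lam} := by
  obtain ⟨y, hy⟩ := Ideal.mem_span_singleton.1 h
  have hl0 : (algebraMap O K lam) ≠ 0 := by
    intro h0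
    exact lam_prime'.ne_zero (FaithfulSMul.algebraMap_injective O K (by rw [h0, map_zero]))
  have key : ∀ w : HeightOneSpectrum (𝓞 K), w.valuation K ((x : K) / algebraMap O K lam) ≤ 1 := by
    intro w
    have hwp := w.isPrime
    by_cases h2 : algebraMap O (𝓞 K) lam ∈ w.asIdeal
    · have h3 : (3 : 𝓞 K) ∈ w.asIdeal := by
        have h4 : (3 : 𝓞 K) = algebraMap O (𝓞 K) 3 := (map_ofNat (algebraMap O (𝓞 K)) 3).symm
        rw [h4, three_lam, map_mul, map_pow]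
        exact w.asIdeal.mul_mem_left _ (w.asIdeal.pow_mem_of_mem h2 2 (by norm_num))
      have hv : w.valuation K (algebraMap O K lam) = WithZero.exp (-1 : ℤ) := val_lam3 hK w h3
      have hx : x ∈ w.asIdeal := by
        apply hwp.mem_of_pow_mem n
        rw [hy]
        exact w.asIdeal.mul_mem_right _ h2
      have hx1 : w.valuation K (algebraMap (𝓞 K) K x) < 1 :=
        (HeightOneSpectrum.valuation_lt_one_iff_mem w x).2 hx
      rw [map_div₀, hv]
      exact div_le_one_of_le₀ (H55C.A4_lt hx1) zero_le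
    · have hv : w.valuation K (algebraMap (𝓞 K) K (algebraMap O (𝓞 K) lam)) = 1 := by
        rw [HeightOneSpectrum.valuation_of_algebraMap]
        exact (HeightOneSpectrum.intValuation_eq_one_iff).2 h2
      rw [← IsScalarTower.algebraMap_apply] at hv
      rw [map_div₀, hv, div_one]
      exact w.valuation_le_one x
  obtain ⟨z, hz⟩ := HeightOneSpectrum.mem_integers_of_valuation_le_one K _ key
  refine Ideal.mem_span_singleton.2 ⟨z, ?_⟩
  apply RingOfIntegers.ext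
  show algebraMap (𝓞 K) K x = algebraMap (𝓞 K) K (algebraMap O (𝓞 K) lam * z)
  rw [map_mul, hz, ← IsScalarTower.algebraMap_apply]
  field_simp

theorem cop3_change (hK : Unr3 K) (J J' : Ideal (𝓞 K)) (hJ : J ≠ ⊥)
    (hJ3 : IsCoprime J (Ideal.span {algebraMap O (𝓞 K) lam}))
    (hJ' : J' = Ideal.span {algebraMap O (𝓞 K) lam} * J) (X : Set (𝓞 K)) (hX0 : (0 : 𝓞 K) ∉ X)
    (hX : ∀ u : (𝓞 K)ˣ, (u : 𝓞 K) - 1 ∈ J → ∀ x ∈ X, (u : 𝓞 K) * x ∈ X) :
    ∃ ν : ℕ, ¬ 3 ∣ ν ∧ ∀ T, Transv J X T → ∃ T', Transv J' X T' ∧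
      ∀ (φ : 𝓞 K → ℂ) (S : ℂ), (∀ u : (𝓞 K)ˣ, (u : 𝓞 K) - 1 ∈ J → ∀ x ∈ X, φ ((u : 𝓞 K) * x) = φ x) →
        HasSum (fun x : T' => φ x) S → HasSum (fun x : T => φ x) (S / ν) := by
  have hl0 : (algebraMap O (𝓞 K) lam) ≠ 0 := by
    intro h0
    exact lam_prime'.ne_zero (FaithfulSMul.algebraMap_injective O (𝓞 K) (by rw [h0, map_zero]))
  have hJ'0 : J' ≠ ⊥ := by
    rw [hJ']
    simp [hJ, hl0]
  have hle : J' ≤ J := hJ' ▸ Ideal.mul_le_right
  haveI := D3_fin J' hJ'0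
  haveI hfi : ((D3_U J').subgroupOf (D3_U J)).FiniteIndex := inferInstance
  refine ⟨((D3_U J').subgroupOf (D3_U J)).index, ?_, D3_main J J' hle X hfi hX0 hX⟩
  intro hev
  haveI : Finite ((D3_U J) ⧸ ((D3_U J').subgroupOf (D3_U J))) :=
    Subgroup.finite_quotient_of_finiteIndex
  haveI : Fact (Nat.Prime 3) := ⟨Nat.prime_three⟩
  obtain ⟨q, hq⟩ := exists_prime_orderOf_dvd_card' (G := (D3_U J) ⧸ ((D3_U J').subgroupOf (D3_U J)))
    3 hev
  obtain ⟨a, rfl⟩ := QuotientGroup.mk_surjective q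
  have h1 := pow_orderOf_eq_one (QuotientGroup.mk a : (D3_U J) ⧸ ((D3_U J').subgroupOf (D3_U J)))
  rw [hq, ← QuotientGroup.mk_pow, QuotientGroup.eq_one_iff, Subgroup.mem_subgroupOf, D3_mem] at h1
  have h30 : (3 : 𝓞 K) ∈ Ideal.span {algebraMap O (𝓞 K) lam} := by
    have h4 : (3 : 𝓞 K) = algebraMap O (𝓞 K) 3 := (map_ofNat (algebraMap O (𝓞 K)) 3).symm
    rw [h4, three_lam, map_mul, map_pow]
    exact Ideal.mul_mem_left _ _ (Ideal.pow_mem_of_mem _ (Ideal.mem_span_singleton_self _) 2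
      (by norm_num))
  have h2 : (((a : (𝓞 K)ˣ) : 𝓞 K) - 1) ^ 3 ∈ Ideal.span {algebraMap O (𝓞 K) lam} := by
    have h3 : (((a : (𝓞 K)ˣ) : 𝓞 K) - 1) ^ 3 =
        ((((a ^ 3 : D3_U J) : (𝓞 K)ˣ) : 𝓞 K) - 1) -
          3 * (((a : (𝓞 K)ˣ) : 𝓞 K) * (((a : (𝓞 K)ˣ) : 𝓞 K) - 1)) := by
      rw [SubmonoidClass.coe_pow, Units.val_pow_eq_pow_val]
      ring
    rw [h3]
    refine Ideal.sub_mem _ ?_ (Ideal.mul_mem_right _ _ h30)
    exact (hJ' ▸ Ideal.mul_le_left : J' ≤ Ideal.span {algebraMap O (𝓞 K) lam}) h1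
  have h4 := rad3 hK _ 3 h2 (by norm_num)
  have h5 : ((a : (𝓞 K)ˣ) : 𝓞 K) - 1 ∈ J' := by
    have h6 : ((a : (𝓞 K)ˣ) : 𝓞 K) - 1 ∈ Ideal.span {algebraMap O (𝓞 K) lam} ⊓ J :=
      ⟨h4, (D3_mem J _).1 a.2⟩
    rw [hJ', Ideal.mul_eq_inf_of_coprime]
    · exact h6
    · exact (Ideal.isCoprime_iff_sup_eq.1 hJ3.symm)
  have h7 : (QuotientGroup.mk a : (D3_U J) ⧸ ((D3_U J').subgroupOf (D3_U J))) = 1 := by
    rw [QuotientGroup.eq_one_iff, Subgroup.mem_subgroupOf, D3_mem]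
    exact h5
  rw [h7, orderOf_one] at hq
  omega

end H35N
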