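import Mathlib

namespace H35N

/-! Chunk G3 (M). Elements of given norm congruent to 1 modulo an ideal, in a finite reduced algebra. I is nonzero and the intersection of all maximal ideals is 0 (A is artinian and
reduced: nilradical = Jacobson radical = 0), so some maximal M does not contain I. There is e in A with e in all maximal ideals other than M and 1 - e in M (finitely many maximal
ideals, pairwise coprime: IsArtinianRing.equivPi, or prime avoidance/CRT); e (1 - e) is in all maximal ideals, so e^2 = e. Take i in I, i not in M; then e is in I.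
A = A/M x A/(e) (CRT), u = 1 + e (g - 1) corresponds to (g, 1), the norm is multiplicative for products (LinearMap.det_prodMap). -/

theorem G3_norm_prod (k : Type) [Field k] (B C : Type) [CommRing B] [Algebra k B] [CommRing C]
    [Algebra k C] [Module.Finite k B] [Module.Finite k C] (b : B) (c : C) :
    Algebra.norm k ((b, c) : B × C) = Algebra.norm k b * Algebra.norm k c := by
  rw [Algebra.norm_apply, Algebra.norm_apply, Algebra.norm_apply, ← LinearMap.det_prodMap]
  congr 1

theorem exists_norm (k : Type) [Field k] [Finite k] (A : Type) [CommRing A] [Algebra k A]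
    [Module.Finite k A] [IsReduced A] (I : Ideal A) (hI : I ≠ ⊥) (y : k) (hy : y ≠ 0) :
    ∃ u : A, u - 1 ∈ I ∧ Algebra.norm k u = y := by
  classical
  have : IsArtinianRing A := IsArtinianRing.of_finite k A
  have hzero : ∀ a : A, (∀ M : MaximalSpectrum A, a ∈ M.asIdeal) → a = 0 := by
    intro a ha
    apply (IsArtinianRing.equivPi A).injective
    rw [map_zero]
    ext M
    rw [IsArtinianRing.equivPi_apply]
    exact Ideal.Quotient.eq_zero_iff_mem.mpr (ha M)
  obtain ⟨M, i, hi, hiM⟩ : ∃ M : MaximalSpectrum A, ∃ i ∈ I, i ∉ M.asIdeal := by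
    by_contra hno
    push Not at hno
    apply hI
    rw [eq_bot_iff]
    intro a ha
    exact hzero a fun M => hno M a ha
  set e : A := (IsArtinianRing.equivPi A).symm (Pi.single M 1) with he
  have heM : e - 1 ∈ M.asIdeal := by
    rw [← Ideal.Quotient.eq_zero_iff_mem, map_sub, map_one, sub_eq_zero]
    have h1 : (IsArtinianRing.equivPi A) e M = 1 := by
      rw [he, AlgEquiv.apply_symm_apply, Pi.single_eq_same]
    rw [IsArtinianRing.equivPi_apply] at h1
    exact h1
  have heN : ∀ N : MaximalSpectrum A, N ≠ M → e ∈ N.asIdeal := by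
    intro N hN
    rw [← Ideal.Quotient.eq_zero_iff_mem]
    have h1 : (IsArtinianRing.equivPi A) e N = 0 := by
      rw [he, AlgEquiv.apply_symm_apply, Pi.single_eq_of_ne hN]
    rw [IsArtinianRing.equivPi_apply] at h1
    exact h1
  have hMmax := M.isMaximal
  -- e in I
  have heI : e ∈ I := by
    obtain ⟨c, m, hm, hc⟩ := hMmax.exists_inv hiM
    have h1 : e = e * (c * i) := by
      rw [← sub_eq_zero]
      refine hzero _ fun N => ?_
      by_cases hN : N = M
      · subst hN
        have h2 : e - e * (c * i) = e * m := by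
          have h3 : m = 1 - c * i := by rw [← hc]; ring
          rw [h3]
          ring
        rw [h2]
        exact Ideal.mul_mem_left _ _ hm
      · have h2 : e - e * (c * i) = e * (1 - c * i) := by ring
        rw [h2]
        exact Ideal.mul_mem_right _ _ (heN N hN)
    rw [h1]
    exact Ideal.mul_mem_left _ _ (Ideal.mul_mem_left _ _ hi)
  letI : Field (A ⧸ M.asIdeal) := Ideal.Quotient.field M.asIdeal
  have hfin : Finite (A ⧸ M.asIdeal) := Module.finite_of_finite k
  obtain ⟨g', hg'⟩ := FiniteField.norm_surjective k (A ⧸ M.asIdeal) y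
  obtain ⟨g, rfl⟩ := Ideal.Quotient.mk_surjective g'
  refine ⟨1 + e * (g - 1), ?_, ?_⟩
  · have h1 : 1 + e * (g - 1) - 1 = e * (g - 1) := by ring
    rw [h1]
    exact Ideal.mul_mem_right _ _ heI
  · set J : Ideal A := Ideal.span {e} with hJ
    let ψ : A →ₐ[k] (A ⧸ M.asIdeal) × (A ⧸ J) :=
      (Ideal.Quotient.mkₐ k M.asIdeal).prod (Ideal.Quotient.mkₐ k J)
    have hψ : Function.Bijective ψ := by
      constructor
      · rw [injective_iff_map_eq_zero]
        intro a ha
        have h1 : Ideal.Quotient.mk M.asIdeal a = 0 := congrArg Prod.fst ha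
        have h2 : Ideal.Quotient.mk J a = 0 := congrArg Prod.snd ha
        rw [Ideal.Quotient.eq_zero_iff_mem] at h1 h2
        obtain ⟨c, rfl⟩ := Ideal.mem_span_singleton.mp h2
        refine hzero _ fun N => ?_
        by_cases hN : N = M
        · rw [hN]
          exact h1
        · exact Ideal.mul_mem_right _ _ (heN N hN)
      · rintro ⟨a', b'⟩
        obtain ⟨a, rfl⟩ := Ideal.Quotient.mk_surjective a'
        obtain ⟨b, rfl⟩ := Ideal.Quotient.mk_surjective b'
        refine ⟨e * a + (1 - e) * b, Prod.ext ?_ ?_⟩
        · change Ideal.Quotient.mk M.asIdeal (e * a + (1 - e) * b) = Ideal.Quotient.mk M.asIdeal a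
          rw [Ideal.Quotient.eq]
          have h1 : e * a + (1 - e) * b - a = (e - 1) * (a - b) := by ring
          rw [h1]
          exact Ideal.mul_mem_right _ _ heM
        · change Ideal.Quotient.mk J (e * a + (1 - e) * b) = Ideal.Quotient.mk J b
          rw [Ideal.Quotient.eq]
          have h1 : e * a + (1 - e) * b - b = e * (a - b) := by ring
          rw [h1]
          exact Ideal.mul_mem_right _ _ (Ideal.mem_span_singleton_self e)
    have h1 := Algebra.norm_eq_of_algEquiv (AlgEquiv.ofBijective ψ hψ) (1 + e * (g - 1))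
    rw [← h1]
    have h2 : (AlgEquiv.ofBijective ψ hψ) (1 + e * (g - 1)) =
        ((Ideal.Quotient.mk M.asIdeal g, 1) : (A ⧸ M.asIdeal) × (A ⧸ J)) := by
      refine Prod.ext ?_ ?_
      · change Ideal.Quotient.mk M.asIdeal (1 + e * (g - 1)) = Ideal.Quotient.mk M.asIdeal g
        rw [Ideal.Quotient.eq]
        have h3 : 1 + e * (g - 1) - g = (e - 1) * (g - 1) := by ring
        rw [h3]
        exact Ideal.mul_mem_right _ _ heM
      · change Ideal.Quotient.mk J (1 + e * (g - 1)) = 1
        rw [← map_one (Ideal.Quotient.mk J), Ideal.Quotient.eq]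
        have h3 : 1 + e * (g - 1) - 1 = e * (g - 1) := by ring
        rw [h3]
        exact Ideal.mul_mem_right _ _ (Ideal.mem_span_singleton_self e)
    rw [h2, G3_norm_prod, map_one, mul_one]
    exact hg'

end H35N
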