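import Mathlib
import Pool.Agent.Lib.H19T.Defs
import Pool.Agent.Lib.H55N.B1

open NumberField IsDedekindDomain

namespace H35N

open H55B H55N H19T

variable {K : Type} [Field K] [NumberField K] [Algebra F K]

/-! Chunk G4a (M). The norm modulo lam. 𝓞 K is a free O-module of finite rank (O is a principal ideal domain, torsion free, finite), so Algebra.intNorm = Algebra.norm
(Algebra.intNorm_eq_norm). norm_mod: for a prime ideal p of O the norm of the class of x in 𝓞K / p 𝓞K over O/p is the class of the norm of x: matrices of multiplication in a basis and its reduction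
(the basis of 𝓞K/p𝓞K over O/p: Algebra.TensorProduct.quotIdealMapEquivTensorQuot and LinearMap.det_baseChange / Algebra.norm of a base change, or a direct construction). -/

theorem norm_mod (p : Ideal O) [p.IsMaximal] (x : 𝓞 K) :
    Algebra.norm (O ⧸ p) (Ideal.Quotient.mk (p.map (algebraMap O (𝓞 K))) x) =
      Ideal.Quotient.mk p (Algebra.intNorm O (𝓞 K) x) := by
  classical
  have hfree : Module.Free O (𝓞 K) := Module.free_of_finite_type_torsion_free'
  rw [Algebra.intNorm_eq_norm]
  rw [← Algebra.norm_eq_of_algEquiv (Algebra.TensorProduct.quotIdealMapEquivQuotTensor (𝓞 K) p)]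
  rw [Algebra.TensorProduct.quotIdealMapEquivQuotTensor_mk]
  have b := Module.Free.chooseBasis O (𝓞 K)
  rw [Algebra.norm_eq_matrix_det b,
    Algebra.norm_eq_matrix_det (Algebra.TensorProduct.basis (O ⧸ p) b), RingHom.map_det]
  congr 1
  ext i j
  rw [Algebra.leftMulMatrix_eq_repr_mul, RingHom.mapMatrix_apply, Matrix.map_apply,
    Algebra.leftMulMatrix_eq_repr_mul, Algebra.TensorProduct.basis_apply,
    Algebra.TensorProduct.tmul_mul_tmul, one_mul]
  rw [Algebra.TensorProduct.basis_repr_tmul]
  simp

end H35N
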