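import Mathlib
import Pool.Agent.Lib.H19T.A2
import Pool.Agent.Lib.H35N.Defs
import Pool.Agent.Lib.H35N.G4a
import Pool.Agent.Lib.H35N.I0

open NumberField IsDedekindDomain

namespace H35N

open H55B H55N H19T

variable {K : Type} [Field K] [NumberField K] [Algebra F K]

/-! Chunk G4b (S/M). kn x depends only on x modulo lam, is multiplicative, kn 1 = 1, and is nonzero iff x is invertible modulo lam (x divides its norm; if x y = 1 mod lam then N(x) N(y) = 1 mod lam by
kn_per). For kl use: lam divides exactly one of y, y - 1, y + 1 (O/lam has three elements; lam divides 3). kn_per from norm_mod with p = span {lam} (Ideal.map_span). -/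

theorem G4_max : (Ideal.span {(lam : O)}).IsMaximal :=
  PrincipalIdealRing.isMaximal_of_irreducible lam_prime'.irreducible

theorem G4_map : (Ideal.span {(lam : O)}).map (algebraMap O (𝓞 K)) =
    Ideal.span {algebraMap O (𝓞 K) lam} := by
  rw [Ideal.map_span, Set.image_singleton]

theorem kn_per (x y : 𝓞 K) (h : x - y ∈ Ideal.span {algebraMap O (𝓞 K) lam}) : kn x = kn y := by
  have hmax := G4_max
  unfold kn
  apply kl_congr
  rw [← Ideal.mem_span_singleton, ← Ideal.Quotient.eq, ← norm_mod, ← norm_mod]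
  congr 1
  rw [Ideal.Quotient.eq, G4_map]
  exact h

theorem kn_mul (x y : 𝓞 K) : kn (x * y) = kn x * kn y := by
  unfold kn
  rw [map_mul, kl_mul]

theorem kn_one : kn (1 : 𝓞 K) = 1 := by
  unfold kn
  rw [map_one, kl_one]

theorem kn_val (x : 𝓞 K) : kn x = 0 ∨ kn x = 1 ∨ kn x = -1 := by
  unfold kn
  rcases kl_cases (Algebra.intNorm O (𝓞 K) x) with h | h | h
  · exact Or.inr (Or.inl h)
  · exact Or.inr (Or.inr h)
  · exact Or.inl h

theorem kn_ne (x : 𝓞 K) : kn x ≠ 0 ↔ ∃ y, x * y - 1 ∈ Ideal.span {algebraMap O (𝓞 K) lam} := by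
  constructor
  · intro h
    have h1 : ¬ lam ∣ Algebra.intNorm O (𝓞 K) x := by
      intro h1
      exact h ((kl_zero_iff _).2 h1)
    have h2 : IsCoprime lam (Algebra.intNorm O (𝓞 K) x) :=
      (Irreducible.coprime_iff_not_dvd lam_prime'.irreducible).2 h1
    obtain ⟨a, b, hab⟩ := h2
    obtain ⟨z, hz⟩ := Algebra.dvd_algebraMap_intNorm_self O (𝓞 K) x
    refine ⟨z * algebraMap O (𝓞 K) b, ?_⟩
    rw [Ideal.mem_span_singleton]
    refine ⟨-algebraMap O (𝓞 K) a, ?_⟩
    have h3 := congrArg (algebraMap O (𝓞 K)) hab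
    rw [map_add, map_mul, map_mul, map_one, hz] at h3
    linear_combination h3
  · rintro ⟨y, hy⟩ h0
    have h1 := kn_per _ _ hy
    rw [kn_mul, kn_one, h0, zero_mul] at h1
    exact zero_ne_one h1

end H35N
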