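import Mathlib
import Pool.Agent.Lib.H35N.D3
import Pool.Agent.Lib.H35N.G3
import Pool.Agent.Lib.H35N.G4

open NumberField IsDedekindDomain

namespace H35N

open H55B H55N H19T

variable {K : Type} [Field K] [NumberField K] [Algebra F K]

/-! Chunk G5 (S/M). Apply exists_norm (G3) with k = O/(lam) (a field with three elements, lam prime), A = 𝓞K/(lam) = 𝓞K / (span {lam}).map, reduced by rad3 (D3), the image of I in A (not zero because I is not
contained in (lam)), y = -1. norm_mod (G4): lam divides N(u) + 1, so kn u = -1 (kl: lam does not divide N(u) - 1, otherwise lam divides 2). -/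

theorem kn_prim (hK : Unr3 K) (I : Ideal (𝓞 K))
    (hI : ¬ I ≤ Ideal.span {algebraMap O (𝓞 K) lam}) :
    ∃ u : 𝓞 K, u - 1 ∈ I ⊔ Ideal.span {algebraMap O (𝓞 K) lam} ∧ kn u = -1 := by
  have hmax := G4_max
  letI : Field (O ⧸ Ideal.span {(lam : O)}) := Ideal.Quotient.field _
  have hfin : Finite (O ⧸ Ideal.span {(lam : O)}) :=
    Ideal.finiteQuotientOfFreeOfNeBot _ (by
      rw [Ne, Ideal.span_singleton_eq_bot]
      exact lam_prime'.ne_zero)
  have hred : IsReduced (𝓞 K ⧸ (Ideal.span {(lam : O)}).map (algebraMap O (𝓞 K))) := by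
    rw [← Ideal.isRadical_iff_quotient_reduced]
    rintro x ⟨n, hn⟩
    rw [G4_map] at hn ⊢
    by_cases h0 : n = 0
    · rw [h0, pow_zero] at hn
      rw [(Ideal.eq_top_iff_one _).2 hn]
      exact Submodule.mem_top
    · exact rad3 hK x n hn h0
  have hfm : Module.Finite (O ⧸ Ideal.span {(lam : O)})
      (𝓞 K ⧸ (Ideal.span {(lam : O)}).map (algebraMap O (𝓞 K))) := inferInstance
  obtain ⟨u, hu1, hu2⟩ := exists_norm (O ⧸ Ideal.span {(lam : O)})
    (𝓞 K ⧸ (Ideal.span {(lam : O)}).map (algebraMap O (𝓞 K)))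
    (I.map (Ideal.Quotient.mk _)) (by
      rw [Ne, Ideal.map_eq_bot_iff_le_ker, Ideal.mk_ker, G4_map]
      exact hI) (-1) (neg_ne_zero.2 one_ne_zero)
  obtain ⟨x, rfl⟩ := Ideal.Quotient.mk_surjective u
  refine ⟨x, ?_, ?_⟩
  · rw [← map_one (Ideal.Quotient.mk _), ← map_sub, Ideal.mem_quotient_iff_mem_sup, G4_map] at hu1
    exact hu1
  · unfold kn
    apply ta2_neg
    rw [norm_mod] at hu2
    rw [← Ideal.mem_span_singleton, ← Ideal.Quotient.eq_zero_iff_mem, map_add, map_one, hu2]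
    exact neg_add_cancel _

theorem G5_Nm_lam : Ideal.absNorm (Ideal.span {(lam : O)}) = 3 := by
  have h := Nm_repr (-1) 1
  have h2 : ((-1 : ℤ) : O) + ((1 : ℤ) : O) * om = lam := by unfold lam; push_cast; ring
  rw [h2] at h
  norm_num at h
  exact_mod_cast h

/-- |𝓞 K / lam| = 3^(m+1). (Ideal.absNorm of span {algebraMap lam} = Nm(lam)^(m+1), Nm lam = 3: Ideal.absNorm_span_singleton, Algebra.norm_norm / norm of an element of O; or
𝓞 K is free of rank m + 1 over O.) -/
theorem card_lam {m : ℕ} (hm : Module.finrank F K = m + 1) :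
    Nat.card (𝓞 K ⧸ Ideal.span {algebraMap O (𝓞 K) lam}) = 3 ^ (m + 1) := by
  have h1 : Ideal.absNorm (Ideal.span {algebraMap O (𝓞 K) lam}) =
      Nat.card (𝓞 K ⧸ Ideal.span {algebraMap O (𝓞 K) lam}) := by
    rw [Ideal.absNorm_apply]
    rfl
  rw [← h1, ← G4_map, Ideal.absNorm_algebraMap, G5_Nm_lam, ← hm,
    IsFractionRing.finrank_eq O F (𝓞 K) K]

end H35N
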