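import Mathlib
import Pool.Agent.Lib.H35N.G2
import Pool.Agent.Lib.H35N.G5

open NumberField IsDedekindDomain

namespace H35N

open H55B H55N H19T

variable {K : Type} [Field K] [NumberField K] [Algebra F K]

/-! Chunk G6 (M). Gauss sums on 𝓞K/(lam). A = 𝓞K/(lam), κA(r) = kn(Quotient.out r): well defined and multiplicative by G4. The map j : (Fin n -> ZMod 3) -> A, z -> class of
Ξ(z_k) (z_k = valMinAbs as an element of O) is additive (z_k + z'_k - (z + z')_k is divisible by 3, so by lam, Ξ(lam y) in (lam) by hlin), injective (hinj; lam | z_k implies z k = 0: lam divides only the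
integers divisible by 3), and the cardinalities are 3^n (card_lam), so it is an additive isomorphism. For t let ψ be the additive character of A with ψ(j z) = e om ^ (t.z).val
(multiplicative because e om ^ 3 = 1). Then the sum is sum_r κA(r) ψ(r) and its square is 0 or ± 3^n by gauss_sq (hprim: an ideal of A, not zero, is the image of an ideal I of 𝓞K not contained in
(lam): Ideal.comap; kn_prim), so its valuation is at most V(q)^(2n): V(G)^2 <= V(3)^n = V(q)^(4n). -/

theorem G6_three : ∃ t : O, (3 : O) = lam * t :=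
  ⟨-(om ^ 2) * lam, by rw [three_lam]; ring⟩

theorem G6_dvd (a : ℤ) (h : lam ∣ (a : O)) : (3 : ℤ) ∣ a := by
  obtain ⟨t, ht⟩ := h
  have h0 : (Nm lam : ℤ) = 3 := by exact_mod_cast G5_Nm_lam
  have h1 := Nm_repr a 0
  have h2 : ((a : O) + ((0 : ℤ) : O) * om) = lam * t := by
    rw [← ht]
    push_cast
    ring
  rw [h2, Nm_mul] at h1
  push_cast at h1
  rw [h0] at h1
  have h3 : (3 : ℤ) ∣ a ^ 2 := ⟨(Nm t : ℤ), by linarith⟩
  exact Int.prime_three.dvd_of_dvd_pow h3

/-- kn on the quotient. -/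
noncomputable def G6_kap (r : 𝓞 K ⧸ Ideal.span {algebraMap O (𝓞 K) lam}) : ℂ := kn (Quotient.out r)

theorem G6_kap_mk (x : 𝓞 K) :
    G6_kap (Ideal.Quotient.mk (Ideal.span {algebraMap O (𝓞 K) lam}) x) = kn x := by
  unfold G6_kap
  apply kn_per
  rw [← Ideal.Quotient.eq]
  exact Quotient.out_eq _

/-- The map from (ZMod 3)^n. -/
noncomputable def G6_j {m : ℕ} (Ξ : (Fin (m + 1) → O) →+ 𝓞 K)
    (hlin : ∀ y : Fin (m + 1) → O, Ξ (fun k => lam * y k) ∈ Ideal.span {algebraMap O (𝓞 K) lam}) :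
    (Fin (m + 1) → ZMod 3) →+ 𝓞 K ⧸ Ideal.span {algebraMap O (𝓞 K) lam} where
  toFun z := Ideal.Quotient.mk _ (Ξ fun k => ((z k).valMinAbs : O))
  map_zero' := by
    have h1 : (fun k : Fin (m + 1) => (((0 : Fin (m + 1) → ZMod 3) k).valMinAbs : O)) = 0 := by
      funext k
      simp
    rw [h1, map_zero, map_zero]
  map_add' z z' := by
    rw [← map_add, Ideal.Quotient.eq, ← map_add, ← map_sub]
    obtain ⟨t, ht⟩ := G6_three
    have h1 : ∀ k, ∃ w : O, ((((z + z') k).valMinAbs : ℤ) : O) -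
        ((((z k).valMinAbs : ℤ) : O) + (((z' k).valMinAbs : ℤ) : O)) = lam * w := by
      intro k
      have h2 : (3 : ℤ) ∣ ((z + z') k).valMinAbs - ((z k).valMinAbs + (z' k).valMinAbs) := by
        have h3 : ((((z + z') k).valMinAbs - ((z k).valMinAbs + (z' k).valMinAbs) : ℤ) : ZMod 3) = 0 := by
          push_cast
          rw [Pi.add_apply, sub_self]
        exact_mod_cast (ZMod.intCast_zmod_eq_zero_iff_dvd _ 3).1 h3
      obtain ⟨b, hb⟩ := h2
      refine ⟨t * b, ?_⟩
      have h4 := congrArg (fun a : ℤ => (a : O)) hb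
      push_cast at h4
      rw [h4, ht]
      ring
    choose w hw using h1
    have h2 : ((fun k => ((((z + z') k).valMinAbs : ℤ) : O)) -
        ((fun k => (((z k).valMinAbs : ℤ) : O)) + fun k => (((z' k).valMinAbs : ℤ) : O))) =
        fun k => lam * w k := by
      funext k
      exact hw k
    rw [h2]
    exact hlin w

theorem G6_j_inj {m : ℕ} (Ξ : (Fin (m + 1) → O) →+ 𝓞 K)
    (hlin : ∀ y : Fin (m + 1) → O, Ξ (fun k => lam * y k) ∈ Ideal.span {algebraMap O (𝓞 K) lam})
    (hinj : ∀ y : Fin (m + 1) → O, Ξ y ∈ Ideal.span {algebraMap O (𝓞 K) lam} → ∀ k, lam ∣ y k) :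
    Function.Injective (G6_j Ξ hlin) := by
  rw [injective_iff_map_eq_zero]
  intro z hz
  have h1 : Ξ (fun k => (((z k).valMinAbs : ℤ) : O)) ∈ Ideal.span {algebraMap O (𝓞 K) lam} :=
    Ideal.Quotient.eq_zero_iff_mem.1 hz
  funext k
  have h2 := G6_dvd _ (hinj _ h1 k)
  have h3 : (((z k).valMinAbs : ℤ) : ZMod 3) = 0 :=
    (ZMod.intCast_zmod_eq_zero_iff_dvd _ 3).2 (by exact_mod_cast h2)
  rwa [ZMod.coe_valMinAbs] at h3

theorem gauss_bd (hK : Unr3 K) {m : ℕ} (hm : Module.finrank F K = m + 1)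
    (Ξ : (Fin (m + 1) → O) →+ 𝓞 K)
    (hlin : ∀ y : Fin (m + 1) → O, Ξ (fun k => lam * y k) ∈ Ideal.span {algebraMap O (𝓞 K) lam})
    (hinj : ∀ y : Fin (m + 1) → O, Ξ y ∈ Ideal.span {algebraMap O (𝓞 K) lam} → ∀ k, lam ∣ y k) (q : ℂ)
    (hq : q ^ 4 = 3) (t : Fin (m + 1) → ZMod 3) :
    Int3 ((∑ z : Fin (m + 1) → ZMod 3, kn (Ξ fun k => ((z k).valMinAbs : O)) *
      e om ^ (∑ k, t k * z k).val) / q ^ (2 * (m + 1))) := by
  classical
  have hcard := card_lam (K := K) hm
  have hfin : Finite (𝓞 K ⧸ Ideal.span {algebraMap O (𝓞 K) lam}) :=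
    Nat.finite_of_card_ne_zero (by rw [hcard]; positivity)
  have hft : Fintype (𝓞 K ⧸ Ideal.span {algebraMap O (𝓞 K) lam}) := Fintype.ofFinite _
  have hbij : Function.Bijective (G6_j Ξ hlin) := by
    rw [Fintype.bijective_iff_injective_and_card]
    refine ⟨G6_j_inj Ξ hlin hinj, ?_⟩
    rw [← Nat.card_eq_fintype_card, ← Nat.card_eq_fintype_card, hcard]
    simp
  let jE : (Fin (m + 1) → ZMod 3) ≃+ 𝓞 K ⧸ Ideal.span {algebraMap O (𝓞 K) lam} :=
    AddEquiv.ofBijective (G6_j Ξ hlin) hbij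
  let φ : (Fin (m + 1) → ZMod 3) →+ ZMod 3 :=
    { toFun := fun z => ∑ k, t k * z k
      map_zero' := by simp
      map_add' := by
        intro z z'
        rw [← Finset.sum_add_distrib]
        exact Finset.sum_congr rfl fun k _ => by rw [Pi.add_apply, mul_add] }
  let χ : AddChar (ZMod 3) ℂ := AddChar.zmodChar 3 A0_om_cube
  let ψ : AddChar (𝓞 K ⧸ Ideal.span {algebraMap O (𝓞 K) lam}) ℂ :=
    χ.compAddMonoidHom (φ.comp jE.symm.toAddMonoidHom)
  have hsum : ∑ z : Fin (m + 1) → ZMod 3, kn (Ξ fun k => ((z k).valMinAbs : O)) *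
      e om ^ (∑ k, t k * z k).val = ∑ r, G6_kap r * ψ r := by
    rw [← Equiv.sum_comp jE.toEquiv]
    refine Finset.sum_congr rfl fun z _ => ?_
    have h1 : jE.toEquiv z = Ideal.Quotient.mk _ (Ξ fun k => ((z k).valMinAbs : O)) := rfl
    have h2 : ψ (jE.toEquiv z) = e om ^ (∑ k, t k * z k).val := by
      change χ (φ (jE.symm (jE z))) = _
      rw [AddEquiv.symm_apply_apply]
      exact AddChar.zmodChar_apply A0_om_cube _
    rw [h2, h1, G6_kap_mk]
  have hsq := gauss_sq (𝓞 K ⧸ Ideal.span {algebraMap O (𝓞 K) lam}) G6_kap (by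
      intro x y
      obtain ⟨x, rfl⟩ := Ideal.Quotient.mk_surjective x
      obtain ⟨y, rfl⟩ := Ideal.Quotient.mk_surjective y
      rw [← map_mul, G6_kap_mk, G6_kap_mk, G6_kap_mk, kn_mul]) (by
      rw [← map_one (Ideal.Quotient.mk _), G6_kap_mk, kn_one]) (by
      intro x
      exact kn_val _) (by
      intro x
      obtain ⟨x, rfl⟩ := Ideal.Quotient.mk_surjective x
      rw [G6_kap_mk, kn_ne, isUnit_iff_exists_inv]
      constructor
      · rintro ⟨y, hy⟩
        refine ⟨Ideal.Quotient.mk _ y, ?_⟩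
        rw [← map_mul, ← map_one (Ideal.Quotient.mk _), Ideal.Quotient.eq]
        exact hy
      · rintro ⟨y, hy⟩
        obtain ⟨y, rfl⟩ := Ideal.Quotient.mk_surjective y
        refine ⟨y, ?_⟩
        rwa [← map_mul, ← map_one (Ideal.Quotient.mk _), Ideal.Quotient.eq] at hy) (by
      intro I hI
      obtain ⟨u, hu1, hu2⟩ := kn_prim hK (I.comap (Ideal.Quotient.mk _)) (by
        intro hle
        apply hI
        rw [eq_bot_iff]
        intro r hr
        obtain ⟨r, rfl⟩ := Ideal.Quotient.mk_surjective r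
        exact Ideal.Quotient.eq_zero_iff_mem.2 (hle hr))
      refine ⟨Ideal.Quotient.mk _ u, ?_, ?_⟩
      · have h1 : Ideal.span {algebraMap O (𝓞 K) lam} ≤
            I.comap (Ideal.Quotient.mk (Ideal.span {algebraMap O (𝓞 K) lam})) := by
          intro a ha
          rw [Ideal.mem_comap, Ideal.Quotient.eq_zero_iff_mem.2 ha]
          exact I.zero_mem
        rw [sup_eq_left.2 h1, Ideal.mem_comap, map_sub, map_one] at hu1
        exact hu1
      · rw [G6_kap_mk, hu2]) ψ
  rw [← hsum] at hsq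
  have hc : (Fintype.card (𝓞 K ⧸ Ideal.span {algebraMap O (𝓞 K) lam}) : ℂ) = 3 ^ (m + 1) := by
    rw [← Nat.card_eq_fintype_card, hcard]
    push_cast
    rfl
  rw [hc] at hsq
  have hq2 : (q ^ (2 * (m + 1))) ^ 2 = 3 ^ (m + 1) := by
    rw [← hq, ← pow_mul, ← pow_mul]
    congr 1
    ring
  have h3 : (3 : ℂ) ^ (m + 1) ≠ 0 := pow_ne_zero _ three_ne_zero
  intro V hV
  have h4 : V.valuation ((∑ z : Fin (m + 1) → ZMod 3, kn (Ξ fun k => ((z k).valMinAbs : O)) *
      e om ^ (∑ k, t k * z k).val) / q ^ (2 * (m + 1))) ^ 2 ≤ 1 := by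
    rw [← map_pow, div_pow, hq2]
    rcases hsq with h | h | h
    · rw [h, zero_div, map_zero]
      exact zero_le
    · rw [h, div_self h3, map_one]
    · rw [h, neg_div, div_self h3, Valuation.map_neg, map_one]
  by_contra hcon
  push Not at hcon
  exact absurd h4 (not_le.2 (one_lt_pow₀ hcon two_ne_zero))

end H35N
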