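import Mathlib
import Pool.Agent.Lib.H35N.Defs
import Pool.Agent.Lib.H35N.I0

open NumberField IsDedekindDomain

namespace H35N

open H55B H55N H19T

/-! Chunk W2 (M). Finite sums over O^n modulo N (SO n N F = sum over the classes of F at the representatives Quotient.out; O/(N) is finite for N not 0: Ideal.finiteQuotientOfFreeOfNeBot;
finsum_eq_sum_of_fintype). F is N-periodic: F(y + N t) = F(y); so F (out of cl) = F(y) for every y with class cl. -/

theorem w2_finite {N : O} (hN : N ≠ 0) : Finite (O ⧸ Ideal.span {N}) :=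
  Ideal.finiteQuotientOfFreeOfNeBot _ (by
    rw [Ne, Ideal.span_singleton_eq_bot]
    exact hN)

theorem w2_eq (n : ℕ) (N : O) [Fintype (Fin n → O ⧸ Ideal.span {N})] (F : (Fin n → O) → ℂ) :
    SO n N F = ∑ cl : Fin n → O ⧸ Ideal.span {N}, F fun k => Quotient.out (cl k) := by
  unfold SO
  exact finsum_eq_sum_of_fintype _

/-- The class of the representative. -/
theorem w2_out {N : O} (c : O ⧸ Ideal.span {N}) : Ideal.Quotient.mk (Ideal.span {N}) (Quotient.out c) = c :=
  Quotient.out_eq c

/-- A periodic function takes the same value at two vectors with the same classes. -/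
theorem w2_per (n : ℕ) (N : O) (F : (Fin n → O) → ℂ)
    (hF : ∀ y t : Fin n → O, F (fun k => y k + N * t k) = F y) (y y' : Fin n → O)
    (h : ∀ k, Ideal.Quotient.mk (Ideal.span {N}) (y k) = Ideal.Quotient.mk (Ideal.span {N}) (y' k)) :
    F y = F y' := by
  have h1 : ∀ k, ∃ t : O, y k = y' k + N * t := by
    intro k
    have h2 := (Ideal.Quotient.eq.1 (h k))
    rw [Ideal.mem_span_singleton] at h2
    obtain ⟨t, ht⟩ := h2
    exact ⟨t, by linear_combination ht⟩
  choose t ht using h1
  have h3 : y = fun k => y' k + N * t k := funext ht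
  rw [h3, hF]

/-- Translation invariance. -/
theorem SO_shift (n : ℕ) (N : O) (hN : N ≠ 0) (F : (Fin n → O) → ℂ)
    (hF : ∀ y t : Fin n → O, F (fun k => y k + N * t k) = F y) (t : Fin n → O) :
    SO n N (fun y => F fun k => y k + t k) = SO n N F := by
  classical
  have hfin := w2_finite hN
  have hft : Fintype (Fin n → O ⧸ Ideal.span {N}) := Fintype.ofFinite _
  rw [w2_eq, w2_eq]
  refine Fintype.sum_equiv (Equiv.addRight (fun k => Ideal.Quotient.mk (Ideal.span {N}) (t k))) _ _
    fun cl => ?_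
  refine w2_per n N F hF _ _ fun k => ?_
  rw [map_add, w2_out, w2_out]
  rfl

/-- Additivity. -/
theorem SO_sum {ι : Type} (s : Finset ι) (n : ℕ) (N : O) (hN : N ≠ 0) (F : ι → (Fin n → O) → ℂ) :
    SO n N (fun y => ∑ i ∈ s, F i y) = ∑ i ∈ s, SO n N (F i) := by
  classical
  have hfin := w2_finite hN
  have hft : Fintype (Fin n → O ⧸ Ideal.span {N}) := Fintype.ofFinite _
  rw [w2_eq, Finset.sum_comm]
  exact Finset.sum_congr rfl fun i _ => (w2_eq n N (F i)).symm

theorem SO_mul (n : ℕ) (N : O) (hN : N ≠ 0) (c : ℂ) (F : (Fin n → O) → ℂ) :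
    SO n N (fun y => c * F y) = c * SO n N F := by
  classical
  have hfin := w2_finite hN
  have hft : Fintype (Fin n → O ⧸ Ideal.span {N}) := Fintype.ofFinite _
  rw [w2_eq, w2_eq, Finset.mul_sum]

theorem SO_congr (n : ℕ) (N : O) (F G : (Fin n → O) → ℂ) (h : ∀ y, F y = G y) :
    SO n N F = SO n N G := by
  rw [funext h]

/-- Integrality. -/
theorem SO_int (n : ℕ) (N : O) (hN : N ≠ 0) (F : (Fin n → O) → ℂ) (h : ∀ y, Int3 (F y)) :
    Int3 (SO n N F) := by
  classical
  have hfin := w2_finite hN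
  have hft : Fintype (Fin n → O ⧸ Ideal.span {N}) := Fintype.ofFinite _
  rw [w2_eq]
  exact i3_sum _ _ fun cl _ => h _

/-- A sum over j classes: sum_{cl} F(out cl) = sum of Φ over (Fin n -> O/(N)) for every function Φ with Φ(class of y) = F(y). -/
theorem SO_eq (n : ℕ) (N : O) [Fintype (Fin n → O ⧸ Ideal.span {N})] (F : (Fin n → O) → ℂ) :
    SO n N F = ∑ cl : Fin n → O ⧸ Ideal.span {N}, F fun k => Quotient.out (cl k) := by
  exact w2_eq n N F

end H35N
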