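import Mathlib
import Pool.Agent.Lib.H35N.W2

open NumberField IsDedekindDomain

namespace H35N

open H55B H55N H19T

/-! Chunk W3 (M). Chinese remainder theorem. The map (w, z) -> (class of lam w_k + m₁ z_k modulo lam m₁)_k, from (Fin n -> O/(m₁)) x (Fin n -> ZMod 3) (w_k by Quotient.out, z_k by valMinAbs, an integer),
is a bijection onto Fin n -> O/(lam m₁): well defined up to the periodicity of F (hF), injective: lam w + m₁ z = lam w' + m₁ z' mod lam m₁ gives m₁ (z - z') = 0 mod lam, z = z' (lam divides an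
integer iff 3 does; 3 does not divide m₁), then w = w' mod m₁ (cancel lam); surjective: for y choose z in {0,1,-1} with m₁ z = y mod lam (O/lam = {0,1,-1}, x = a + b om = a + b mod lam), y - m₁ z = lam w.
(SO: finsum over a finite type; Finset.sum_bij / Fintype.sum_equiv / sum_nbij'.) -/

theorem w3_Nm_lam : (Nm lam : ℤ) = 3 := by
  have h := Nm_repr (-1) 1
  have h1 : (((-1 : ℤ) : O) + ((1 : ℤ) : O) * om) = lam := by
    unfold lam
    push_cast
    ring
  rw [h1] at h
  rw [h]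
  norm_num

theorem w3_dvd (a : ℤ) : lam ∣ (a : O) ↔ (3 : ℤ) ∣ a := by
  constructor
  · rintro ⟨t, ht⟩
    have h1 := Nm_repr a 0
    have h2 : ((a : O) + ((0 : ℤ) : O) * om) = lam * t := by
      rw [← ht]
      push_cast
      ring
    rw [h2, Nm_mul] at h1
    push_cast at h1
    rw [w3_Nm_lam] at h1
    have h3 : (3 : ℤ) ∣ a ^ 2 := ⟨(Nm t : ℤ), by linarith⟩
    exact Int.prime_three.dvd_of_dvd_pow h3
  · rintro ⟨b, rfl⟩
    obtain ⟨t, ht⟩ := L2_lam_three
    exact ⟨t * b, by push_cast; rw [ht]; ring⟩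

theorem w3_val (z z' : ZMod 3) (h : (3 : ℤ) ∣ z.valMinAbs - z'.valMinAbs) : z = z' := by
  have h1 : ((z.valMinAbs - z'.valMinAbs : ℤ) : ZMod 3) = 0 :=
    (ZMod.intCast_zmod_eq_zero_iff_dvd _ 3).2 (by exact_mod_cast h)
  rw [Int.cast_sub, ZMod.coe_valMinAbs, ZMod.coe_valMinAbs] at h1
  exact sub_eq_zero.1 h1

theorem w3_not_dvd {m₁ : ℕ} (h3 : ¬ 3 ∣ m₁) : ¬ lam ∣ (m₁ : O) := by
  intro h
  have h1 : lam ∣ ((m₁ : ℤ) : O) := by
    rw [Int.cast_natCast]
    exact h
  exact h3 (by exact_mod_cast (w3_dvd _).1 h1)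

theorem w3_surj {m₁ : ℕ} (h3 : ¬ 3 ∣ m₁) (y : O) :
    ∃ (z : ZMod 3) (w : O), y - m₁ * ((z.valMinAbs : ℤ) : O) = lam * w := by
  obtain ⟨a, b, rfl⟩ := exists_repr y
  have hu : IsUnit ((m₁ : ℕ) : ZMod 3) := by
    rw [ZMod.isUnit_iff_coprime]
    exact (Nat.Coprime.symm ((Nat.Prime.coprime_iff_not_dvd Nat.prime_three).2 h3))
  obtain ⟨u, hu'⟩ := hu
  set z : ZMod 3 := (↑u⁻¹ : ZMod 3) * ((a + b : ℤ) : ZMod 3) with hz
  have h4 : ((a + b - m₁ * z.valMinAbs : ℤ) : ZMod 3) = 0 := by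
    push_cast
    rw [hz, ← hu', ← mul_assoc, Units.mul_inv, one_mul]
    push_cast
    ring
  have h5 : (3 : ℤ) ∣ a + b - m₁ * z.valMinAbs := by
    exact_mod_cast (ZMod.intCast_zmod_eq_zero_iff_dvd _ 3).1 h4
  obtain ⟨t, ht⟩ := (w3_dvd _).2 h5
  refine ⟨z, t + b, ?_⟩
  push_cast at ht
  rw [mul_add, ← ht]
  unfold lam
  ring

theorem SO_crt (n m₁ : ℕ) (h3 : ¬ 3 ∣ m₁) (F : (Fin n → O) → ℂ)
    (hF : ∀ y t : Fin n → O, F (fun k => y k + lam * m₁ * t k) = F y) :
    SO n (lam * m₁) F = SO n m₁ (fun w => ∑ z : Fin n → ZMod 3,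
      F fun k => lam * w k + m₁ * ((z k).valMinAbs : O)) := by
  classical
  have hm0 : m₁ ≠ 0 := by
    rintro rfl
    exact h3 (dvd_zero 3)
  have hm : (m₁ : O) ≠ 0 := by exact_mod_cast hm0
  have hlam : (lam : O) ≠ 0 := L2_lam_prime.ne_zero
  have hN : lam * (m₁ : O) ≠ 0 := mul_ne_zero hlam hm
  have hf1 := w2_finite hm
  have hf2 := w2_finite hN
  have ht1 : Fintype (Fin n → O ⧸ Ideal.span {(m₁ : O)}) := Fintype.ofFinite _
  have ht2 : Fintype (Fin n → O ⧸ Ideal.span {lam * (m₁ : O)}) := Fintype.ofFinite _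
  rw [w2_eq n (lam * m₁), w2_eq n (m₁ : O), ← Fintype.sum_prod_type']
  symm
  refine Fintype.sum_bijective (fun p : (Fin n → O ⧸ Ideal.span {(m₁ : O)}) × (Fin n → ZMod 3) =>
    fun k => Ideal.Quotient.mk (Ideal.span {lam * (m₁ : O)})
      (lam * Quotient.out (p.1 k) + m₁ * ((p.2 k).valMinAbs : O))) ?_ _ _ (fun p => ?_)
  · constructor
    · rintro ⟨c, z⟩ ⟨c', z'⟩ h
      have h1 : ∀ k, z k = z' k ∧ c k = c' k := by
        intro k
        have h2 := congrFun h k
        simp only at h2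
        rw [Ideal.Quotient.eq, Ideal.mem_span_singleton] at h2
        obtain ⟨t, ht⟩ := h2
        have h4 : lam ∣ (m₁ : O) * (((z k).valMinAbs - (z' k).valMinAbs : ℤ) : O) := by
          refine ⟨m₁ * t - (Quotient.out (c k) - Quotient.out (c' k)), ?_⟩
          push_cast
          linear_combination ht
        have h5 : lam ∣ (((z k).valMinAbs - (z' k).valMinAbs : ℤ) : O) := by
          rcases L2_lam_prime.dvd_or_dvd h4 with h6 | h6
          · exact absurd h6 (w3_not_dvd h3)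
          · exact h6
        have h6 := w3_val _ _ ((w3_dvd _).1 h5)
        refine ⟨h6, ?_⟩
        rw [h6] at ht
        have h7 : Quotient.out (c k) - Quotient.out (c' k) = m₁ * t := by
          apply mul_left_cancel₀ hlam
          linear_combination ht
        rw [← w2_out (c k), ← w2_out (c' k), Ideal.Quotient.eq, Ideal.mem_span_singleton]
        exact ⟨t, h7⟩
      exact Prod.ext (funext fun k => (h1 k).2) (funext fun k => (h1 k).1)
    · intro cl
      choose z w hzw using fun k => w3_surj h3 (Quotient.out (cl k))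
      refine ⟨⟨fun k => Ideal.Quotient.mk _ (w k), z⟩, funext fun k => ?_⟩
      show Ideal.Quotient.mk (Ideal.span {lam * (m₁ : O)})
        (lam * Quotient.out (Ideal.Quotient.mk (Ideal.span {(m₁ : O)}) (w k)) +
          m₁ * ((z k).valMinAbs : O)) = cl k
      have h1 : Ideal.Quotient.mk (Ideal.span {(m₁ : O)})
          (Quotient.out (Ideal.Quotient.mk (Ideal.span {(m₁ : O)}) (w k))) =
          Ideal.Quotient.mk (Ideal.span {(m₁ : O)}) (w k) := w2_out _
      rw [Ideal.Quotient.eq, Ideal.mem_span_singleton] at h1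
      obtain ⟨t, ht⟩ := h1
      rw [← w2_out (cl k), Ideal.Quotient.eq, Ideal.mem_span_singleton]
      refine ⟨t, ?_⟩
      linear_combination lam * ht - hzw k
  · exact w2_per n _ F hF _ _ fun k => (w2_out _).symm

end H35N
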