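import Mathlib
import Pool.Agent.Lib.H35N.E1
import Pool.Agent.Lib.H55N.B1

open NumberField IsDedekindDomain

namespace H35N

open H55B H55N H19T

variable {K : Type} [Field K] [NumberField K] [Algebra F K] {m : ℕ}

/-! Chunk W4 (M). One variable: with z = 3 e α / e M, e α + e M e y = (e M/3) (z + 3 e y), so the sum is (3/e M) sR R' z, R' = 3 R/|e M| (compare e1_sum in H55N/E6). z is not in Lam since M does not divide α,
and Nm(M) z is in Lam (Nm M = M cj M): sl_exists. -/

theorem one_var (α M : O) (hM : M ≠ 0) (h : ¬ M ∣ α) :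
    (∀ R : ℝ, 0 < R → Summable fun y : O => ‖(e α + e M * e y)⁻¹ *
      ((R ^ 2 / (R ^ 2 + ‖e α + e M * e y‖ ^ 2) : ℝ) : ℂ)‖) ∧
    Filter.Tendsto (fun R : ℝ => ∑' y : O, (e α + e M * e y)⁻¹ *
      ((R ^ 2 / (R ^ 2 + ‖e α + e M * e y‖ ^ 2) : ℝ) : ℂ)) Filter.atTop
      (nhds (3 / e M * sl (3 * e α / e M))) := by
  have hMe : e M ≠ 0 := by
    intro h0
    apply hM
    apply e_injective
    rw [h0, map_zero]
  obtain ⟨j, hj⟩ : ∃ j : ℂ, j = e M / 3 := ⟨_, rfl⟩
  have hj0 : j ≠ 0 := by
    rw [hj]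
    exact div_ne_zero hMe three_ne_zero
  have hjr : 0 < ‖j‖ := norm_pos_iff.2 hj0
  obtain ⟨z, hzdef⟩ : ∃ z : ℂ, z = 3 * e α / e M := ⟨_, rfl⟩
  have hsc : ∀ y : O, e α + e M * e y = j * (z + 3 * e y) := by
    intro y
    rw [hzdef, hj]
    field_simp
  have hz : z ∉ Lam := by
    rintro ⟨y, hy⟩
    apply h
    refine ⟨y, ?_⟩
    apply e_injective
    rw [map_mul]
    rw [hzdef, div_eq_iff hMe] at hy
    have h3 : (3 : ℂ) * e α = 3 * (e M * e y) := by rw [hy]; ring
    exact mul_left_cancel₀ three_ne_zero h3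
  have hNm : Nm M ≠ 0 := fun h0 => hM (Nm_eq_zero.1 h0)
  have hmz : (Nm M : ℂ) * z ∈ Lam := by
    have h1 : ((Nm M : ℕ) : O) ∈ Ideal.span {M} := Ideal.absNorm_mem _
    obtain ⟨t, ht⟩ := Ideal.mem_span_singleton.1 h1
    refine ⟨α * t, ?_⟩
    have h2 : (Nm M : ℂ) = e M * e t := by
      have := congrArg e ht
      rwa [map_natCast, map_mul] at this
    rw [h2, hzdef, map_mul]
    field_simp
  have hterm : ∀ (R : ℝ) (y : O), (e α + e M * e y)⁻¹ *
      ((R ^ 2 / (R ^ 2 + ‖e α + e M * e y‖ ^ 2) : ℝ) : ℂ) =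
      j⁻¹ * ((z + 3 * e y)⁻¹ *
        (((R / ‖j‖) ^ 2 / ((R / ‖j‖) ^ 2 + ‖z + 3 * e y‖ ^ 2) : ℝ) : ℂ)) := by
    intro R y
    rw [hsc y, norm_mul, mul_inv]
    have h5 : R ^ 2 / (R ^ 2 + (‖j‖ * ‖z + 3 * e y‖) ^ 2) =
        (R / ‖j‖) ^ 2 / ((R / ‖j‖) ^ 2 + ‖z + 3 * e y‖ ^ 2) := by
      have h6 : R ^ 2 = ‖j‖ ^ 2 * (R / ‖j‖) ^ 2 := by
        field_simp
      have h7 : R ^ 2 + (‖j‖ * ‖z + 3 * e y‖) ^ 2 =
          ‖j‖ ^ 2 * ((R / ‖j‖) ^ 2 + ‖z + 3 * e y‖ ^ 2) := by
        rw [mul_add, ← h6]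
        ring
      rw [h7]
      conv_lhs => rw [h6]
      exact mul_div_mul_left _ _ (by positivity)
    rw [h5]
    ring
  constructor
  · intro R hR
    have h1 := (sR_summable (R / ‖j‖) (by positivity) z).mul_left ‖j⁻¹‖
    refine h1.congr fun y => ?_
    rw [hterm R y, norm_mul j⁻¹]
  · have hS := sl_exists z hz (Nm M) hNm hmz
    have ht : Filter.Tendsto (fun R : ℝ => R / ‖j‖) Filter.atTop Filter.atTop :=
      Filter.tendsto_id.atTop_div_const hjr
    have h8 : 3 / e M * sl (3 * e α / e M) = j⁻¹ * sl z := by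
      rw [hj, hzdef, inv_div]
    rw [h8]
    refine ((hS.comp ht).const_mul j⁻¹).congr fun R => ?_
    simp only [hterm]
    rw [tsum_mul_left]
    rfl

/-! The sum over X by classes (compare rat_val in H55N/E8.lean, the same argument with m₀ replaced by M, the weight D.g by h and S by the explicit limit): the classes of (y(x)_k)_k in (O/M)^n, y(x)_k in O with
D.Tr (A k) x = e (y(x)_k); the class of x₀ is {x₀ + x(y)}, where x(y) in D.I is the element of hM (unique by Tr_inj); h(x₀ + x(y)) = h(x₀) by hM; pi_hasSum and one_var. The result is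
sum over the classes of h(x₀) prod_k (3/M) sl(3 y(x₀)_k/M), which is the SO sum (Gf at the representative y of a class in the image: Gf D A h y = h(x₀); representatives differ by M t: the value of
sl(3 e y/e M) does not change by sl_per; Gf = 0 for classes not in the image). -/

theorem w4_Gf (D : Ctx K m) (hE : Emb D.σ) (A : Fin (m + 1) → K) (hA : LinearIndependent F A)
    (h : 𝓞 K → ℂ) (y : Fin (m + 1) → O) (x : 𝓞 K) (hx : x ∈ D.X)
    (hxy : ∀ k, D.Tr (A k) x = e (y k)) : Gf D A h y = h x := by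
  have hex : ∃ x ∈ D.X, ∀ k, D.Tr (A k) x = e (y k) := ⟨x, hx, hxy⟩
  unfold Gf
  rw [dif_pos hex]
  congr 1
  refine Tr_inj D hE A hA _ _ fun k => ?_
  rw [hex.choose_spec.2 k, hxy k]

theorem cls_sum (D : Ctx K m) (hE : Emb D.σ) (A : Fin (m + 1) → K) (hA : LinearIndependent F A)
    (h : 𝓞 K → ℂ) (M : O) (hM0 : M ≠ 0)
    (hint : ∀ x ∈ D.X, ∀ k, ∃ y : O, D.Tr (A k) x = e y ∧ ¬ M ∣ y)
    (hM : ∀ y : Fin (m + 1) → O, ∃ x ∈ D.I, (∀ z, h (z + x) = h z) ∧
      ∀ k, D.Tr (A k) x = e (M * y k)) :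
    (∀ R : ℝ, 0 < R → Summable fun x : D.X => h x * (∏ k, (D.Tr (A k) x)⁻¹) * (D.pcut A R x : ℂ)) ∧
    Filter.Tendsto (fun R : ℝ => ∑' x : D.X, h x * (∏ k, (D.Tr (A k) x)⁻¹) * (D.pcut A R x : ℂ))
      Filter.atTop (nhds (SO (m + 1) M fun y => Gf D A h y *
        ∏ k, (3 / e M * sl (3 * e (y k) / e M)))) := by
  classical
  -- coordinates
  have hY : ∀ x : D.X, ∃ y : Fin (m + 1) → O, ∀ k, D.Tr (A k) x = e (y k) ∧ ¬ M ∣ y k := by
    intro x
    choose y hy using hint x x.2
    exact ⟨y, hy⟩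
  choose Y hYY using hY
  choose z hzI hzc hzT using hM
  have hm0 : e M ≠ 0 := by
    intro h0
    apply hM0
    apply e_injective
    rw [h0, map_zero]
  have hfin : Finite (O ⧸ Ideal.span {M}) :=
    Ideal.finiteQuotientOfFreeOfNeBot _ (fun h => hM0 (Ideal.span_singleton_eq_bot.1 h))
  have hfin' : Finite (Fin (m + 1) → (O ⧸ Ideal.span {M})) := inferInstance
  letI : Fintype (Fin (m + 1) → (O ⧸ Ideal.span {M})) := Fintype.ofFinite _
  let q : D.X → (Fin (m + 1) → (O ⧸ Ideal.span {M})) := fun x k =>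
    Ideal.Quotient.mk (Ideal.span {M}) (Y x k)
  let T : ℝ → D.X → ℂ := fun R x => h x * (∏ k, (D.Tr (A k) x)⁻¹) * (D.pcut A R x : ℂ)
  let φ : ℝ → O → O → ℂ := fun R α y => (e α + e M * e y)⁻¹ *
      ((R ^ 2 / (R ^ 2 + ‖e α + e M * e y‖ ^ 2) : ℝ) : ℂ)
  let G : (Fin (m + 1) → O) → ℂ := fun y => Gf D A h y *
        ∏ k, (3 / e M * sl (3 * e (y k) / e M))
  let L : (Fin (m + 1) → (O ⧸ Ideal.span {M})) → ℂ := fun c => G fun k => Quotient.out (c k)
  have hclass : ∀ c : Fin (m + 1) → (O ⧸ Ideal.span {M}), ∃ (V : ℝ → ℂ),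
      (∀ R : ℝ, 0 < R → HasSum (fun x : D.X => if q x = c then T R x else 0) (V R)) ∧
      Filter.Tendsto V Filter.atTop (nhds (L c)) := by
    intro c
    by_cases hc : ∃ x₁ : D.X, q x₁ = c
    · obtain ⟨x₁, hx₁⟩ := hc
      -- a representative with the prescribed traces
      have hout : ∀ k, ∃ t : O, Quotient.out (c k) = Y x₁ k + M * t := by
        intro k
        have h1 : Ideal.Quotient.mk (Ideal.span {M}) (Quotient.out (c k)) =
            Ideal.Quotient.mk (Ideal.span {M}) (Y x₁ k) := by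
          have h2 : Ideal.Quotient.mk (Ideal.span {M}) (Quotient.out (c k)) = c k :=
            Quotient.out_eq (c k)
          rw [h2, ← hx₁]
        obtain ⟨t, ht⟩ := Ideal.mem_span_singleton.1 (Ideal.Quotient.eq.1 h1)
        exact ⟨t, by rw [← ht]; ring⟩
      choose t₁ ht₁ using hout
      obtain ⟨x₀, hx₀⟩ : ∃ x₀ : D.X, ∀ k, D.Tr (A k) x₀ = e (Quotient.out (c k)) := by
        refine ⟨⟨x₁ + z t₁, D.X_add x₁.2 (hzI t₁)⟩, fun k => ?_⟩
        show D.Tr (A k) (x₁ + z t₁) = _
        rw [D.Tr_add, (hYY x₁ k).1, hzT, ht₁ k, map_add]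
      have hY0 : ∀ k, Y x₀ k = Quotient.out (c k) := by
        intro k
        apply e_injective
        rw [← (hYY x₀ k).1, hx₀ k]
      have hq0 : q x₀ = c := by
        funext k
        show Ideal.Quotient.mk (Ideal.span {M}) (Y x₀ k) = c k
        rw [hY0 k]
        exact Quotient.out_eq (c k)
      have hLc : L c = h x₀ * ∏ k, (3 / e M * sl (3 * e (Y x₀ k) / e M)) := by
        show Gf D A h (fun k => Quotient.out (c k)) *
          ∏ k, (3 / e M * sl (3 * e (Quotient.out (c k)) / e M)) = _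
        rw [w4_Gf D hE A hA h _ x₀ x₀.2 hx₀]
        congr 1
        refine Finset.prod_congr rfl fun k _ => ?_
        rw [hY0 k]
      rw [hLc, ← hq0]
      have hE1 := fun k => one_var (Y x₀ k) M hM0 (hYY x₀ k).2
      let j : (Fin (m + 1) → O) → D.X := fun y => ⟨x₀ + z y, D.X_add x₀.2 (hzI y)⟩
      have hjT : ∀ y k, D.Tr (A k) (j y) = e (Y x₀ k) + e M * e (y k) := by
        intro y k
        show D.Tr (A k) (x₀ + z y) = _
        rw [D.Tr_add, (hYY x₀ k).1, hzT, map_mul]
      have hjY : ∀ y k, Y (j y) k = Y x₀ k + M * y k := by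
        intro y k
        apply e_injective
        rw [← (hYY (j y) k).1, hjT, map_add, map_mul]
      have hjinj : Function.Injective j := by
        intro y y' h
        funext k
        have h1 := hjT y k
        rw [h, hjT y' k] at h1
        have h2 : e (y' k) = e (y k) := mul_left_cancel₀ hm0 (add_left_cancel h1)
        exact (e_injective h2).symm
      have hjq : ∀ y, q (j y) = q x₀ := by
        intro y
        funext k
        show Ideal.Quotient.mk _ (Y (j y) k) = Ideal.Quotient.mk _ (Y x₀ k)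
        rw [hjY, Ideal.Quotient.eq, add_sub_cancel_left]
        exact Ideal.mul_mem_right _ _ (Ideal.mem_span_singleton_self _)
      have hjr : ∀ x : D.X, q x = q x₀ → x ∈ Set.range j := by
        intro x hx
        have h1 : ∀ k, ∃ t : O, Y x k - Y x₀ k = M * t := by
          intro k
          have h2 : Ideal.Quotient.mk (Ideal.span {M}) (Y x k) =
              Ideal.Quotient.mk (Ideal.span {M}) (Y x₀ k) := congrFun hx k
          exact Ideal.mem_span_singleton.1 (Ideal.Quotient.eq.1 h2)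
        choose t ht using h1
        refine ⟨t, Subtype.ext ?_⟩
        show (x₀ : 𝓞 K) + z t = x
        have h2 : z t = x - x₀ := by
          refine Tr_inj D hE A hA _ _ fun k => ?_
          rw [hzT, D.Tr_sub, (hYY x k).1, (hYY x₀ k).1, ← map_sub, ht k]
        rw [h2]; ring
      refine ⟨fun R => h x₀ * ∏ k, ∑' y, φ R (Y x₀ k) y, ?_, ?_⟩
      · intro R hR
        have hs := (pi_hasSum (m + 1) (fun k => φ R (Y x₀ k)) (fun k => (hE1 k).1 R hR)).mul_left
          (h x₀)
        refine (hjinj.hasSum_iff ?_).1 ?_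
        · intro x hx
          exact if_neg fun h => hx (hjr x h)
        · have hcongr : ((fun x : D.X => if q x = q x₀ then T R x else 0) ∘ j) =
              fun y => h x₀ * ∏ k, φ R (Y x₀ k) (y k) := by
            funext y
            show (if q (j y) = q x₀ then T R (j y) else 0) = _
            rw [if_pos (hjq y)]
            show h ((x₀ : 𝓞 K) + z y) * (∏ k, (D.Tr (A k) (j y))⁻¹) *
              ((∏ k, R ^ 2 / (R ^ 2 + ‖D.Tr (A k) (j y)‖ ^ 2) : ℝ) : ℂ) = _
            rw [hzc y, Complex.ofReal_prod, mul_assoc, ← Finset.prod_mul_distrib]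
            congr 1
            refine Finset.prod_congr rfl fun k _ => ?_
            rw [hjT]
          rw [hcongr]
          exact hs
      · exact (tendsto_finsetProd _ fun k _ => (hE1 k).2).const_mul _
    · refine ⟨fun _ => 0, fun R _ => ?_, ?_⟩
      · have : (fun x : D.X => if q x = c then T R x else 0) = fun _ => 0 := by
          funext x
          exact if_neg fun h => hc ⟨x, h⟩
        rw [this]
        exact hasSum_zero
      · have hL0 : L c = 0 := by
          show Gf D A h (fun k => Quotient.out (c k)) * _ = 0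
          have h1 : ¬ ∃ x ∈ D.X, ∀ k, D.Tr (A k) x = e (Quotient.out (c k)) := by
            rintro ⟨x, hx, hxy⟩
            apply hc
            refine ⟨⟨x, hx⟩, ?_⟩
            funext k
            show Ideal.Quotient.mk (Ideal.span {M}) (Y ⟨x, hx⟩ k) = c k
            have h2 : Y ⟨x, hx⟩ k = Quotient.out (c k) := by
              apply e_injective
              rw [← (hYY ⟨x, hx⟩ k).1]
              exact hxy k
            rw [h2]
            exact Quotient.out_eq (c k)
          have h2 : Gf D A h (fun k => Quotient.out (c k)) = 0 := by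
            unfold Gf
            rw [dif_neg h1]
          rw [h2, zero_mul]
        rw [hL0]
        exact tendsto_const_nhds
  choose V hV hL using hclass
  have hsum : ∀ R : ℝ, 0 < R → HasSum (T R) (∑ c, V c R) := by
    intro R hR
    have h1 := hasSum_sum (s := Finset.univ) (fun c _ => hV c R hR)
    have h2 : (fun x : D.X => ∑ c, if q x = c then T R x else 0) = T R := by
      funext x
      rw [Finset.sum_ite_eq]
      exact if_pos (Finset.mem_univ _)
    rw [h2] at h1
    exact h1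
  have hSO : SO (m + 1) M G = ∑ c, L c := by
    unfold SO
    rw [finsum_eq_sum_of_fintype]
  refine ⟨fun R hR => (hsum R hR).summable, ?_⟩
  show Filter.Tendsto (fun R : ℝ => ∑' x : D.X, T R x) Filter.atTop (nhds (SO (m + 1) M G))
  rw [hSO]
  refine (tendsto_finsetSum _ fun c _ => hL c).congr' ?_
  filter_upwards [Filter.eventually_gt_atTop 0] with R hR
  exact (hsum R hR).tsum_eq.symm

end H35N
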