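import Mathlib
import Pool.Agent.Lib.H35N.I0

open NumberField IsDedekindDomain

namespace H35N

open H55B H55N H19T

/-! Chunk G1 (M). Write z_k for the integer (z k).valMinAbs in {0, 1, -1}. Facts: for z in ZMod 3, with s = e sq3 = om - om^2 (s = 2 om + 1, s^2 = -3): s z = om^z - om^(2z) and 3 z^2 = 2 - om^z -
om^(2z) (three cases; om^(x).val is multiplicative in x since om^3 = 1). Hence for disjoint sets S1, S2 of indices, s^|S1| 3^|S2| M(S1,S2), M(S1,S2) := sum_z κ z prod_{S1} z_k prod_{S2} z_k^2, is a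
combination with integer coefficients (products of 1, -1, 2) of the sums G(t) = sum_z κ z om^(t.z): Finset.prod_add / induction over S1 and S2 (more convenient: prove by induction on a finset
S the statement for all t and all weights c_k z_k + d_k z_k^2 ..). This is G1_M: V(M(S1,S2)) V(q)^(2|S1|+4|S2|) <= V(q)^(2n), as V(s) = V(q)^2, V(3) = V(q)^4 and G(t)/q^(2n) is integral. Also
M(S1,S2) is an integer.
G1 (fin_int): expand the product over k (Finset.prod_add twice, or index functions φ : Fin n -> Fin 3 choosing one of the three terms: Finset.prod_univ_sum / Fintype.piFinset): the sum is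
sum_φ prod_{φ k = 0} a_k prod_{φ k = 2} b_k prod_{φ k = 1} (-d_k) M(S1,S2), S1 = {φ = 1}, S2 = {φ = 2}; n0, n1, n2 the cardinalities, n = n0 + n1 + n2. prod a_k = prod (q a_k)/q^n0,
prod b_k = q^n2 prod (b_k/q). If n0 <= n2: the term is integral because M is and q^(n2-n0) is. If n0 > n2: M/q^(2(n0-n2)) is integral by G1_M (2n - 2 n1 - 4 n2 = 2(n0-n2)), and the term is
(integral) q^(-(n0-n2)) M = (integral) q^(n0-n2) M/q^(2(n0-n2)). -/

theorem g1_zeta : (e om) ^ 3 = 1 ∧ 1 + e om + (e om) ^ 2 = 0 := by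
  have h := e_om_rel
  constructor
  · linear_combination (e om - 1) * h
  · linear_combination h

/-- The monomials 1, z, z^2. -/
noncomputable def g1_m (j : Fin 3) (z : ZMod 3) : ℂ := (z.valMinAbs : ℂ) ^ (j : ℕ)

/-- The normalised monomials. -/
noncomputable def g1_s : Fin 3 → ℂ := ![1, e om - e om ^ 2, 3]

/-- Weights of characters. -/
def g1_w : Fin 3 → ZMod 3 → ℤ := ![![1, 0, 0], ![0, 1, -1], ![2, -1, -1]]

theorem g1_sum3 (f : ZMod 3 → ℂ) : ∑ t, f t = f 0 + f 1 + f 2 :=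
  Fin.sum_univ_three f

theorem g1_key (z : ZMod 3) : e om ^ (0 * z).val = 1 ∧
    e om ^ (1 * z).val - e om ^ (2 * z).val = (e om - e om ^ 2) * (z.valMinAbs : ℂ) ∧
    2 - e om ^ (1 * z).val - e om ^ (2 * z).val = 3 * (z.valMinAbs : ℂ) ^ 2 := by
  obtain ⟨h3, h0⟩ := g1_zeta
  have hz : z = 0 ∨ z = 1 ∨ z = 2 := by
    revert z
    decide
  rcases hz with rfl | rfl | rfl
  · have e1 : ((0 : ZMod 3)).valMinAbs = 0 := by decide
    have v0 : (0 * 0 : ZMod 3).val = 0 := by decide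
    have v1 : (1 * 0 : ZMod 3).val = 0 := by decide
    have v2 : (2 * 0 : ZMod 3).val = 0 := by decide
    rw [e1, v0, v1, v2]
    norm_num
  · have e1 : ((1 : ZMod 3)).valMinAbs = 1 := by decide
    have v0 : (0 * 1 : ZMod 3).val = 0 := by decide
    have v1 : (1 * 1 : ZMod 3).val = 1 := by decide
    have v2 : (2 * 1 : ZMod 3).val = 2 := by decide
    rw [e1, v0, v1, v2]
    refine ⟨by norm_num, by norm_num, ?_⟩
    push_cast
    linear_combination -h0
  · have e1 : ((2 : ZMod 3)).valMinAbs = -1 := by decide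
    have v0 : (0 * 2 : ZMod 3).val = 0 := by decide
    have v1 : (1 * 2 : ZMod 3).val = 2 := by decide
    have v2 : (2 * 2 : ZMod 3).val = 1 := by decide
    rw [e1, v0, v1, v2]
    refine ⟨by norm_num, ?_, ?_⟩
    · push_cast
      ring
    · push_cast
      linear_combination -h0

theorem g1_char (j : Fin 3) (z : ZMod 3) :
    g1_s j * g1_m j z = ∑ t : ZMod 3, (g1_w j t : ℂ) * e om ^ (t * z).val := by
  obtain ⟨k1, k2, k3⟩ := g1_key z
  rw [g1_sum3]
  fin_cases j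
  · show (1 : ℂ) * (z.valMinAbs : ℂ) ^ 0 = ((1 : ℤ) : ℂ) * e om ^ (0 * z).val +
      ((0 : ℤ) : ℂ) * e om ^ (1 * z).val + ((0 : ℤ) : ℂ) * e om ^ (2 * z).val
    rw [k1]
    push_cast
    ring
  · show (e om - e om ^ 2) * (z.valMinAbs : ℂ) ^ 1 = ((0 : ℤ) : ℂ) * e om ^ (0 * z).val +
      ((1 : ℤ) : ℂ) * e om ^ (1 * z).val + ((-1 : ℤ) : ℂ) * e om ^ (2 * z).val
    rw [pow_one, ← k2]
    push_cast
    ring
  · show (3 : ℂ) * (z.valMinAbs : ℂ) ^ 2 = ((2 : ℤ) : ℂ) * e om ^ (0 * z).val +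
      ((-1 : ℤ) : ℂ) * e om ^ (1 * z).val + ((-1 : ℤ) : ℂ) * e om ^ (2 * z).val
    rw [k1, ← k3]
    push_cast
    ring

theorem g1_pow (a : ℕ) : e om ^ a = e om ^ (a % 3) := by
  conv_lhs => rw [← Nat.div_add_mod a 3]
  rw [pow_add, pow_mul, g1_zeta.1, one_pow, one_mul]

theorem g1_add (x y : ZMod 3) : e om ^ (x + y).val = e om ^ x.val * e om ^ y.val := by
  rw [ZMod.val_add, ← g1_pow, pow_add]

theorem g1_prod {n : ℕ} (f : Fin n → ZMod 3) : ∏ k, e om ^ (f k).val = e om ^ (∑ k, f k).val := by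
  classical
  have h : ∀ s : Finset (Fin n), ∏ k ∈ s, e om ^ (f k).val = e om ^ (∑ k ∈ s, f k).val := by
    intro s
    induction s using Finset.induction_on with
    | empty => simp
    | insert a s ha ih => rw [Finset.prod_insert ha, Finset.sum_insert ha, ih, g1_add]
  exact h Finset.univ

/-- The sum of a monomial. -/
noncomputable def g1_M (n : ℕ) (κ : (Fin n → ZMod 3) → ℂ) (φ : Fin n → Fin 3) : ℂ :=
  ∑ z, κ z * ∏ k, g1_m (φ k) (z k)

theorem g1_MG (n : ℕ) (κ : (Fin n → ZMod 3) → ℂ) (φ : Fin n → Fin 3) :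
    (∏ k, g1_s (φ k)) * g1_M n κ φ = ∑ τ : Fin n → ZMod 3, (∏ k, (g1_w (φ k) (τ k) : ℂ)) *
      ∑ z, κ z * e om ^ (∑ k, τ k * z k).val := by
  classical
  have h1 : ∀ z : Fin n → ZMod 3, (∏ k, g1_s (φ k)) * ∏ k, g1_m (φ k) (z k) =
      ∑ τ : Fin n → ZMod 3, (∏ k, (g1_w (φ k) (τ k) : ℂ)) * e om ^ (∑ k, τ k * z k).val := by
    intro z
    rw [← Finset.prod_mul_distrib, Finset.prod_congr rfl fun k _ => g1_char (φ k) (z k),
      Finset.prod_univ_sum, Fintype.piFinset_univ]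
    refine Finset.sum_congr rfl fun τ _ => ?_
    rw [Finset.prod_mul_distrib, g1_prod]
  unfold g1_M
  simp only [Finset.mul_sum]
  rw [Finset.sum_comm]
  refine Finset.sum_congr rfl fun z _ => ?_
  have h2 := h1 z
  calc (∏ k, g1_s (φ k)) * (κ z * ∏ k, g1_m (φ k) (z k)) =
      κ z * ((∏ k, g1_s (φ k)) * ∏ k, g1_m (φ k) (z k)) := by ring
    _ = _ := by
        rw [h2, Finset.mul_sum]
        refine Finset.sum_congr rfl fun τ _ => ?_
        ring

theorem g1_expand (n : ℕ) (κ : (Fin n → ZMod 3) → ℂ) (c : Fin 3 → Fin n → ℂ) :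
    ∑ z, κ z * ∏ k, (∑ j : Fin 3, c j k * g1_m j (z k)) =
      ∑ φ : Fin n → Fin 3, (∏ k, c (φ k) k) * g1_M n κ φ := by
  classical
  unfold g1_M
  simp only [Finset.mul_sum]
  rw [Finset.sum_comm]
  refine Finset.sum_congr rfl fun z _ => ?_
  rw [Finset.prod_univ_sum, Fintype.piFinset_univ, Finset.mul_sum]
  refine Finset.sum_congr rfl fun φ _ => ?_
  rw [Finset.prod_mul_distrib]
  ring

theorem g1_M_int (n : ℕ) (κ : (Fin n → ZMod 3) → ℂ) (hκ : ∀ z, κ z = 0 ∨ κ z = 1 ∨ κ z = -1)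
    (φ : Fin n → Fin 3) : Int3 (g1_M n κ φ) := by
  refine i3_sum _ _ fun z _ => i3_mul ?_ (i3_prod _ _ fun k _ => ?_)
  · rcases hκ z with h | h | h <;> rw [h]
    · exact i3_zero
    · exact i3_one
    · exact i3_neg i3_one
  · exact i3_pow (i3_intCast _) _

theorem fin_int (n : ℕ) (q : ℂ) (hq : q ^ 4 = 3) (κ : (Fin n → ZMod 3) → ℂ)
    (hκ : ∀ z, κ z = 0 ∨ κ z = 1 ∨ κ z = -1)
    (hG : ∀ t : Fin n → ZMod 3, Int3 ((∑ z, κ z * e om ^ (∑ k, t k * z k).val) / q ^ (2 * n)))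
    (a b d : Fin n → ℂ) (ha : ∀ k, Int3 (q * a k)) (hb : ∀ k, Int3 (b k / q))
    (hd : ∀ k, Int3 (d k)) :
    Int3 (∑ z, κ z * ∏ k, (a k + ((z k).valMinAbs : ℂ) ^ 2 * b k - ((z k).valMinAbs : ℂ) * d k)) := by
  classical
  have hq0 : q ≠ 0 := by
    rintro rfl
    norm_num at hq
  set c : Fin 3 → Fin n → ℂ := ![a, fun k => -d k, b] with hc
  have hterm : ∀ (z : Fin n → ZMod 3) (k : Fin n), a k + ((z k).valMinAbs : ℂ) ^ 2 * b k -
      ((z k).valMinAbs : ℂ) * d k = ∑ j : Fin 3, c j k * g1_m j (z k) := by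
    intro z k
    rw [Fin.sum_univ_three]
    show _ = a k * ((z k).valMinAbs : ℂ) ^ 0 + -d k * ((z k).valMinAbs : ℂ) ^ 1 +
      b k * ((z k).valMinAbs : ℂ) ^ 2
    ring
  have hrw : ∑ z, κ z * ∏ k, (a k + ((z k).valMinAbs : ℂ) ^ 2 * b k -
      ((z k).valMinAbs : ℂ) * d k) = ∑ φ : Fin n → Fin 3, (∏ k, c (φ k) k) * g1_M n κ φ := by
    rw [← g1_expand]
    refine Finset.sum_congr rfl fun z _ => ?_
    rw [Finset.prod_congr rfl fun k _ => hterm z k]
  rw [hrw]
  refine i3_sum _ _ fun φ _ => ?_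
  intro V hV
  set v := V.valuation q with hv
  have hv0 : v ≠ 0 := by
    rw [hv]
    exact (Valuation.ne_zero_iff _).2 hq0
  have h3 : V.valuation 3 = v ^ 4 := by rw [hv, ← map_pow, hq]
  have hs : V.valuation (e om - e om ^ 2) = v ^ 2 := by
    have h1 : (e om - e om ^ 2) ^ 2 = -3 := by
      obtain ⟨h3, h0⟩ := g1_zeta
      linear_combination h0 + (e om - 2) * h3
    have h2 : V.valuation (e om - e om ^ 2) ^ 2 = (v ^ 2) ^ 2 := by
      rw [← map_pow, h1, Valuation.map_neg, h3, ← pow_mul]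
    exact (pow_left_inj₀ zero_le zero_le two_ne_zero).1 h2
  set β : Fin 3 → V.ValueGroup := ![v⁻¹ ^ 2, 1, v ^ 2] with hβ
  have hsβ : ∀ j, V.valuation (g1_s j) = v ^ 2 * β j := by
    intro j
    fin_cases j
    · show V.valuation (1 : ℂ) = v ^ 2 * v⁻¹ ^ 2
      rw [map_one, ← mul_pow, mul_inv_cancel₀ hv0, one_pow]
    · show V.valuation (e om - e om ^ 2) = v ^ 2 * 1
      rw [hs, mul_one]
    · show V.valuation (3 : ℂ) = v ^ 2 * v ^ 2
      rw [h3, ← pow_add]
  have hcβ : ∀ j k, V.valuation (c j k) ^ 2 ≤ β j := by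
    intro j k
    fin_cases j
    · show V.valuation (a k) ^ 2 ≤ v⁻¹ ^ 2
      have h1 := ha k V hV
      rw [map_mul, ← hv] at h1
      have h2 : V.valuation (a k) ≤ v⁻¹ := by
        calc V.valuation (a k) = v⁻¹ * (v * V.valuation (a k)) := by
              rw [← mul_assoc, inv_mul_cancel₀ hv0, one_mul]
          _ ≤ v⁻¹ * 1 := mul_le_mul_right h1 _
          _ = v⁻¹ := mul_one _
      exact pow_le_pow_left₀ zero_le h2 2
    · show V.valuation (-d k) ^ 2 ≤ 1
      rw [Valuation.map_neg]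
      exact pow_le_one' (hd k V hV) 2
    · show V.valuation (b k) ^ 2 ≤ v ^ 2
      have h1 := hb k V hV
      have h2 : b k = q * (b k / q) := by field_simp
      rw [h2, map_mul, ← hv]
      refine pow_le_pow_left₀ zero_le ?_ 2
      calc v * V.valuation (b k / q) ≤ v * 1 := mul_le_mul_right h1 _
        _ = v := mul_one _
  -- the bound for the monomial sum
  have hM1 : V.valuation (g1_M n κ φ) ≤ 1 := g1_M_int n κ hκ φ V hV
  have hM2 : V.valuation (g1_M n κ φ) * ∏ k, β (φ k) ≤ 1 := by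
    have h1 : Int3 ((∏ k, g1_s (φ k)) * g1_M n κ φ / q ^ (2 * n)) := by
      rw [g1_MG, Finset.sum_div]
      refine i3_sum _ _ fun τ _ => ?_
      rw [mul_div_assoc]
      refine i3_mul (i3_prod _ _ fun k _ => i3_intCast _) ?_
      exact hG τ
    have h2 := h1 V hV
    rw [map_div₀, map_mul, map_prod, map_pow, ← hv, Finset.prod_congr rfl fun k _ => hsβ (φ k),
      Finset.prod_mul_distrib, Finset.prod_const, Finset.card_univ, Fintype.card_fin,
      ← pow_mul] at h2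
    have h4 : v ^ (2 * n) ≠ 0 := pow_ne_zero _ hv0
    calc V.valuation (g1_M n κ φ) * ∏ k, β (φ k) =
        v ^ (2 * n) * (∏ k, β (φ k)) * V.valuation (g1_M n κ φ) / v ^ (2 * n) := by
          rw [mul_assoc, mul_div_assoc, mul_comm (∏ k, β (φ k)), mul_div_assoc']
          rw [mul_div_cancel_left₀ _ h4]
      _ ≤ 1 := h2
  have hP : V.valuation (∏ k, c (φ k) k) ^ 2 ≤ ∏ k, β (φ k) := by
    rw [map_prod, ← Finset.prod_pow]
    exact Finset.prod_le_prod' fun k _ => hcβ (φ k) k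
  rw [map_mul]
  by_contra hcon
  push Not at hcon
  have h5 : 1 < (V.valuation (∏ k, c (φ k) k) * V.valuation (g1_M n κ φ)) ^ 2 :=
    one_lt_pow₀ hcon two_ne_zero
  have h6 : (V.valuation (∏ k, c (φ k) k) * V.valuation (g1_M n κ φ)) ^ 2 ≤ 1 := by
    calc (V.valuation (∏ k, c (φ k) k) * V.valuation (g1_M n κ φ)) ^ 2 =
        V.valuation (∏ k, c (φ k) k) ^ 2 * V.valuation (g1_M n κ φ) ^ 2 := mul_pow _ _ _
      _ ≤ (∏ k, β (φ k)) * V.valuation (g1_M n κ φ) ^ 2 := mul_le_mul_left hP _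
      _ = V.valuation (g1_M n κ φ) * (∏ k, β (φ k)) * V.valuation (g1_M n κ φ) := by
          rw [sq, ← mul_assoc, mul_comm (∏ k, β (φ k))]
      _ ≤ 1 * 1 := mul_le_mul' hM2 hM1
      _ = 1 := one_mul 1
  exact absurd h6 (not_le.2 h5)

end H35N
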