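import Mathlib
import Pool.Agent.Lib.H35N.G1
import Pool.Agent.Lib.H35N.W2

open NumberField IsDedekindDomain

namespace H35N

open H55B H55N H19T

/-! Chunk W5 (M). Killing the constant c. Expand prod_k (P_k - z_k c), P_k = a(y_k) + z_k^2 b(y_k) - z_k d(y_k), over the subsets S of Fin n (Finset.prod_sub or prod_add): the term of S is
κ z (prod_{k not in S} P_k) (-c)^|S| prod_{k in S} z_k. For S empty: G0(y) sum_z κ z prod P_k is integral by fin_int (G1) when G0 y is not 0 (trivial otherwise), and G0 y is integral: SO_int. For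
S nonempty take k₀ in S and t, p as in hsm: H(y) = sum_z .. (the term of S without G0) does not depend on y_(k₀): H(y + j t e_(k₀)) = H(y), so p SO(G0 H) = sum_{j<p} SO(y -> G0(y + j t e) H(y + j t e)) =
SO(H(y) sum_{j<p} G0(y + j t e)) = 0 (SO_shift, SO_sum, SO_congr; G0 and H are m₁-periodic), and p is not 0. -/

theorem fin_total (n m₁ : ℕ) (hm₁ : m₁ ≠ 0) (q : ℂ) (hq : q ^ 4 = 3) (G0 : (Fin n → O) → ℂ)
    (hper : ∀ y t : Fin n → O, G0 (fun k => y k + m₁ * t k) = G0 y) (hint : ∀ y, Int3 (G0 y))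
    (hsm : ∀ k₀ : Fin n, ∃ (t : O) (p : ℕ), p ≠ 0 ∧ ∀ y : Fin n → O, ∑ j ∈ Finset.range p,
      G0 (fun k => y k + if k = k₀ then (j : O) * t else 0) = 0)
    (κ : (Fin n → ZMod 3) → ℂ) (hκ : ∀ z, κ z = 0 ∨ κ z = 1 ∨ κ z = -1)
    (hG : ∀ t : Fin n → ZMod 3, Int3 ((∑ z, κ z * e om ^ (∑ k, t k * z k).val) / q ^ (2 * n)))
    (a b d : O → ℂ) (ha : ∀ y t : O, a (y + m₁ * t) = a y) (hb : ∀ y t : O, b (y + m₁ * t) = b y)
    (hd : ∀ y t : O, d (y + m₁ * t) = d y)
    (hab : ∀ y, G0 y ≠ 0 → ∀ k, Int3 (q * a (y k)) ∧ Int3 (b (y k) / q) ∧ Int3 (d (y k)))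
    (c : ℂ) :
    Int3 (SO n m₁ fun y => G0 y * ∑ z, κ z * ∏ k, (a (y k) + ((z k).valMinAbs : ℂ) ^ 2 * b (y k) -
      ((z k).valMinAbs : ℂ) * (d (y k) + c))) := by
  classical
  have hm₁' : (m₁ : O) ≠ 0 := Nat.cast_ne_zero.2 hm₁
  set P : (Fin n → O) → (Fin n → ZMod 3) → Fin n → ℂ := fun y z k =>
    a (y k) + ((z k).valMinAbs : ℂ) ^ 2 * b (y k) - ((z k).valMinAbs : ℂ) * d (y k) with hP
  set H : Finset (Fin n) → (Fin n → O) → ℂ := fun T y =>
    ∑ z, κ z * ((∏ k ∈ T, P y z k) * ∏ k ∈ Finset.univ \ T, (-(((z k).valMinAbs : ℂ) * c)))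
    with hH
  have hexp : ∀ y, G0 y * ∑ z, κ z * ∏ k, (a (y k) + ((z k).valMinAbs : ℂ) ^ 2 * b (y k) -
      ((z k).valMinAbs : ℂ) * (d (y k) + c)) =
      ∑ T ∈ (Finset.univ : Finset (Fin n)).powerset, G0 y * H T y := by
    intro y
    rw [← Finset.mul_sum]
    congr 1
    rw [hH]
    dsimp only
    rw [Finset.sum_comm]
    refine Finset.sum_congr rfl fun z _ => ?_
    rw [← Finset.mul_sum, ← Finset.prod_add]
    congr 1
    refine Finset.prod_congr rfl fun k _ => ?_
    rw [hP]
    ring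
  rw [SO_congr n m₁ _ _ hexp, SO_sum _ n m₁ hm₁']
  refine i3_sum _ _ fun T _ => ?_
  by_cases hT : T = Finset.univ
  · refine SO_int n m₁ hm₁' _ fun y => ?_
    by_cases hy : G0 y = 0
    · rw [hy, zero_mul]
      exact i3_zero
    · refine i3_mul (hint y) ?_
      have h1 : H T y = ∑ z, κ z * ∏ k, (a (y k) + ((z k).valMinAbs : ℂ) ^ 2 * b (y k) -
          ((z k).valMinAbs : ℂ) * d (y k)) := by
        rw [hH]
        dsimp only
        refine Finset.sum_congr rfl fun z _ => ?_
        rw [hT, Finset.sdiff_self, Finset.prod_empty, mul_one]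
      rw [h1]
      exact fin_int n q hq κ hκ hG (fun k => a (y k)) (fun k => b (y k)) (fun k => d (y k))
        (fun k => (hab y hy k).1) (fun k => (hab y hy k).2.1) (fun k => (hab y hy k).2.2)
  · obtain ⟨k₀, hk₀⟩ : ∃ k₀, k₀ ∉ T := by
      by_contra hcon
      push Not at hcon
      exact hT (Finset.eq_univ_iff_forall.2 hcon)
    obtain ⟨t, p, hp, hsum⟩ := hsm k₀
    have hHinv : ∀ (y : Fin n → O) (x : O), H T (fun k => y k + if k = k₀ then x else 0) =
        H T y := by
      intro y x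
      rw [hH]
      dsimp only
      refine Finset.sum_congr rfl fun z _ => ?_
      congr 2
      refine Finset.prod_congr rfl fun k hk => ?_
      have hkk : k ≠ k₀ := fun h => hk₀ (h ▸ hk)
      rw [hP]
      dsimp only
      rw [if_neg hkk, add_zero]
    have hHper : ∀ y s : Fin n → O, H T (fun k => y k + m₁ * s k) = H T y := by
      intro y s
      rw [hH]
      dsimp only
      refine Finset.sum_congr rfl fun z _ => ?_
      congr 2
      refine Finset.prod_congr rfl fun k _ => ?_
      rw [hP]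
      dsimp only
      rw [ha, hb, hd]
    have hper2 : ∀ y s : Fin n → O, (fun y => G0 y * H T y) (fun k => y k + m₁ * s k) =
        (fun y => G0 y * H T y) y := by
      intro y s
      dsimp only
      rw [hper, hHper]
    have h1 : ∀ j : ℕ, SO n m₁ (fun y => (fun y => G0 y * H T y)
        fun k => y k + (fun k => if k = k₀ then (j : O) * t else 0) k) =
        SO n m₁ (fun y => G0 y * H T y) := fun j =>
      SO_shift n (m₁ : O) hm₁' (fun y => G0 y * H T y) hper2
        (fun k => if k = k₀ then (j : O) * t else 0)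
    have h2 : (p : ℂ) * SO n m₁ (fun y => G0 y * H T y) = 0 := by
      calc (p : ℂ) * SO n m₁ (fun y => G0 y * H T y) =
          ∑ j ∈ Finset.range p, SO n m₁ (fun y => (fun y => G0 y * H T y)
            fun k => y k + (fun k => if k = k₀ then (j : O) * t else 0) k) := by
            rw [Finset.sum_congr rfl fun j _ => h1 j, Finset.sum_const, Finset.card_range,
              nsmul_eq_mul]
        _ = SO n m₁ (fun y => ∑ j ∈ Finset.range p, (fun y => G0 y * H T y)
            fun k => y k + (fun k => if k = k₀ then (j : O) * t else 0) k) :=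
            (SO_sum _ n m₁ hm₁' _).symm
        _ = SO n m₁ (fun y => 0 * H T y) := by
            refine SO_congr n m₁ _ _ fun y => ?_
            dsimp only
            rw [← hsum y, Finset.sum_mul]
            exact Finset.sum_congr rfl fun j _ => by rw [hHinv]
        _ = 0 := by rw [SO_mul n m₁ hm₁', zero_mul]
    have h3 : SO n m₁ (fun y => G0 y * H T y) = 0 := by
      rcases mul_eq_zero.1 h2 with h | h
      · exact absurd (Nat.cast_eq_zero.1 h) hp
      · exact h
    rw [h3]
    exact i3_zero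

end H35N
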