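import Mathlib
import Pool.Agent.Lib.H35N.U3
import Pool.Agent.Lib.H35T.W7

open NumberField IsDedekindDomain

namespace H35N

open H55B H55N H19T

variable {K : Type} [Field K] [NumberField K] [Algebra F K]

/-! Chunk L1 (S/M). natural numbers prime to 3 in ideals prime to 3: N = absNorm J (compare L1_odd in H55N/L1 and E9_odd; not divisible by 3: otherwise a maximal ideal contains J and 3, H35T.W7_max). -/

theorem L1_three (K : Type) [Field K] [NumberField K] :
    Ideal.span {(3 : 𝓞 K)} ≠ ⊤ := by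
  intro h
  have hy : (1 : 𝓞 K) ∈ Ideal.span {(3 : 𝓞 K)} := by rw [h]; exact Submodule.mem_top
  rw [Ideal.mem_span_singleton] at hy
  obtain ⟨c, hc⟩ := hy
  have h1 := congrArg (Algebra.norm ℤ) hc
  rw [map_one, map_mul] at h1
  have h2 : Algebra.norm ℤ (3 : 𝓞 K) = 3 ^ Module.finrank ℤ (𝓞 K) := by
    have := Algebra.norm_algebraMap (S := 𝓞 K) (3 : ℤ)
    rw [map_ofNat] at this
    exact this
  rw [h2] at h1
  have h3 : 0 < Module.finrank ℤ (𝓞 K) := Module.finrank_pos
  have h4 : (3 : ℤ) ∣ 1 := by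
    rw [h1]
    exact Dvd.dvd.mul_right (dvd_pow_self 3 h3.ne') _
  norm_num at h4

theorem absNorm_cop (J : Ideal (𝓞 K)) (hJ : IsCoprime J (Ideal.span {3})) :
    ¬ 3 ∣ Ideal.absNorm J := by
  intro h3
  have hne : J ≠ ⊥ := by
    rintro rfl
    have h1 := Ideal.isCoprime_iff_sup_eq.1 hJ
    rw [bot_sup_eq] at h1
    exact L1_three K h1
  have hfin : Finite (𝓞 K ⧸ J) := Ring.HasFiniteQuotients.finiteQuotient hne
  have hcard : 3 ∣ Nat.card (𝓞 K ⧸ J) := by
    have := h3
    rwa [Ideal.absNorm_apply, Submodule.cardQuot_apply] at this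
  obtain ⟨P, hP, hle, h3P⟩ := H35T.W7_max _ hcard
  have h1 := Ideal.isCoprime_iff_sup_eq.1 hJ
  apply hP.ne_top
  rw [eq_top_iff, ← h1]
  refine sup_le hle ?_
  rw [Ideal.span_le, Set.singleton_subset_iff]
  exact h3P

theorem L1_diff (hK : Unr3 K) : ¬ 3 ∣ Ideal.absNorm (differentIdeal O (𝓞 K)) := by
  intro h3
  have hne : differentIdeal O (𝓞 K) ≠ ⊥ := differentIdeal_ne_bot
  have hfin : Finite (𝓞 K ⧸ differentIdeal O (𝓞 K)) :=
    Ring.HasFiniteQuotients.finiteQuotient hne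
  have hcard : 3 ∣ Nat.card (𝓞 K ⧸ differentIdeal O (𝓞 K)) := by
    have := h3
    rwa [Ideal.absNorm_apply, Submodule.cardQuot_apply] at this
  obtain ⟨P, hP, hle, h3P⟩ := H35T.W7_max _ hcard
  have hPp : P.IsPrime := hP.isPrime
  have hPne : P ≠ ⊥ := by
    rintro rfl
    rw [Ideal.mem_bot] at h3P
    norm_num at h3P
  let w : HeightOneSpectrum (𝓞 K) := ⟨P, hPp, hPne⟩
  have he : P.ramificationIdx O = 1 := hK w h3P
  have hun := Ideal.ramificationIdx_eq_one_iff.1 he
  exact (dvd_differentIdeal_iff.1 (Ideal.dvd_iff_le.2 hle)) hun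

theorem L1_dual_int3 (a : K)
    (ha : ∀ x : 𝓞 K, ∃ z : O, Algebra.trace F K ((x : K) * a) = algebraMap O F z) :
    ∃ y : 𝓞 K, (y : K) = ((Ideal.absNorm (differentIdeal O (𝓞 K)) : ℕ) : K) * a := by
  have hone : (1 : FractionalIdeal (nonZeroDivisors (𝓞 K)) K) ≠ 0 := one_ne_zero
  have h1 : a ∈ FractionalIdeal.dual O F (1 : FractionalIdeal (nonZeroDivisors (𝓞 K)) K) := by
    rw [FractionalIdeal.mem_dual hone]
    intro x hx
    rw [FractionalIdeal.mem_one_iff] at hx
    obtain ⟨x, rfl⟩ := hx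
    obtain ⟨z, hz⟩ := ha x
    refine ⟨z, ?_⟩
    rw [Algebra.traceForm_apply, mul_comm]
    exact hz.symm
  have h2 : ((Ideal.absNorm (differentIdeal O (𝓞 K)) : ℕ) : 𝓞 K) ∈ differentIdeal O (𝓞 K) :=
    Ideal.absNorm_mem (differentIdeal O (𝓞 K))
  have h3 : algebraMap (𝓞 K) K ((Ideal.absNorm (differentIdeal O (𝓞 K)) : ℕ) : 𝓞 K) ∈
      ((differentIdeal O (𝓞 K) : Ideal (𝓞 K)) : FractionalIdeal (nonZeroDivisors (𝓞 K)) K) :=
    (FractionalIdeal.mem_coeIdeal (nonZeroDivisors (𝓞 K))).2 ⟨_, h2, rfl⟩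
  have h4 := FractionalIdeal.mul_mem_mul h3 h1
  rw [coeIdeal_differentIdeal (K := F), inv_mul_cancel₀ (FractionalIdeal.dual_ne_zero O F hone),
    FractionalIdeal.mem_one_iff] at h4
  obtain ⟨y, hy⟩ := h4
  refine ⟨y, ?_⟩
  rw [map_natCast] at hy
  exact hy

/-! 3-integrality of the labels. D = differentIdeal O (𝓞K) is prime to 3 (proof of H35T.discr_val in H35T/W7: a prime w containing 3 and D would be ramified over O), so n = absNorm D is in D and not
divisible by 3 (the first half of H35T.discr_val says exactly this). N = absNorm b in b, prime to 3 (absNorm_cop). Tr_{K/F}(x N a) is in O for all x in 𝓞K, so N a is in the dual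
FractionalIdeal.dual O F 1, and n N a is in D * dual = 1 (coeIdeal_differentIdeal; compare L1_dual_int in H55N/L1 with Z, Q replaced by O, F): n N a = y in 𝓞K, τ y is integral over Z, so
in V, and n, N are units of V (H35T.val_nat). -/

theorem label_int3 (hK : Unr3 K) (b : Ideal (𝓞 K)) (hb : IsCoprime b (Ideal.span {3})) (a : K)
    (ha : ∀ x ∈ b, ∃ y : O, Algebra.trace F K ((x : K) * a) = algebraMap O F y) (τ : K →+* ℂ) :
    Int3 (τ a) := by
  have hN := absNorm_cop b hb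
  have hNb := Ideal.absNorm_mem b
  set N := Ideal.absNorm b with hNdef
  obtain ⟨y, hy⟩ := L1_dual_int3 (K := K) ((N : K) * a) (by
    intro x
    obtain ⟨y, hy⟩ := ha (N * x) (b.mul_mem_right x hNb)
    refine ⟨y, ?_⟩
    rw [← hy]
    congr 1
    have h4 : (((N : 𝓞 K) * x : 𝓞 K) : K) = (N : K) * (x : K) := by
      rw [← map_natCast (algebraMap (𝓞 K) K) N]
      exact map_mul (algebraMap (𝓞 K) K) _ _
    rw [h4]
    ring)
  intro V hV
  have h1 : V.valuation (τ (y : K)) ≤ 1 := by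
    have h2 : IsIntegral ℤ (τ (y : K)) := map_isIntegral_int τ y.2
    have h3 : IsIntegral V (τ (y : K)) := h2.tower_top
    obtain ⟨t, ht⟩ := IsIntegrallyClosed.isIntegral_iff.1 h3
    rw [← ht]
    exact V.valuation_le_one t
  have e1 : τ (y : K) = ((Ideal.absNorm (differentIdeal O (𝓞 K)) : ℕ) : ℂ) * ((N : ℂ) * τ a) := by
    rw [hy, map_mul τ, map_mul τ, map_natCast τ, map_natCast τ]
  rw [e1, Valuation.map_mul, Valuation.map_mul,
    H35T.val_nat V hV _ (L1_diff hK), H35T.val_nat V hV _ hN, one_mul, one_mul] at h1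
  exact h1

end H35N
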