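import Mathlib
import Pool.Agent.Lib.H35N.L1

open NumberField IsDedekindDomain

namespace H35N

open H55B H55N H19T

variable {K : Type} [Field K] [NumberField K] [Algebra F K] {m : ℕ}

/-! Chunk W1 (S/M, compare m0_exists in H55N/E9). m₁ = 4 absNorm(f) (prod p_i) Nm(d), d from hd (IsCoprime d lam; so Nm d is not divisible by 3: d conj(d) = Nm d, lam conjugate = unit times lam; or
absNorm_cop for F). For y choose x' in b with Tr(x' A_k) = d (cj d y_k) = Nm(d) y_k and ξ(y) = 4 absNorm(f) (prod p_i) x'. The map y -> ξ(y) is additive because ξ(y) is determined by the traces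
(Tr_inj in H55N/A2: the A_k are linearly independent), so it is an additive homomorphism Ξ (AddMonoidHom.mk'). hlin: ξ(lam y) = lam ξ(y) by uniqueness. hinj: if Ξ y = lam x'' with x'' in 𝓞K then
x'' is in b (Ξ y in b, b prime to 3, so b + (lam) = 1: x'' = a x'' + lam c x''..), so Tr(x'' A_k) in O and m₁ y_k = lam Tr(x'' A_k), lam prime, not dividing m₁ (3 does not divide m₁). -/

theorem w1_cop3 {d : O} (hd : IsCoprime d lam) : IsCoprime d 3 := by
  rw [three_lam]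
  have h1 : IsCoprime d (lam ^ 2) := hd.pow_right
  have hu : IsUnit (-(om ^ 2) : O) := by
    have h2 : (-(om ^ 2) : O) * (-om) = 1 := by
      have h := om_rel
      linear_combination (om - 1) * h
    exact IsUnit.of_mul_eq_one _ h2
  exact (isCoprime_mul_unit_left_right hu d (lam ^ 2)).2 h1

theorem w1_Nm {d : O} (hd : IsCoprime d lam) : ¬ 3 ∣ Nm d := by
  refine absNorm_cop (K := F) (Ideal.span {d}) ?_
  rw [Ideal.isCoprime_span_singleton_iff]
  exact w1_cop3 hd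

theorem w1_lam_nat {n : ℕ} (h : lam ∣ (n : O)) : 3 ∣ n := by
  obtain ⟨t, ht⟩ := h
  have h1 := Nm_repr (n : ℤ) 0
  have h2 : (((n : ℤ) : O) + ((0 : ℤ) : O) * om) = lam * t := by
    rw [← ht]
    push_cast
    ring
  have h3 := Nm_repr (-1) 1
  have h4 : (((-1 : ℤ) : O) + ((1 : ℤ) : O) * om) = lam := by
    unfold lam
    push_cast
    ring
  rw [h4] at h3
  rw [h2, Nm_mul] at h1
  push_cast at h1
  rw [h3] at h1
  have h5 : (3 : ℤ) ∣ (n : ℤ) ^ 2 := ⟨(Nm t : ℤ), by linarith⟩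
  exact_mod_cast Int.prime_three.dvd_of_dvd_pow h5

theorem w1_Tr_smul (D : Ctx K m) (hE : Emb D.σ) (a : K) (c : O) (x : 𝓞 K) :
    D.Tr a (algebraMap O (𝓞 K) c * x) = e c * D.Tr a x := by
  rw [Tr_eq D hE, Tr_eq D hE]
  have h1 : ((algebraMap O (𝓞 K) c * x : 𝓞 K) : K) * a = (algebraMap O F c) • ((x : K) * a) := by
    have h2 : ((algebraMap O (𝓞 K) c * x : 𝓞 K) : K) =
        algebraMap F K (algebraMap O F c) * (x : K) := by
      have h := map_mul (algebraMap (𝓞 K) K) (algebraMap O (𝓞 K) c) x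
      exact h
    rw [h2, Algebra.smul_def, mul_assoc]
  rw [h1, map_smul, smul_eq_mul, map_mul]
  rfl

theorem m1_exists (D : Ctx K m) (hD : D.Ok) (b f : Ideal (𝓞 K)) (hb3 : IsCoprime b (Ideal.span {3}))
    (hf3 : IsCoprime f (Ideal.span {3})) (hI : D.I = Ideal.span {4} * f * b) (hp : ∀ i, D.p i ≠ 3)
    (A : Fin (m + 1) → K) (hA : LinearIndependent F A)
    (hint : ∀ k, ∀ x ∈ b, ∃ y : O, Algebra.trace F K ((x : K) * A k) = algebraMap O F y)
    (hd : ∃ d : O, IsCoprime d lam ∧ ∀ y : Fin (m + 1) → O, ∃ x ∈ b, ∀ k,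
      Algebra.trace F K ((x : K) * A k) = algebraMap O F (d * y k)) :
    ∃ (m₁ : ℕ) (Ξ : (Fin (m + 1) → O) →+ 𝓞 K), ¬ 3 ∣ m₁ ∧ 2 ∣ m₁ ∧
      (∀ y, Ξ y ∈ D.I ∧ (∀ i, Ξ y ∈ D.c i) ∧ ∀ k, D.Tr (A k) (Ξ y) = m₁ * e (y k)) ∧
      (∀ y : Fin (m + 1) → O, Ξ (fun k => lam * y k) = algebraMap O (𝓞 K) lam * Ξ y) ∧
      (∀ y : Fin (m + 1) → O, Ξ y ∈ Ideal.span {algebraMap O (𝓞 K) lam} → ∀ k, lam ∣ y k) := by
  classical
  obtain ⟨d, hdl, hd⟩ := hd
  have hNf := absNorm_cop f hf3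
  have hNd := w1_Nm hdl
  have h3p := Nat.prime_three
  have hP : ¬ 3 ∣ ∏ i, D.p i := by
    rw [Prime.dvd_finsetProd_iff h3p.prime]
    rintro ⟨i, -, hi⟩
    exact hp i ((Nat.prime_dvd_prime_iff_eq h3p (hD.smooth.prime i)).1 hi).symm
  set M : ℕ := 4 * Ideal.absNorm f * (∏ i, D.p i) with hM
  have hM3 : ¬ 3 ∣ M := by
    rw [hM, h3p.dvd_mul, h3p.dvd_mul]
    rintro ((h | h) | h)
    · norm_num at h
    · exact hNf h
    · exact hP h
  have hm3 : ¬ 3 ∣ M * Nm d := by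
    rw [h3p.dvd_mul]
    rintro (h | h)
    · exact hM3 h
    · exact hNd h
  choose ξ hξb hξ using fun y : Fin (m + 1) → O => hd fun k => cj d * y k
  have hTr : ∀ (y : Fin (m + 1) → O) (k : Fin (m + 1)),
      D.Tr (A k) (((M : ℕ) : 𝓞 K) * ξ y) = ((M * Nm d : ℕ) : ℂ) * e (y k) := by
    intro y k
    have h0 : ((M : ℕ) : 𝓞 K) = algebraMap O (𝓞 K) ((M : ℕ) : O) := by rw [map_natCast]
    rw [h0, w1_Tr_smul D hD.emb, Tr_eq D hD.emb, hξ y k, map_natCast]
    have h3 : d * (cj d * y k) = (Nm d : O) * y k := by rw [← mul_assoc, mul_cj]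
    rw [h3]
    have h4 : emb ((algebraMap O F) ((Nm d : O) * y k)) = (Nm d : ℂ) * e (y k) := by
      show e ((Nm d : O) * y k) = _
      rw [map_mul, map_natCast]
    rw [h4]
    push_cast
    ring
  have hinj := Tr_inj D hD.emb A hA
  have hadd : ∀ y y' : Fin (m + 1) → O, ((M : ℕ) : 𝓞 K) * ξ (y + y') =
      ((M : ℕ) : 𝓞 K) * ξ y + ((M : ℕ) : 𝓞 K) * ξ y' := by
    intro y y'
    apply hinj
    intro k
    rw [Ctx.Tr_add, hTr, hTr, hTr, Pi.add_apply, map_add]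
    ring
  have hbI : ∀ y, ((M : ℕ) : 𝓞 K) * ξ y ∈ D.I := by
    intro y
    rw [hI]
    refine Ideal.mul_mem_mul ?_ (hξb y)
    have h1 : (4 : 𝓞 K) * (Ideal.absNorm f : 𝓞 K) ∈ Ideal.span {4} * f :=
      Ideal.mul_mem_mul (Ideal.mem_span_singleton_self _) (Ideal.absNorm_mem f)
    have h2 : ((M : ℕ) : 𝓞 K) =
        ((∏ i, D.p i : ℕ) : 𝓞 K) * ((4 : 𝓞 K) * (Ideal.absNorm f : 𝓞 K)) := by
      rw [hM]
      push_cast
      ring
    rw [h2]
    exact Ideal.mul_mem_left _ _ h1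
  refine ⟨M * Nm d, AddMonoidHom.mk' (fun y => ((M : ℕ) : 𝓞 K) * ξ y) hadd, hm3, ?_, ?_, ?_, ?_⟩
  · rw [hM]
    exact Dvd.dvd.mul_right (Dvd.dvd.mul_right (Dvd.dvd.mul_right (by norm_num) _) _) _
  · intro y
    refine ⟨hbI y, fun i => ?_, fun k => hTr y k⟩
    show ((M : ℕ) : 𝓞 K) * ξ y ∈ D.c i
    refine Ideal.mul_mem_right _ _ ?_
    have h1 : ((D.p i : ℕ) : 𝓞 K) ∈ D.c i := by
      rw [← hD.smooth.norm i]
      exact Ideal.absNorm_mem _
    obtain ⟨t, ht⟩ : D.p i ∣ M := by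
      rw [hM]
      exact (Finset.dvd_prod_of_mem _ (Finset.mem_univ i)).mul_left _
    rw [ht, Nat.cast_mul]
    exact Ideal.mul_mem_right _ _ h1
  · intro y
    apply hinj
    intro k
    show D.Tr (A k) (((M : ℕ) : 𝓞 K) * ξ (fun k => lam * y k)) =
      D.Tr (A k) (algebraMap O (𝓞 K) lam * (((M : ℕ) : 𝓞 K) * ξ y))
    rw [w1_Tr_smul D hD.emb, hTr, hTr, map_mul]
    ring
  · intro y hy k
    have hy' : ((M : ℕ) : 𝓞 K) * ξ y ∈ Ideal.span {algebraMap O (𝓞 K) lam} := hy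
    obtain ⟨x, hx⟩ := Ideal.mem_span_singleton.1 hy'
    have hxb : x ∈ b := by
      obtain ⟨a, ha, c, hc, hac⟩ := Ideal.isCoprime_iff_exists.1 hb3
      obtain ⟨c', rfl⟩ := Ideal.mem_span_singleton.1 hc
      have h3l : (3 : 𝓞 K) = algebraMap O (𝓞 K) (-(om ^ 2) * lam) * algebraMap O (𝓞 K) lam := by
        rw [← map_mul]
        have h1 : (-(om ^ 2) * lam * lam : O) = 3 := by
          rw [three_lam]
          ring
        rw [h1, map_ofNat]
      have h1 : x = x * a + algebraMap O (𝓞 K) (-(om ^ 2) * lam) * c' *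
          (((M : ℕ) : 𝓞 K) * ξ y) := by
        rw [hx]
        calc x = x * (a + 3 * c') := by rw [hac, mul_one]
          _ = _ := by
            rw [h3l]
            ring
      rw [h1]
      refine Ideal.add_mem _ (Ideal.mul_mem_left _ _ ha) (Ideal.mul_mem_left _ _
        (Ideal.mul_mem_left _ _ (hξb y)))
    obtain ⟨y', hy'⟩ := hint k x hxb
    have h1 : D.Tr (A k) x = e y' := by
      rw [Tr_eq D hD.emb, hy']
      rfl
    have h2 := hTr y k
    rw [hx, w1_Tr_smul D hD.emb, h1] at h2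
    have h3 : lam * y' = ((M * Nm d : ℕ) : O) * y k := by
      apply e_injective
      rw [map_mul, map_mul, map_natCast]
      exact h2
    have h4 : lam ∣ ((M * Nm d : ℕ) : O) * y k := ⟨y', h3.symm⟩
    rcases lam_prime'.dvd_or_dvd h4 with h5 | h5
    · exact absurd (w1_lam_nat h5) hm3
    · exact h5

/-! Elements of b with all traces divisible by lam are divisible by lam: d x = lam x' with x' in b, Tr(x' A_k) = d w_k (Tr_inj), and a d + c lam = 1, so x = lam (a x' + c x). -/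

theorem div_lam (D : Ctx K m) (hE : Emb D.σ) (b : Ideal (𝓞 K)) (A : Fin (m + 1) → K)
    (hA : LinearIndependent F A)
    (hd : ∃ d : O, IsCoprime d lam ∧ ∀ y : Fin (m + 1) → O, ∃ x ∈ b, ∀ k,
      Algebra.trace F K ((x : K) * A k) = algebraMap O F (d * y k)) (x : 𝓞 K)
    (w : Fin (m + 1) → O) (hx : ∀ k, D.Tr (A k) x = e (lam * w k)) :
    x ∈ Ideal.span {algebraMap O (𝓞 K) lam} := by
  obtain ⟨d, hdl, hd⟩ := hd
  obtain ⟨a, c, hac⟩ := hdl
  obtain ⟨x', -, hx'⟩ := hd w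
  have h1 : algebraMap O (𝓞 K) d * x = algebraMap O (𝓞 K) lam * x' := by
    apply Tr_inj D hE A hA
    intro k
    rw [w1_Tr_smul D hE, w1_Tr_smul D hE, hx k, Tr_eq D hE, hx' k, map_mul]
    have h2 : emb ((algebraMap O F) (d * w k)) = e d * e (w k) := by
      show e (d * w k) = _
      rw [map_mul]
    rw [h2]
    ring
  rw [Ideal.mem_span_singleton]
  refine ⟨algebraMap O (𝓞 K) a * x' + algebraMap O (𝓞 K) c * x, ?_⟩
  have h2 : algebraMap O (𝓞 K) (a * d + c * lam) = 1 := by rw [hac, map_one]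
  rw [map_add, map_mul, map_mul] at h2
  linear_combination (-x) * h2 + algebraMap O (𝓞 K) a * h1

end H35N
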