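import Mathlib
import Pool.Agent.Lib.H35N.G4
import Pool.Agent.Lib.H35N.W1
import Pool.Agent.Lib.H55N.B4
import Pool.Agent.Lib.H55N.E8

open NumberField IsDedekindDomain

namespace H35N

open H55B H55N H19T

variable {K : Type} [Field K] [NumberField K] [Algebra F K] {m : ℕ}

/-! Chunk W6 (S/M). Properties of Gf. Gf_of: if x in X has D.Tr (A k) x = e (y k) then Gf D A h y = h x (uniqueness: Tr_inj). -/

theorem Gf_of (D : Ctx K m) (hE : Emb D.σ) (A : Fin (m + 1) → K) (hA : LinearIndependent F A)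
    (h : 𝓞 K → ℂ) (y : Fin (m + 1) → O) (x : 𝓞 K) (hx : x ∈ D.X) (hxy : ∀ k, D.Tr (A k) x = e (y k)) :
    Gf D A h y = h x := by
  classical
  have hex : ∃ x ∈ D.X, ∀ k, D.Tr (A k) x = e (y k) := ⟨x, hx, hxy⟩
  unfold Gf
  rw [dif_pos hex]
  have h1 := hex.choose_spec
  rw [Tr_inj D hE A hA hex.choose x fun k => (h1.2 k).trans (hxy k).symm]

theorem Gf_not (D : Ctx K m) (A : Fin (m + 1) → K) (h : 𝓞 K → ℂ) (y : Fin (m + 1) → O)
    (hy : ¬ ∃ x ∈ D.X, ∀ k, D.Tr (A k) x = e (y k)) : Gf D A h y = 0 := by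
  unfold Gf
  rw [dif_neg hy]

/-- Translation by an element ξ of I under which h is invariant, with traces e (t k). -/
theorem Gf_add (D : Ctx K m) (hE : Emb D.σ) (A : Fin (m + 1) → K) (hA : LinearIndependent F A)
    (h : 𝓞 K → ℂ) (ξ : 𝓞 K) (hξ : ξ ∈ D.I) (hh : ∀ z, h (z + ξ) = h z) (t : Fin (m + 1) → O)
    (ht : ∀ k, D.Tr (A k) ξ = e (t k)) (y : Fin (m + 1) → O) :
    Gf D A h (fun k => y k + t k) = Gf D A h y := by
  by_cases hex : ∃ x ∈ D.X, ∀ k, D.Tr (A k) x = e (y k)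
  · obtain ⟨x, hx, hxy⟩ := hex
    rw [Gf_of D hE A hA h y x hx hxy, Gf_of D hE A hA h _ (x + ξ) (D.X_add hx hξ) (fun k => by
      rw [D.Tr_add, hxy, ht, map_add]), hh]
  · rw [Gf_not D A h y hex, Gf_not]
    rintro ⟨x, hx, hxy⟩
    apply hex
    refine ⟨x + -ξ, D.X_add hx (D.I.neg_mem hξ), fun k => ?_⟩
    rw [← sub_eq_add_neg, D.Tr_sub, hxy, ht, map_add, add_sub_cancel_right]

/-! Gf_kn: for y = lam w + m₁ z: the x in X with traces lam w + m₁ z are the x' + Ξ z, x' in X with traces lam w; x' is divisible by lam (div_lam), so kn(x' + Ξ z) = kn(Ξ z) (kn_per) and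
g(x' + Ξ z) = g(x') (Ξ z in all c_i: E8_g in H55N/E8). -/

theorem Gf_kn (D : Ctx K m) (hE : Emb D.σ) (b : Ideal (𝓞 K)) (A : Fin (m + 1) → K)
    (hA : LinearIndependent F A)
    (hd : ∃ d : O, IsCoprime d lam ∧ ∀ y : Fin (m + 1) → O, ∃ x ∈ b, ∀ k,
      Algebra.trace F K ((x : K) * A k) = algebraMap O F (d * y k)) (m₁ : ℕ)
    (ξ : 𝓞 K) (hξ : ξ ∈ D.I) (hξc : ∀ i, ξ ∈ D.c i) (z : Fin (m + 1) → O)
    (hξT : ∀ k, D.Tr (A k) ξ = m₁ * e (z k)) (w : Fin (m + 1) → O) :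
    Gf D A (fun x => kn x * D.g x) (fun k => lam * w k + m₁ * z k) =
      Gf D A D.g (fun k => lam * w k) * kn ξ := by
  by_cases hex : ∃ x ∈ D.X, ∀ k, D.Tr (A k) x = e (lam * w k)
  · obtain ⟨x, hx, hxy⟩ := hex
    rw [Gf_of D hE A hA D.g _ x hx hxy, Gf_of D hE A hA _ _ (x + ξ) (D.X_add hx hξ) (fun k => by
      rw [D.Tr_add, hxy, hξT, map_add, map_mul e (m₁ : O), map_natCast]), E8_g D x ξ hξc,
      kn_per (x + ξ) ξ (by
        rw [add_sub_cancel_right]
        exact div_lam D hE b A hA hd x w hxy), mul_comm]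
  · rw [Gf_not D A D.g _ hex, zero_mul, Gf_not]
    rintro ⟨x, hx, hxy⟩
    apply hex
    refine ⟨x + -ξ, D.X_add hx (D.I.neg_mem hξ), fun k => ?_⟩
    rw [← sub_eq_add_neg, D.Tr_sub, hxy, hξT, map_add, map_mul e (m₁ : O), map_natCast,
      add_sub_cancel_right]

/-! Gf_smooth: v in I, v not in c_i, v in c_j for j not i, Tr(A_k v) = 0 for k not k₀, Tr(A_(k₀) v) = e(s). p = p_i (prime, norm of c_i; D.Ok). Along x + j v, j < p, the weight g is
(prod over the other indices, constant) times (1 - p if x + j v in c_i, else 1); exactly one j < p has x + j v in c_i (𝓞K/c_i has p elements, v is a generator: see B4_map in H55N/B4), so the sum is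
const ((p - 1) + (1 - p)) = 0. If no x in X has traces y (then also none has traces y + j s e_(k₀)) all terms are 0. -/

theorem W6_Tr_nat (D : Ctx K m) (a : K) (j : ℕ) (v : 𝓞 K) :
    D.Tr a ((j : 𝓞 K) * v) = j * D.Tr a v := by
  unfold Ctx.Tr
  rw [Finset.mul_sum]
  refine Finset.sum_congr rfl fun i _ => ?_
  have h1 : (((j : 𝓞 K) * v : 𝓞 K) : K) * a = (j : K) * ((v : K) * a) := by
    push_cast
    ring
  rw [h1, map_mul, map_natCast]

theorem W6_sum (p : ℕ) (hp : p.Prime) (a : ZMod p) :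
    ∑ j ∈ Finset.range p, (if a + (j : ZMod p) = 0 then 1 - (p : ℂ) else 1) = 0 := by
  have hp' : Fact p.Prime := ⟨hp⟩
  have h1 : ∀ j ∈ Finset.range p, (if a + (j : ZMod p) = 0 then 1 - (p : ℂ) else 1) =
      1 - (if j = (-a).val then (p : ℂ) else 0) := by
    intro j hj
    have h2 : a + (j : ZMod p) = 0 ↔ j = (-a).val := by
      constructor
      · intro h
        have h3 : (j : ZMod p) = -a := by linear_combination h
        rw [← h3, ZMod.val_cast_of_lt (Finset.mem_range.1 hj)]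
      · intro h
        rw [h, ZMod.natCast_zmod_val]
        ring
    by_cases h : j = (-a).val
    · rw [if_pos (h2.2 h), if_pos h]
    · rw [if_neg (fun h' => h (h2.1 h')), if_neg h, sub_zero]
  rw [Finset.sum_congr rfl h1, Finset.sum_sub_distrib, Finset.sum_const, Finset.card_range,
    Finset.sum_ite_eq', if_pos (Finset.mem_range.2 (ZMod.val_lt _)), nsmul_eq_mul, mul_one, sub_self]

theorem W6_g_sum (D : Ctx K m) (hD : D.Ok) (i : Fin (m + 1) × Fin 2) (v : 𝓞 K) (hvi : v ∉ D.c i)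
    (hvo : ∀ j, j ≠ i → v ∈ D.c j) (x : 𝓞 K) :
    ∑ j ∈ Finset.range (D.p i), D.g (x + (j : 𝓞 K) * v) = 0 := by
  classical
  obtain ⟨u, hua, hu0, hu1⟩ := B4_map (D.c i) (D.p i) (hD.smooth.prime i) (hD.smooth.norm i) v hvi
  have huj : ∀ j : ℕ, u (x + (j : 𝓞 K) * v) = u x + j := by
    intro j
    induction j with
    | zero => rw [Nat.cast_zero, zero_mul, add_zero, Nat.cast_zero, add_zero]
    | succ j ih =>
      have h1 : x + ((j + 1 : ℕ) : 𝓞 K) * v = (x + (j : 𝓞 K) * v) + v := by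
        push_cast
        ring
      rw [h1, hua, ih, hu1]
      push_cast
      ring
  have hg : ∀ j : ℕ, D.g (x + (j : 𝓞 K) * v) =
      (∏ i' ∈ Finset.univ.erase i, if x ∈ D.c i' then 1 - (D.p i' : ℂ) else 1) *
        (if u x + (j : ZMod (D.p i)) = 0 then 1 - (D.p i : ℂ) else 1) := by
    intro j
    unfold Ctx.g gw
    rw [← Finset.prod_erase_mul Finset.univ _ (Finset.mem_univ i)]
    congr 1
    · refine Finset.prod_congr rfl fun i' hi' => ?_
      have h1 : x + (j : 𝓞 K) * v ∈ D.c i' ↔ x ∈ D.c i' :=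
        (D.c i').add_mem_iff_left ((D.c i').mul_mem_left _ (hvo i' (Finset.ne_of_mem_erase hi')))
      by_cases hx : x ∈ D.c i'
      · rw [if_pos (h1.2 hx), if_pos hx]
      · rw [if_neg (fun h' => hx (h1.1 h')), if_neg hx]
    · have h1 : x + (j : 𝓞 K) * v ∈ D.c i ↔ u x + (j : ZMod (D.p i)) = 0 := by
        rw [← huj, hu0]
      by_cases hx : u x + (j : ZMod (D.p i)) = 0
      · rw [if_pos (h1.2 hx), if_pos hx]
      · rw [if_neg (fun h' => hx (h1.1 h')), if_neg hx]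
  rw [Finset.sum_congr rfl fun j _ => hg j, ← Finset.mul_sum, W6_sum _ (hD.smooth.prime i), mul_zero]

theorem Gf_smooth (D : Ctx K m) (hD : D.Ok) (A : Fin (m + 1) → K) (hA : LinearIndependent F A)
    (i : Fin (m + 1) × Fin 2) (v : 𝓞 K) (hv : v ∈ D.I) (hvi : v ∉ D.c i) (hvo : ∀ j, j ≠ i → v ∈ D.c j)
    (k₀ : Fin (m + 1)) (hvT : ∀ k, k ≠ k₀ → D.Tr (A k) v = 0) (s : O) (hs : D.Tr (A k₀) v = e s)
    (y : Fin (m + 1) → O) :
    ∑ j ∈ Finset.range (D.p i), Gf D A D.g (fun k => y k + if k = k₀ then (j : O) * s else 0) = 0 := by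
  have hE := hD.emb
  have hT : ∀ (j : ℕ) (k : Fin (m + 1)), D.Tr (A k) ((j : 𝓞 K) * v) =
      e (if k = k₀ then (j : O) * s else 0) := by
    intro j k
    rw [W6_Tr_nat]
    by_cases hk : k = k₀
    · rw [if_pos hk, hk, hs, map_mul, map_natCast]
    · rw [if_neg hk, hvT k hk, mul_zero, map_zero]
  by_cases hex : ∃ x ∈ D.X, ∀ k, D.Tr (A k) x = e (y k)
  · obtain ⟨x, hx, hxy⟩ := hex
    rw [← W6_g_sum D hD i v hvi hvo x]
    refine Finset.sum_congr rfl fun j _ => ?_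
    refine Gf_of D hE A hA D.g _ (x + (j : 𝓞 K) * v) (D.X_add hx (D.I.mul_mem_left _ hv)) fun k => ?_
    rw [D.Tr_add, hxy, hT, map_add]
  · refine Finset.sum_eq_zero fun j _ => Gf_not D A D.g _ ?_
    rintro ⟨x, hx, hxy⟩
    apply hex
    refine ⟨x + -((j : 𝓞 K) * v), D.X_add hx (D.I.neg_mem (D.I.mul_mem_left _ hv)), fun k => ?_⟩
    rw [← sub_eq_add_neg, D.Tr_sub, hxy, hT, map_add, add_sub_cancel_right]

end H35N
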