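import Mathlib
import Pool.Agent.Lib.H35N.E6
import Pool.Agent.Lib.H35N.G6
import Pool.Agent.Lib.H35N.W3
import Pool.Agent.Lib.H35N.W4
import Pool.Agent.Lib.H35N.W5
import Pool.Agent.Lib.H35N.W6
import Pool.Agent.Lib.H35T.L9

open NumberField IsDedekindDomain

namespace H35N

open H55B H55N H19T

variable {K : Type} [Field K] [NumberField K] [Algebra F K] {m : ℕ}

theorem R1_three_ne {m₁ : ℕ} (h3 : ¬ 3 ∣ m₁) : m₁ ≠ 0 := by
  rintro rfl
  exact h3 (dvd_zero _)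

/-- One factor. -/
theorem R1_factor (m₁ : ℕ) (h3 : ¬ 3 ∣ m₁) (w : O) (hw : ¬ (m₁ : O) ∣ w) (z : ZMod 3) :
    (3 : ℂ) / e (lam * m₁) * sl (3 * e (lam * w + m₁ * (z.valMinAbs : O)) / e (lam * m₁)) =
      (3 * R0 / e (lam * m₁)) * (sl (3 * e w / m₁) / R0 +
        (z.valMinAbs : ℂ) ^ 2 * c1 (3 * e w / m₁) - (z.valMinAbs : ℂ) * c2 (3 * e w / m₁)) := by
  have hm0 : (m₁ : ℂ) ≠ 0 := by exact_mod_cast R1_three_ne h3
  have hl := e_lam_ne
  have hR0 := E5_R0.2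
  have he : e (lam * m₁) = e lam * m₁ := by rw [map_mul, map_natCast]
  have hz : (3 * e w / m₁ : ℂ) ∉ Lam := by
    rintro ⟨y, hy⟩
    apply hw
    refine ⟨y, e_injective ?_⟩
    rw [map_mul, map_natCast]
    rw [div_eq_iff hm0] at hy
    linear_combination (1 / 3) * hy
  have hN : (m₁ : ℂ) * (3 * e w / m₁) ∈ Lam := ⟨w, by field_simp⟩
  obtain ⟨ha, hb⟩ := sl_add _ hz m₁ h3 hN
  have hpt : ∀ t : ℂ, 3 * (e lam * e w + m₁ * t) / (e lam * m₁) = 3 * e w / m₁ + t * TT := by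
    intro t
    unfold TT
    field_simp
  have hcases : z.valMinAbs = 0 ∨ z.valMinAbs = 1 ∨ z.valMinAbs = -1 := by
    revert z
    decide
  have hpt2 : 3 * e (lam * w + m₁ * (z.valMinAbs : O)) / e (lam * m₁) =
      3 * e w / m₁ + (z.valMinAbs : ℂ) * TT := by
    rw [he, map_add, map_mul, map_mul, map_natCast, map_intCast]
    exact hpt _
  rw [hpt2, he]
  rcases hcases with h | h | h
  · rw [h]
    push_cast
    rw [zero_mul, add_zero]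
    field_simp
    ring
  · rw [h]
    push_cast
    rw [one_mul, sl_eq ha]
    field_simp
  · rw [h]
    push_cast
    have h1 : 3 * e w / (m₁ : ℂ) + -1 * TT = 3 * e w / m₁ - TT := by ring
    rw [h1, sl_eq hb]
    field_simp
    ring

theorem R1_g_int (D : Ctx K m) (x : 𝓞 K) : Int3 (D.g x) := by
  classical
  unfold Ctx.g gw
  refine i3_prod _ _ fun i _ => ?_
  split_ifs
  · exact i3_sub i3_one (i3_natCast _)
  · exact i3_one

/-- The data of the lattice of shifts. -/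
structure R1D (D : Ctx K m) (A : Fin (m + 1) → K) (m₁ : ℕ) (Ξ : (Fin (m + 1) → O) →+ 𝓞 K) : Prop where
  h3 : ¬ 3 ∣ m₁
  h2 : 2 ∣ m₁
  mem : ∀ y, Ξ y ∈ D.I
  memc : ∀ y i, Ξ y ∈ D.c i
  tr : ∀ y k, D.Tr (A k) (Ξ y) = m₁ * e (y k)
  lin : ∀ y : Fin (m + 1) → O, Ξ (fun k => lam * y k) ∈ Ideal.span {algebraMap O (𝓞 K) lam}
  inj : ∀ y : Fin (m + 1) → O, Ξ y ∈ Ideal.span {algebraMap O (𝓞 K) lam} → ∀ k, lam ∣ y k
  odd : ∀ x ∈ D.X, ∀ k, ∃ y : O, D.Tr (A k) x = e y ∧ ¬ (2 : O) ∣ y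

/-- The weight. -/
noncomputable def R1h (D : Ctx K m) (x : 𝓞 K) : ℂ := kn x * D.g x

theorem R1_e {m₁ : ℕ} : e (lam * m₁) = e lam * m₁ := by rw [map_mul, map_natCast]

variable {D : Ctx K m} {A : Fin (m + 1) → K} {m₁ : ℕ} {Ξ : (Fin (m + 1) → O) →+ 𝓞 K}

theorem R1D.inv (W : R1D D A m₁ Ξ) (y : Fin (m + 1) → O) (z : 𝓞 K) :
    R1h D (z + Ξ fun k => lam * y k) = R1h D z := by
  unfold R1h
  rw [E8_g D _ _ (W.memc _), kn_per (z + Ξ fun k => lam * y k) z (by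
    rw [add_sub_cancel_left]
    exact W.lin y)]

theorem R1D.trl (W : R1D D A m₁ Ξ) (y : Fin (m + 1) → O) (k : Fin (m + 1)) :
    D.Tr (A k) (Ξ fun k => lam * y k) = e (lam * m₁ * y k) := by
  rw [W.tr, map_mul e (lam * (m₁ : O)), R1_e, map_mul]
  ring

theorem R1D.ne (W : R1D D A m₁ Ξ) : (m₁ : ℂ) ≠ 0 := by
  exact_mod_cast R1_three_ne W.h3

theorem R1D.neO (W : R1D D A m₁ Ξ) : (m₁ : O) ≠ 0 := by
  intro h
  apply W.ne
  have := congrArg e h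
  rwa [map_natCast, map_zero] at this

theorem R1D.dvd (W : R1D D A m₁ Ξ) : (2 : O) ∣ (m₁ : O) := by
  obtain ⟨t, ht⟩ := W.h2
  exact ⟨(t : O), by rw [ht]; push_cast; ring⟩

theorem R1D.hM (W : R1D D A m₁ Ξ) : ∀ y : Fin (m + 1) → O, ∃ x ∈ D.I,
    (∀ z, R1h D (z + x) = R1h D z) ∧ ∀ k, D.Tr (A k) x = e (lam * m₁ * y k) := fun y =>
  ⟨Ξ fun k => lam * y k, W.mem _, W.inv y, W.trl y⟩

theorem R1D.hint (W : R1D D A m₁ Ξ) : ∀ x ∈ D.X, ∀ k, ∃ y : O, D.Tr (A k) x = e y ∧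
    ¬ lam * (m₁ : O) ∣ y := by
  intro x hx k
  obtain ⟨y, hy, hy2⟩ := W.odd x hx k
  exact ⟨y, hy, fun hdvd => hy2 (dvd_trans (dvd_trans W.dvd (Dvd.intro_left _ rfl)) hdvd)⟩

theorem R1D.cls (W : R1D D A m₁ Ξ) (hE : Emb D.σ) (hA : LinearIndependent F A) :
    (∀ R : ℝ, 0 < R → Summable fun x : D.X => R1h D x * (∏ k, (D.Tr (A k) x)⁻¹) *
      (D.pcut A R x : ℂ)) ∧
    Filter.Tendsto (fun R : ℝ => ∑' x : D.X, R1h D x * (∏ k, (D.Tr (A k) x)⁻¹) *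
      (D.pcut A R x : ℂ)) Filter.atTop (nhds (SO (m + 1) (lam * m₁) fun y => Gf D A (R1h D) y *
        ∏ k, (3 / e (lam * m₁) * sl (3 * e (y k) / e (lam * m₁))))) :=
  cls_sum D hE A hA (R1h D) (lam * m₁) (mul_ne_zero lam_prime'.ne_zero W.neO) W.hint W.hM

theorem R1D.nd (W : R1D D A m₁ Ξ) (y : Fin (m + 1) → O)
    (hy : Gf D A D.g (fun k => lam * y k) ≠ 0) (k : Fin (m + 1)) : ¬ (m₁ : O) ∣ y k := by
  intro hdvd
  apply hy
  apply Gf_not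
  rintro ⟨x, hx, hxy⟩
  obtain ⟨y', hy', hy2⟩ := W.odd x hx k
  apply hy2
  have h4 : y' = lam * y k := e_injective (by rw [← hy', hxy k])
  rw [h4]
  exact dvd_trans W.dvd (dvd_trans hdvd (Dvd.intro_left _ rfl))

theorem R1D.per (W : R1D D A m₁ Ξ) (hE : Emb D.σ) (hA : LinearIndependent F A)
    (y t : Fin (m + 1) → O) :
    (Gf D A (R1h D) (fun k => y k + lam * m₁ * t k) *
      ∏ k, (3 / e (lam * m₁) * sl (3 * e (y k + lam * m₁ * t k) / e (lam * m₁)))) =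
    Gf D A (R1h D) y * ∏ k, (3 / e (lam * m₁) * sl (3 * e (y k) / e (lam * m₁))) := by
  have h1 : Gf D A (R1h D) (fun k => y k + lam * m₁ * t k) = Gf D A (R1h D) y :=
    Gf_add D hE A hA (R1h D) (Ξ fun k => lam * t k) (W.mem _) (W.inv t)
      (fun k => lam * m₁ * t k) (W.trl t) y
  rw [h1]
  congr 1
  refine Finset.prod_congr rfl fun k _ => ?_
  congr 1
  have h2 : 3 * e (y k + lam * m₁ * t k) / e (lam * m₁) =
      3 * e (y k) / e (lam * m₁) + 3 * e (t k) := by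
    have h3 : e (lam * (m₁ : O)) ≠ 0 := by
      rw [R1_e]
      exact mul_ne_zero e_lam_ne W.ne
    rw [map_add, map_mul e (lam * (m₁ : O))]
    field_simp
  rw [h2, sl_per]

theorem R1D.crt (W : R1D D A m₁ Ξ) (hE : Emb D.σ) (hA : LinearIndependent F A) :
    (SO (m + 1) (lam * m₁) fun y => Gf D A (R1h D) y *
      ∏ k, (3 / e (lam * m₁) * sl (3 * e (y k) / e (lam * m₁)))) =
    SO (m + 1) m₁ fun w => ∑ z : Fin (m + 1) → ZMod 3,
      Gf D A (R1h D) (fun k => lam * w k + m₁ * ((z k).valMinAbs : O)) *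
        ∏ k, (3 / e (lam * m₁) * sl (3 * e (lam * w k + m₁ * ((z k).valMinAbs : O)) /
          e (lam * m₁))) :=
  SO_crt (m + 1) m₁ W.h3 (fun y => Gf D A (R1h D) y *
    ∏ k, (3 / e (lam * m₁) * sl (3 * e (y k) / e (lam * m₁)))) (W.per hE hA)

/-- The local sum. -/
noncomputable def R1T (Ξ : (Fin (m + 1) → O) →+ 𝓞 K) (m₁ : ℕ) (r : ℂ)
    (y : Fin (m + 1) → O) : ℂ :=
  ∑ z : Fin (m + 1) → ZMod 3, kn (Ξ fun k => ((z k).valMinAbs : O)) * ∏ k,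
    (sl (3 * e (y k) / m₁) / R0 + ((z k).valMinAbs : ℂ) ^ 2 * c1 (3 * e (y k) / m₁) -
      ((z k).valMinAbs : ℂ) * ((c2 (3 * e (y k) / m₁) - c0 r) + c0 r))

theorem R1D.term (W : R1D D A m₁ Ξ) (hE : Emb D.σ) (b : Ideal (𝓞 K)) (hA : LinearIndependent F A)
    (hd : ∃ d : O, IsCoprime d lam ∧ ∀ y : Fin (m + 1) → O, ∃ x ∈ b, ∀ k,
      Algebra.trace F K ((x : K) * A k) = algebraMap O F (d * y k)) (r : ℂ)
    (y : Fin (m + 1) → O) : (∑ z : Fin (m + 1) → ZMod 3,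
      Gf D A (R1h D) (fun k => lam * y k + m₁ * ((z k).valMinAbs : O)) *
        ∏ k, (3 / e (lam * m₁) * sl (3 * e (lam * y k + m₁ * ((z k).valMinAbs : O)) /
          e (lam * m₁)))) =
      (3 * R0 / e (lam * m₁)) ^ (m + 1) * (Gf D A D.g (fun k => lam * y k) * R1T Ξ m₁ r y) := by
  unfold R1T
  rw [Finset.mul_sum, Finset.mul_sum]
  refine Finset.sum_congr rfl fun z _ => ?_
  have h1 : Gf D A (R1h D) (fun k => lam * y k + m₁ * ((z k).valMinAbs : O)) =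
      Gf D A D.g (fun k => lam * y k) * kn (Ξ fun k => ((z k).valMinAbs : O)) :=
    Gf_kn D hE b A hA hd m₁ (Ξ fun k => ((z k).valMinAbs : O)) (W.mem _) (W.memc _)
      (fun k => ((z k).valMinAbs : O)) (W.tr _) y
  rw [h1]
  by_cases hy : Gf D A D.g (fun k => lam * y k) = 0
  · rw [hy, zero_mul, zero_mul, zero_mul, mul_zero]
  · rw [Finset.prod_congr rfl fun k _ => R1_factor m₁ W.h3 (y k) (W.nd y hy k) (z k),
      Finset.prod_mul_distrib, Finset.prod_const, Finset.card_univ, Fintype.card_fin]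
    simp only [sub_add_cancel]
    ring

theorem R1_shift {m₁ : ℕ} (h : (m₁ : ℂ) ≠ 0) (y t : O) :
    3 * e (y + m₁ * t) / (m₁ : ℂ) = 3 * e y / m₁ + 3 * e t := by
  rw [map_add, map_mul, map_natCast]
  field_simp

theorem R1D.pt (W : R1D D A m₁ Ξ) (y : O) (hy : ¬ (m₁ : O) ∣ y) :
    (3 * e y / m₁ : ℂ) ∉ Lam ∧ (m₁ : ℂ) * (3 * e y / m₁) ∈ Lam := by
  have hm0 := W.ne
  constructor
  · rintro ⟨t, ht⟩
    apply hy
    refine ⟨t, e_injective ?_⟩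
    rw [map_mul, map_natCast]
    rw [div_eq_iff hm0] at ht
    linear_combination (1 / 3) * ht
  · exact ⟨y, by field_simp⟩

theorem R1D.total (W : R1D D A m₁ Ξ) (hK : Unr3 K) (hD : D.Ok)
    (hA : LinearIndependent F A)
    (hint : ∀ k, ∀ x ∈ D.I, ∃ y : O, Algebra.trace F K ((x : K) * A k) = algebraMap O F y)
    (w : Fin (m + 1) × Fin 2 → 𝓞 K) (hwI : ∀ i, w i ∈ Ideal.span {algebraMap O (𝓞 K) lam} * D.I)
    (hws : ∀ i, w i ∉ D.c i) (hwo : ∀ i k, k ≠ i → w i ∈ D.c k)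
    (hworth : ∀ i k, k ≠ i.1 → D.Tr (A k) (w i) = 0) (q r : ℂ) (hq : q ^ 4 = 3)
    (hr : 4 * r ^ 3 = 1) :
    Int3 (SO (m + 1) m₁ fun y => Gf D A D.g (fun k => lam * y k) * R1T Ξ m₁ r y) := by
  refine fin_total (m + 1) m₁ (R1_three_ne W.h3) q hq (fun y => Gf D A D.g (fun k => lam * y k))
    ?_ ?_ ?_ (fun z => kn (Ξ fun k => ((z k).valMinAbs : O))) (fun z => kn_val _)
    (gauss_bd hK hD.emb.fin Ξ W.lin W.inj q hq)
    (fun y => sl (3 * e y / m₁) / R0) (fun y => c1 (3 * e y / m₁))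
    (fun y => c2 (3 * e y / m₁) - c0 r) ?_ ?_ ?_ ?_ (c0 r)
  · intro y t
    have h1 := Gf_add D hD.emb A hA D.g (Ξ fun k => lam * t k) (W.mem _)
      (fun z => E8_g D _ _ (W.memc _)) (fun k => lam * m₁ * t k) (W.trl t) (fun k => lam * y k)
    rw [← h1]
    congr 1
    funext k
    ring
  · intro y
    unfold Gf
    split_ifs
    · exact R1_g_int D _
    · exact i3_zero
  · intro k₀
    have h1 := hwI (k₀, 0)
    obtain ⟨v, hv, hwv⟩ := Ideal.mem_span_singleton_mul.1 h1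
    obtain ⟨t, ht⟩ := hint k₀ v hv
    have hs : D.Tr (A k₀) (w (k₀, 0)) = e (lam * t) := by
      rw [Tr_eq D hD.emb, ← hwv, L2_coe_mul, mul_assoc, L2_trace_mul, ht, ← map_mul]
      rfl
    refine ⟨t, D.p (k₀, 0), (hD.smooth.prime _).ne_zero, fun y => ?_⟩
    have h3 := Gf_smooth D hD A hA (k₀, 0) (w (k₀, 0)) (Ideal.mul_le_right h1) (hws _)
      (fun j hj => hwo _ j hj) k₀ (fun k hk => hworth (k₀, 0) k hk) (lam * t) hs
      (fun k => lam * y k)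
    rw [← h3]
    refine Finset.sum_congr rfl fun j _ => ?_
    congr 1
    funext k
    by_cases hk : k = k₀
    · simp only [if_pos hk]
      ring
    · simp only [if_neg hk]
      ring
  · intro y t
    simp only [R1_shift W.ne, sl_per]
  · intro y t
    simp only [R1_shift W.ne, c1_per]
  · intro y t
    simp only [R1_shift W.ne, c2_per]
  · intro y hy k
    obtain ⟨hz, hN⟩ := W.pt (y k) (W.nd y hy k)
    exact ⟨sl_int q hq _ hz m₁ W.h3 hN, c1_int q hq _ hz m₁ W.h3 hN, c2_int r hr _ hz m₁ W.h3 hN⟩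

theorem R1_const (W : R1D D A m₁ Ξ) (S : ℂ) :
    (3 * R0 / e (lam * m₁)) ^ (m + 1) * S / (e H35T.sq3 * R0) ^ (m + 1) =
      (3 / (e lam * e H35T.sq3)) ^ (m + 1) * (S / (m₁ : ℂ) ^ (m + 1)) := by
  have hsq : e H35T.sq3 ≠ 0 := H35T.L1_ne
  have h0 := W.ne
  have h1 := e_lam_ne
  have h2 := E5_R0.2
  have h3 : (3 * R0 / e (lam * m₁)) / (e H35T.sq3 * R0) = 3 / (e lam * e H35T.sq3) * (1 / m₁) := by
    rw [R1_e]
    field_simp
  rw [mul_div_right_comm, ← div_pow, h3, mul_pow, one_div, inv_pow]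
  ring

/-- The arithmetic part: the value of the regularised sum. -/
theorem rat_val3 (hK : Unr3 K) (D : Ctx K m) (hD : D.Ok) (b f : Ideal (𝓞 K))
    (hb3 : IsCoprime b (Ideal.span {3})) (hf3 : IsCoprime f (Ideal.span {3}))
    (hI : D.I = Ideal.span {4} * f * b) (hp : ∀ i, D.p i ≠ 3)
    (A : Fin (m + 1) → K) (hA : LinearIndependent F A)
    (hint : ∀ k, ∀ x ∈ b, ∃ y : O, Algebra.trace F K ((x : K) * A k) = algebraMap O F y)
    (hodd : ∀ x ∈ D.X, ∀ k, ∃ y : O, D.Tr (A k) x = e (1 + 2 * y))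
    (hd : ∃ d : O, IsCoprime d lam ∧ ∀ y : Fin (m + 1) → O, ∃ x ∈ b, ∀ k,
      Algebra.trace F K ((x : K) * A k) = algebraMap O F (d * y k))
    (w : Fin (m + 1) × Fin 2 → 𝓞 K) (hwI : ∀ i, w i ∈ Ideal.span {algebraMap O (𝓞 K) lam} * D.I)
    (hws : ∀ i, w i ∉ D.c i) (hwo : ∀ i k, k ≠ i → w i ∈ D.c k)
    (hworth : ∀ i k, k ≠ i.1 → D.Tr (A k) (w i) = 0) :
    ∃ S : ℂ, (∀ R : ℝ, 0 < R → Summable fun x : D.X => R1h D x *
      (∏ k, (D.Tr (A k) x)⁻¹) * (D.pcut A R x : ℂ)) ∧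
    Filter.Tendsto (fun R : ℝ => ∑' x : D.X, R1h D x * (∏ k, (D.Tr (A k) x)⁻¹) *
      (D.pcut A R x : ℂ)) Filter.atTop (nhds S) ∧
    Int3 (S / (e H35T.sq3 * R0) ^ (m + 1)) := by
  obtain ⟨q, hq⟩ : ∃ q : ℂ, q ^ 4 = 3 := IsAlgClosed.exists_pow_nat_eq 3 (by norm_num)
  obtain ⟨r, hr⟩ : ∃ r : ℂ, 4 * r ^ 3 = 1 := H35T.L9_root
  obtain ⟨m₁, Ξ, h3, h2, hΞ, hlin, hinj⟩ := m1_exists D hD b f hb3 hf3 hI hp A hA hint hd
  have W : R1D D A m₁ Ξ := by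
    refine ⟨h3, h2, fun y => (hΞ y).1, fun y => (hΞ y).2.1, fun y => (hΞ y).2.2, ?_, hinj, ?_⟩
    · intro y
      rw [hlin]
      exact Ideal.mul_mem_right _ _ (Ideal.mem_span_singleton_self _)
    · intro x hx k
      obtain ⟨y, hy⟩ := hodd x hx k
      refine ⟨_, hy, ?_⟩
      rintro ⟨t, ht⟩
      apply two_prime.not_isUnit
      apply isUnit_of_dvd_one
      exact ⟨t - y, by linear_combination ht⟩
  obtain ⟨hc1, hc2⟩ := W.cls hD.emb hA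
  refine ⟨_, hc1, hc2, ?_⟩
  rw [W.crt hD.emb hA, SO_congr _ _ _ _ (W.term hD.emb b hA hd r), SO_mul _ _ W.neO,
    R1_const W]
  exact i3_mul (i3_pow (i3_unit unit3_c) _) (i3_div_unit (W.total hK hD hA (fun k x hx =>
    hint k x (by
      rw [hI] at hx
      exact Ideal.mul_le_right hx)) w hwI hws hwo hworth q r hq hr) (H35T.Unit3.pow (unit3_nat h3) _))

end H35N
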