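import Mathlib
import Pool.Agent.Lib.H19T.Defs

open NumberField IsDedekindDomain

namespace H35N

open H55B H55N H19T

variable {K : Type} [Field K] [NumberField K]

/-! Chunk S1 (S/M). Partition of X = c₁ + I₁ into classes modulo I₀ <= I₁, I₀ nonzero: 𝓞K/I₀ is finite; ι = the set of classes of 𝓞K/I₀ meeting X (a subtype of a finite type), r i = a chosen element
of X in the class i. -/

theorem split (I₀ I₁ : Ideal (𝓞 K)) (hI₀ : I₀ ≠ ⊥) (hle : I₀ ≤ I₁) (c₁ : 𝓞 K) :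
    ∃ (n : ℕ) (r : Fin n → 𝓞 K), (∀ i, r i ∈ XS I₁ c₁) ∧ (∀ i, XS I₀ (r i) ⊆ XS I₁ c₁) ∧
      ∀ x ∈ XS I₁ c₁, ∃! i, x ∈ XS I₀ (r i) := by
  classical
  have hfin : Finite (𝓞 K ⧸ I₀) := Ideal.finiteQuotientOfFreeOfNeBot I₀ hI₀
  let ι := {c : 𝓞 K ⧸ I₀ // ∃ x ∈ XS I₁ c₁, Ideal.Quotient.mk I₀ x = c}
  have hfin' : Finite ι := Subtype.finite
  choose s hs1 hs2 using fun c : ι => c.2
  obtain ⟨n, ⟨E⟩⟩ := Finite.exists_equiv_fin ι
  refine ⟨n, fun i => s (E.symm i), fun i => hs1 _, ?_, ?_⟩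
  · intro i x hx
    have h1 : x - s (E.symm i) ∈ I₀ := hx
    have h2 : s (E.symm i) - c₁ ∈ I₁ := hs1 _
    have h3 := I₁.add_mem (hle h1) h2
    change x - c₁ ∈ I₁
    have h4 : x - s (E.symm i) + (s (E.symm i) - c₁) = x - c₁ := by ring
    rwa [h4] at h3
  · intro x hx
    refine ⟨E ⟨Ideal.Quotient.mk I₀ x, x, hx, rfl⟩, ?_, ?_⟩
    · change x - s (E.symm (E _)) ∈ I₀
      rw [E.symm_apply_apply, ← Ideal.Quotient.eq]
      exact (hs2 ⟨Ideal.Quotient.mk I₀ x, x, hx, rfl⟩).symm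
    · intro j hj
      have h1 : x - s (E.symm j) ∈ I₀ := hj
      rw [← Ideal.Quotient.eq, hs2] at h1
      have h2 : E.symm j = ⟨Ideal.Quotient.mk I₀ x, x, hx, rfl⟩ := Subtype.ext h1.symm
      rw [← h2, E.apply_symm_apply]

/-! Summation over the classes: T is the disjoint union of the sets T ∩ XS I₀ (r i) (HasSum over a sigma type: HasSum.sigma_of_hasSum is not needed, the index set is finite: hasSum_sum of the functions
extended by 0, or Set.indicator). -/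

theorem split_hasSum (I₀ I₁ : Ideal (𝓞 K)) (c₁ : 𝓞 K) (n : ℕ) (r : Fin n → 𝓞 K)
    (hr : ∀ x ∈ XS I₁ c₁, ∃! i, x ∈ XS I₀ (r i)) (T : Set (𝓞 K)) (hT : T ⊆ XS I₁ c₁)
    (φ : 𝓞 K → ℂ) (S : Fin n → ℂ)
    (h : ∀ i, HasSum (fun x : (T ∩ XS I₀ (r i) : Set (𝓞 K)) => φ x) (S i)) :
    HasSum (fun x : T => φ x) (∑ i, S i) := by
  classical
  have h1 : ∀ i, HasSum ((T ∩ XS I₀ (r i)).indicator φ) (S i) := fun i =>
    hasSum_subtype_iff_indicator.1 (h i)
  have h2 : HasSum (T.indicator φ) (∑ i, S i) := by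
    have h3 := hasSum_sum (s := Finset.univ) fun i _ => h1 i
    have h4 : (fun x => ∑ i, (T ∩ XS I₀ (r i)).indicator φ x) = T.indicator φ := by
      funext x
      by_cases hx : x ∈ T
      · rw [Set.indicator_of_mem hx]
        obtain ⟨i, hi, hi'⟩ := hr x (hT hx)
        rw [Finset.sum_eq_single i]
        · rw [Set.indicator_of_mem (Set.mem_inter hx hi)]
        · intro j _ hj
          exact Set.indicator_of_notMem (fun hx' => hj (hi' j hx'.2)) φ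
        · intro h'
          exact absurd (Finset.mem_univ i) h'
      · rw [Set.indicator_of_notMem hx]
        exact Finset.sum_eq_zero fun i _ => Set.indicator_of_notMem (fun hx' => hx hx'.1) φ
    rwa [h4] at h3
  exact hasSum_subtype_iff_indicator.2 h2

/-- If T is a transversal of X = XS I₁ c₁ modulo the units congruent to 1 modulo J then T ∩ XS I₀ (r i) is one of XS I₀ (r i), if these units preserve XS I₀ (r i). -/
theorem split_transv (J I₀ I₁ : Ideal (𝓞 K)) (c₁ : 𝓞 K) (x₀ : 𝓞 K) (hx₀ : XS I₀ x₀ ⊆ XS I₁ c₁)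
    (hJ : ∀ u : (𝓞 K)ˣ, (u : 𝓞 K) - 1 ∈ J → ∀ x ∈ XS I₁ c₁, (u : 𝓞 K) * x - x ∈ I₀) (T : Set (𝓞 K))
    (hT : Transv J (XS I₁ c₁) T) : Transv J (XS I₀ x₀) (T ∩ XS I₀ x₀) := by
  refine ⟨Set.inter_subset_right, ?_, ?_⟩
  · intro x hx
    obtain ⟨r, hr, u, hu, hxu⟩ := hT.cover x (hx₀ hx)
    refine ⟨r, ⟨hr, ?_⟩, u, hu, hxu⟩
    have h1 := hJ u hu r (hT.sub hr)
    rw [← hxu] at h1
    have h2 : x - x₀ ∈ I₀ := hx
    have h3 := I₀.sub_mem h2 h1
    have h4 : x - x₀ - (x - r) = r - x₀ := by ring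
    rwa [h4] at h3
  · intro r hr r' hr' u hu h
    exact hT.uniq r hr.1 r' hr'.1 u hu h

end H35N
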