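import Mathlib
import Pool.Agent.Lib.H35N.L2
import Pool.Agent.Lib.H35N.R1
import Pool.Agent.Lib.H35N.S1
import Pool.Agent.Lib.H55N.R8

open NumberField IsDedekindDomain

namespace H35N

open H55B H55N H19T

variable {K : Type} [Field K] [NumberField K] [Algebra F K] {m : ℕ}

/-- The context of a class. -/
def Zc (D : Ctx K m) (I₀ : Ideal (𝓞 K)) (x₀ : 𝓞 K) : Ctx K m := ⟨D.σ, I₀, x₀, D.c, D.p⟩

/-- Sums over X as sums over the classes. -/
theorem Z1_tsum (D : Ctx K m) (I₀ : Ideal (𝓞 K)) (hle : I₀ ≤ D.I)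
    (hlam : I₀ ≤ Ideal.span {algebraMap O (𝓞 K) lam}) (n : ℕ) (r : Fin n → 𝓞 K)
    (hr : ∀ x ∈ D.X, ∃! i, x ∈ XS I₀ (r i)) (hrX : ∀ i, XS I₀ (r i) ⊆ D.X) (ψ : 𝓞 K → ℂ)
    (hs : Summable fun x : D.X => kn (x : 𝓞 K) * D.g x * ψ x) :
    ∑' x : D.X, kn (x : 𝓞 K) * D.g x * ψ x =
      ∑ i, kn (r i) * ∑' x : (Zc D I₀ (r i)).X, D.g x * ψ x := by
  have h1 : ∀ i, HasSum (fun x : (D.X ∩ XS I₀ (r i) : Set (𝓞 K)) =>
      kn (x : 𝓞 K) * D.g x * ψ x) (kn (r i) * ∑' x : (Zc D I₀ (r i)).X, D.g x * ψ x) := by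
    intro i
    have hset : D.X ∩ XS I₀ (r i) = (Zc D I₀ (r i)).X :=
      Set.inter_eq_right.2 (hrX i)
    rw [hset]
    have hsub : Summable fun x : (Zc D I₀ (r i)).X => kn (x : 𝓞 K) * D.g x * ψ x :=
      hs.comp_injective (i := fun x : (Zc D I₀ (r i)).X => (⟨x, hrX i x.2⟩ : D.X))
        (fun x y h => Subtype.ext (congrArg (fun t : D.X => (t : 𝓞 K)) h))
    have hkn : ∀ x : (Zc D I₀ (r i)).X, kn (x : 𝓞 K) = kn (r i) := fun x =>
      kn_per _ _ (hlam x.2)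
    have h2 : ∑' x : (Zc D I₀ (r i)).X, kn (x : 𝓞 K) * D.g x * ψ x =
        kn (r i) * ∑' x : (Zc D I₀ (r i)).X, D.g x * ψ x := by
      rw [← tsum_mul_left]
      refine tsum_congr fun x => ?_
      rw [hkn x, mul_assoc]
    rw [← h2]
    exact hsub.hasSum
  exact (split_hasSum I₀ D.I D.c₀ n r hr D.X le_rfl (fun x => kn x * D.g x * ψ x) _ h1).tsum_eq

theorem CN_int3 (hK : Unr3 K) (D : Ctx K m) (hD : D.Ok) (b f : Ideal (𝓞 K))
    (hb3 : IsCoprime b (Ideal.span {3})) (hf3 : IsCoprime f (Ideal.span {3}))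
    (hI : D.I = Ideal.span {4} * f * b) (hp : ∀ i, D.p i ≠ 3) (u : Fin m → (𝓞 K)ˣ)
    (hc : D.c₀ ∈ b) (L : (Fin m → ℤ) → K) (hL : LabOk3 b D.c₀ u L) (I₀ : Ideal (𝓞 K))
    (hI₀ : I₀ = Ideal.span {algebraMap O (𝓞 K) lam} * D.I) (n : ℕ) (r : Fin n → 𝓞 K)
    (hn : 0 < n) (hr : ∀ x ∈ D.X, ∃! i, x ∈ XS I₀ (r i)) (hrX : ∀ i, XS I₀ (r i) ⊆ D.X)
    (hdirs : ∀ (i : Fin n) (a : Fin m → Fin (m + 1)) (π : Equiv.Perm (Fin m)),
      ∃ w', (Zc D I₀ (r i)).Dirs (fun k : Fin (m + 1) => L (kv (fun k => ((a k : ℕ) : ℤ)) π k)) w')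
    (hok : ∀ i, (Zc D I₀ (r i)).Ok) :
    Int3 ((∑ i, kn (r i) * CN (m + 1) (Zc D I₀ (r i)).Jv (fun a => .A (L a))) /
      (e H35T.sq3 * R0) ^ (m + 1)) := by
  have hle : I₀ ≤ D.I := hI₀ ▸ Ideal.mul_le_right
  have hlam : I₀ ≤ Ideal.span {algebraMap O (𝓞 K) lam} := hI₀ ▸ Ideal.mul_le_left
  have hlow := labels_low3 D hD.emb b f D.c₀ hc u L hL
  unfold CN
  simp only [Finset.mul_sum]
  rw [Finset.sum_comm, Finset.sum_div]
  refine i3_sum _ _ fun a _ => ?_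
  rw [Finset.sum_comm, Finset.sum_div]
  refine i3_sum _ _ fun π _ => ?_
  set A : Fin (m + 1) → K := fun k => L (kv (fun k => ((a k : ℕ) : ℤ)) π k) with hA
  have hind : LinearIndependent F A := labels_indep3 b D.c₀ u L hL _ _
  have hX : ∀ x ∈ D.X, x ∈ XS (Ideal.span {4} * f * b) D.c₀ := by
    intro x hx
    rw [← hI]
    exact hx
  obtain ⟨w, hw⟩ := hdirs ⟨0, hn⟩ a π
  obtain ⟨S, hS1, hS2, hS3⟩ := rat_val3 hK D hD b f hb3 hf3 hI hp A hind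
    (fun k x hx => hL.int _ x hx) (fun x hx k => (hlow _ x (hX x hx)).1) (hL.cop _ π) w
    (fun i => hI₀ ▸ hw.mem i) hw.self hw.oth hw.orth
  have hJ : ∀ i, ∃ Si : ℂ, (Zc D I₀ (r i)).Jv (fun k => .A (A k)) =
      Matrix.det (Matrix.of fun k i => D.σ i (A k)) * Si ∧
      Filter.Tendsto (fun R : ℝ => ∑' x : (Zc D I₀ (r i)).X, D.g x * (∏ k, (D.Tr (A k) x)⁻¹) *
        (D.pcut A R x : ℂ)) Filter.atTop (nhds Si) := by
    intro i
    obtain ⟨w', hw'⟩ := hdirs i a π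
    exact Jv_A (Zc D I₀ (r i)) (hok i) A w' hw'
  choose Si hSi1 hSi2 using hJ
  have hsum : S = ∑ i, kn (r i) * Si i := by
    refine tendsto_nhds_unique hS2 ?_
    refine (tendsto_finsetSum _ fun i _ => (hSi2 i).const_mul (kn (r i))).congr' ?_
    filter_upwards [Filter.eventually_gt_atTop 0] with R hR
    have h1 := Z1_tsum D I₀ hle hlam n r hr hrX
      (fun x => (∏ k, (D.Tr (A k) x)⁻¹) * (D.pcut A R x : ℂ)) (by
        have := hS1 R hR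
        refine this.congr fun x => ?_
        unfold R1h
        ring)
    have h2 : ∑' x : D.X, R1h D x * (∏ k, (D.Tr (A k) x)⁻¹) * (D.pcut A R x : ℂ) =
        ∑' x : D.X, kn (x : 𝓞 K) * D.g x * ((∏ k, (D.Tr (A k) x)⁻¹) * (D.pcut A R x : ℂ)) := by
      refine tsum_congr fun x => ?_
      unfold R1h
      ring
    rw [h2, h1]
    refine Finset.sum_congr rfl fun i _ => ?_
    congr 1
    refine tsum_congr fun x => ?_
    ring
  have hterm : (∑ i, kn (r i) * (((Equiv.Perm.sign π : ℤ) : ℂ) * (Zc D I₀ (r i)).Jv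
      (fun j => .A (L (kv (fun k => ((a k : ℕ) : ℤ)) π j))))) =
      ((Equiv.Perm.sign π : ℤ) : ℂ) * (Matrix.det (Matrix.of fun k i => D.σ i (A k)) * S) := by
    rw [hsum, Finset.mul_sum, Finset.mul_sum]
    refine Finset.sum_congr rfl fun i _ => ?_
    have := hSi1 i
    rw [hA] at this
    rw [this]
    ring
  rw [hterm, mul_div_assoc, mul_div_assoc]
  refine i3_mul (i3_intCast _) (i3_mul (i3_det _ fun k i => ?_) hS3)
  exact label_int3 hK b hb3 _ (hL.int _) (D.σ i)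

end H35N
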