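import Mathlib
import Pool.Agent.Lib.H35N.D1
import Pool.Agent.Lib.H35N.U1
import Pool.Agent.Lib.H35N.Z1
import Pool.Agent.Lib.H55N.Core

open NumberField IsDedekindDomain

namespace H35N

open H55B H55N H19T

variable {K : Type} [Field K] [NumberField K] [Algebra F K] {m : ℕ}

theorem C1_kn_mul (u : (𝓞 K)ˣ) (hm : Module.finrank F K = m + 1)
    (hu : (u : 𝓞 K) - 1 ∈ Ideal.span {(4 : 𝓞 K)}) (x : 𝓞 K) : kn ((u : 𝓞 K) * x) = kn x := by
  unfold kn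
  rw [map_mul, intNorm_one4 hm u hu, one_mul]

theorem C1_nfT (s : ℂ) (x : 𝓞 K) : nfT s x = kn x * nf s x := rfl

theorem C1_nfT_inv {σ : Fin (m + 1) → K →+* ℂ} (hσ : Emb σ) (s : ℂ) (u : (𝓞 K)ˣ)
    (hu : (u : 𝓞 K) - 1 ∈ Ideal.span {(4 : 𝓞 K)}) (hN : ∏ i, σ i ((u : 𝓞 K) : K) = 1) (x : 𝓞 K) :
    nfT s ((u : 𝓞 K) * x) = nfT s x := by
  rw [C1_nfT, C1_nfT, C1_kn_mul u hσ.fin hu, Z3_nf hσ s u hN]

/-- The common data: the ideals. -/
structure C1D (b f : Ideal (𝓞 K)) (c₀ : 𝓞 K) (σ : Fin (m + 1) → K →+* ℂ) : Prop where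
  hb : b ≠ ⊥
  hf : f ≠ ⊥
  hc : c₀ ∈ b
  hc' : c₀ ∉ Ideal.span {2} * b
  hσ : Emb σ

namespace C1D

variable {b f : Ideal (𝓞 K)} {c₀ : 𝓞 K} {σ : Fin (m + 1) → K →+* ℂ} (W : C1D b f c₀ σ)

include W

theorem lam_ne : Ideal.span {algebraMap O (𝓞 K) lam} ≠ ⊥ := by
  rw [Ne, Ideal.span_singleton_eq_bot]
  intro h
  have h1 := congrArg (algebraMap (𝓞 K) K) h
  rw [map_zero] at h1
  have h2 : algebraMap F K (lam : F) = 0 := h1
  rw [map_eq_zero] at h2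
  exact lam_prime'.ne_zero (RingOfIntegers.coe_injective (h2.trans (map_zero _).symm))

theorem J_ne : Ideal.span {(4 : 𝓞 K)} * f ≠ ⊥ := mul_ne_zero (by simp) W.hf

theorem J'_ne : Ideal.span {algebraMap O (𝓞 K) lam} * (Ideal.span {(4 : 𝓞 K)} * f) ≠ ⊥ :=
  mul_ne_zero W.lam_ne W.J_ne

theorem I_ne : Ideal.span {(4 : 𝓞 K)} * f * b ≠ ⊥ := mul_ne_zero W.J_ne W.hb

theorem I0_ne : Ideal.span {algebraMap O (𝓞 K) lam} * (Ideal.span {(4 : 𝓞 K)} * f * b) ≠ ⊥ :=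
  mul_ne_zero W.lam_ne W.I_ne

omit W in
theorem four_le : Ideal.span {(4 : 𝓞 K)} * f * b ≤ Ideal.span {2} * b := by
  refine Ideal.mul_mono_left (Ideal.mul_le_left.trans ?_)
  rw [Ideal.span_singleton_le_span_singleton]
  exact ⟨2, by norm_num⟩

omit W in
theorem J'_le : Ideal.span {algebraMap O (𝓞 K) lam} * (Ideal.span {(4 : 𝓞 K)} * f) ≤
    Ideal.span {4} := Ideal.mul_le_right.trans Ideal.mul_le_left

omit W in
theorem J'_le2 : Ideal.span {algebraMap O (𝓞 K) lam} * (Ideal.span {(4 : 𝓞 K)} * f) ≤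
    Ideal.span {algebraMap O (𝓞 K) (2 * lam)} := by
  rw [← mul_assoc, Ideal.span_singleton_mul_span_singleton]
  refine Ideal.mul_le_left.trans ?_
  rw [Ideal.span_singleton_le_span_singleton]
  refine ⟨2, ?_⟩
  rw [map_mul, map_ofNat]
  ring

theorem ne' {x : 𝓞 K} (hx : x ∈ XS (Ideal.span {4} * f * b) c₀) : x ∉ Ideal.span {2} * b := by
  intro h
  apply W.hc'
  have h1 := (Ideal.span {2} * b).sub_mem h (four_le hx)
  rwa [sub_sub_cancel] at h1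

theorem mem_b {x : 𝓞 K} (hx : x ∈ XS (Ideal.span {4} * f * b) c₀) : x ∈ b := by
  have h1 : x - c₀ ∈ b := Ideal.mul_le_right hx
  have h2 := b.add_mem h1 W.hc
  rwa [sub_add_cancel] at h2

theorem ne0 {x : 𝓞 K} (hx : x ∈ XS (Ideal.span {4} * f * b) c₀) :
    x ∉ Ideal.span {algebraMap O (𝓞 K) lam} * (Ideal.span {4} * f * b) := fun h =>
  W.ne' hx (four_le (Ideal.mul_le_right h))

theorem act' {x v : 𝓞 K} (hx : x ∈ XS (Ideal.span {4} * f * b) c₀)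
    (hv : v ∈ Ideal.span {algebraMap O (𝓞 K) lam} * (Ideal.span {(4 : 𝓞 K)} * f)) :
    v * x ∈ Ideal.span {algebraMap O (𝓞 K) lam} * (Ideal.span {4} * f * b) := by
  have h1 : Ideal.span {algebraMap O (𝓞 K) lam} * (Ideal.span {4} * f * b) =
      Ideal.span {algebraMap O (𝓞 K) lam} * (Ideal.span {4} * f) * b := by
    rw [mul_assoc (Ideal.span {algebraMap O (𝓞 K) lam})]
  rw [h1]
  exact Ideal.mul_mem_mul hv (W.mem_b hx)

theorem act {x v : 𝓞 K} (hx : x ∈ XS (Ideal.span {4} * f * b) c₀)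
    (hv : v ∈ Ideal.span {(4 : 𝓞 K)} * f) : v * x ∈ Ideal.span {4} * f * b :=
  Ideal.mul_mem_mul hv (W.mem_b hx)

theorem zero_not : (0 : 𝓞 K) ∉ XS (Ideal.span {4} * f * b) c₀ := fun h =>
  W.ne' h (Ideal.zero_mem _)

theorem stab (v : (𝓞 K)ˣ) (hv : (v : 𝓞 K) - 1 ∈ Ideal.span {(4 : 𝓞 K)} * f) :
    ∀ x ∈ XS (Ideal.span {4} * f * b) c₀, (v : 𝓞 K) * x ∈ XS (Ideal.span {4} * f * b) c₀ := by
  intro x hx
  have h1 : (v : 𝓞 K) * x - c₀ = ((v : 𝓞 K) - 1) * x + (x - c₀) := by ring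
  change (v : 𝓞 K) * x - c₀ ∈ Ideal.span {4} * f * b
  rw [h1]
  exact Ideal.add_mem _ (W.act hx hv) hx

theorem stab' (v : (𝓞 K)ˣ)
    (hv : (v : 𝓞 K) - 1 ∈ Ideal.span {algebraMap O (𝓞 K) lam} * (Ideal.span {(4 : 𝓞 K)} * f)) :
    ∀ x ∈ XS (Ideal.span {4} * f * b) c₀, (v : 𝓞 K) * x - x ∈
      Ideal.span {algebraMap O (𝓞 K) lam} * (Ideal.span {4} * f * b) := by
  intro x hx
  have h1 : (v : 𝓞 K) * x - x = ((v : 𝓞 K) - 1) * x := by ring
  rw [h1]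
  exact W.act' hx hv

/-- The units act on every class. -/
theorem uok (u : Fin m → (𝓞 K)ˣ)
    (hu1 : ∀ j, (u j : 𝓞 K) - 1 ∈
      Ideal.span {algebraMap O (𝓞 K) lam} * (Ideal.span {(4 : 𝓞 K)} * f))
    (hu4 : (Subgroup.closure (Set.range u)).FiniteIndex) (D : Ctx K m) (hDσ : D.σ = σ) (x : 𝓞 K)
    (hx : x ∈ XS (Ideal.span {4} * f * b) c₀) :
    (Zc D (Ideal.span {algebraMap O (𝓞 K) lam} * (Ideal.span {4} * f * b)) x).UOk u := by
  have hσ : Emb D.σ := hDσ ▸ W.hσ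
  refine ⟨fun j => W.act' hx (hu1 j), fun j => ?_, ?_⟩
  · exact norm_one4 D hσ (u j) (J'_le (hu1 j))
  · exact delta_ne D hσ u hu4

/-- Summation over a transversal modulo the smaller group of units. -/
theorem sum_classes (n : ℕ) (r : Fin n → 𝓞 K)
    (hr2 : ∀ i, XS (Ideal.span {algebraMap O (𝓞 K) lam} * (Ideal.span {4} * f * b)) (r i) ⊆
      XS (Ideal.span {4} * f * b) c₀)
    (hr3 : ∀ x ∈ XS (Ideal.span {4} * f * b) c₀, ∃! i,
      x ∈ XS (Ideal.span {algebraMap O (𝓞 K) lam} * (Ideal.span {4} * f * b)) (r i))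
    (u : Fin m → (𝓞 K)ˣ)
    (hu2 : ∀ z, (uu u z : 𝓞 K) - 1 ∈
      Ideal.span {algebraMap O (𝓞 K) lam} * (Ideal.span {(4 : 𝓞 K)} * f))
    (hu3 : ∀ v : (𝓞 K)ˣ, (v : 𝓞 K) - 1 ∈
      Ideal.span {algebraMap O (𝓞 K) lam} * (Ideal.span {(4 : 𝓞 K)} * f) →
        ∃! z : Fin m → ℤ, v = uu u z) (γ : 𝓞 K → ℂ) (s : ℂ) (Z : Fin n → ℂ)
    (hZ : ∀ (i : Fin n) (T : Set (𝓞 K)),
      T ⊆ XS (Ideal.span {algebraMap O (𝓞 K) lam} * (Ideal.span {4} * f * b)) (r i) →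
      (∀ x ∈ XS (Ideal.span {algebraMap O (𝓞 K) lam} * (Ideal.span {4} * f * b)) (r i),
        ∃! q : (Fin m → ℤ) × T, x = (uu u q.1 : 𝓞 K) * q.2) →
      HasSum (fun x : T => γ x * nf s (x : 𝓞 K)) (Z i))
    (T' : Set (𝓞 K))
    (hT' : Transv (Ideal.span {algebraMap O (𝓞 K) lam} * (Ideal.span {(4 : 𝓞 K)} * f))
      (XS (Ideal.span {4} * f * b) c₀) T') :
    HasSum (fun x : T' => γ x * nfT s (x : 𝓞 K)) (∑ i, kn (r i) * Z i) := by
  refine split_hasSum (Ideal.span {algebraMap O (𝓞 K) lam} * (Ideal.span {4} * f * b))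
    (Ideal.span {4} * f * b) c₀ n r hr3 T' hT'.sub (fun x => γ x * nfT s x)
    (fun i => kn (r i) * Z i) fun i => ?_
  have hTi := split_transv _ _ _ c₀ (r i) (hr2 i) (fun v hv => W.stab' v hv) T' hT'
  have h0i : (0 : 𝓞 K) ∉ XS (Ideal.span {algebraMap O (𝓞 K) lam} *
      (Ideal.span {4} * f * b)) (r i) := fun h => W.zero_not (hr2 i h)
  have h1 := (hZ i _ hTi.sub (Z3_bij h0i hTi u hu2 hu3)).mul_left (kn (r i))
  have h2 : ∀ x : (T' ∩ XS (Ideal.span {algebraMap O (𝓞 K) lam} *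
      (Ideal.span {4} * f * b)) (r i) : Set (𝓞 K)), γ x * nfT s (x : 𝓞 K) =
      kn (r i) * (γ x * nf s (x : 𝓞 K)) := by
    intro x
    have h3 : kn (x : 𝓞 K) = kn (r i) := kn_per _ _ (Ideal.mul_le_left x.2.2)
    rw [C1_nfT, h3]
    ring
  rwa [← funext h2] at h1

end C1D

/-- NOPOLES. -/
theorem nopolesT (K : Type) [Field K] [NumberField K] [Algebra F K] (m : ℕ)
    (hm : Module.finrank F K = m + 1) (hodd : Odd (m + 1)) (b f : Ideal (𝓞 K)) (hb : b ≠ ⊥)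
    (hf : f ≠ ⊥) (c₀ : 𝓞 K) (hc : c₀ ∈ b) (hc' : c₀ ∉ Ideal.span {2} * b) :
    ∃ Z : ℂ → ℂ, AnalyticOnNhd ℂ Z {s | 3 / 2 - 1 / (2 * (m + 1)) < s.re} ∧
      ∀ T : Set (𝓞 K), Transv (Ideal.span {4} * f) (XS (Ideal.span {4} * f * b) c₀) T →
        ∀ s : ℂ, 3 / 2 < s.re → HasSum (fun x : T => nfT s (x : 𝓞 K)) (Z s) := by
  obtain ⟨σ, hσ⟩ := emb_exists K m hm
  have W : C1D b f c₀ σ := ⟨hb, hf, hc, hc', hσ⟩
  obtain ⟨u, hu1, hu2, hu3, hu4⟩ := units_basis4 hm _ W.J'_ne C1D.J'_le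
  obtain ⟨n, r, hr1, hr2, hr3⟩ := split (Ideal.span {algebraMap O (𝓞 K) lam} *
    (Ideal.span {4} * f * b)) (Ideal.span {4} * f * b) W.I0_ne Ideal.mul_le_right c₀
  let D : Ctx K m := ⟨σ, Ideal.span {4} * f * b, c₀, fun _ => ⊥, fun _ => 0⟩
  have hz := fun i => zfun_neg (Zc D (Ideal.span {algebraMap O (𝓞 K) lam} *
    (Ideal.span {4} * f * b)) (r i)) hσ (W.ne0 (hr1 i)) hodd u (W.uok u hu1 hu4 D rfl _ (hr1 i))
    (Ideal.span {2} * b) (Ideal.mul_le_right.trans C1D.four_le) (W.ne' (hr1 i))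
    (Ideal.mul_mem_mul (Ideal.mem_span_singleton_self _) (W.mem_b (hr1 i)))
  choose Z hZ1 hZ2 using hz
  obtain ⟨ν, hν, hT⟩ := finite_change (Ideal.span {4} * f) (Ideal.span {algebraMap O (𝓞 K) lam} *
    (Ideal.span {4} * f)) W.J'_ne Ideal.mul_le_right (XS (Ideal.span {4} * f * b) c₀) W.zero_not
    W.stab
  refine ⟨fun s => (∑ i, kn (r i) * Z i s) / ν, ?_, ?_⟩
  · intro s hs
    exact (Finset.analyticAt_fun_sum _ fun i _ => analyticAt_const.mul (hZ1 i s hs)).div_const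
  · intro T hTT s hs
    obtain ⟨T', hT', hφ⟩ := hT T hTT
    refine hφ (fun x => nfT s x) _ ?_ ?_
    · intro v hv x _
      exact C1_nfT_inv hσ s v (Ideal.mul_le_left hv)
        (norm_one4 D hσ v (Ideal.mul_le_left hv)) x
    · have h1 := W.sum_classes n r hr2 hr3 u hu2 hu3 (fun _ => 1) s (fun i => Z i s)
        (fun i T hT hbij => by
          simp only [one_mul]
          exact hZ2 i T hT hbij s hs) T' hT'
      simp only [one_mul] at h1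
      exact h1

/-- CORE, for all K unramified over F at the primes above 3. -/
theorem coreT3 (K : Type) [Field K] [NumberField K] [Algebra F K] (m : ℕ)
    (hm : Module.finrank F K = m + 1) (hK : Unr3 K) (b f : Ideal (𝓞 K)) (hb : b ≠ ⊥)
    (hb6 : IsCoprime b (Ideal.span {6})) (hf : f ≠ ⊥) (hf6 : IsCoprime f (Ideal.span {6}))
    (c₀ : 𝓞 K) (hc : c₀ ∈ b) (hc' : c₀ ∉ Ideal.span {2} * b) :
    ∃ Bad : Set (Ideal (𝓞 K)), Bad.Finite ∧
      ∀ (c : Fin (m + 1) × Fin 2 → Ideal (𝓞 K)) (p : Fin (m + 1) × Fin 2 → ℕ), Smooth c p →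
        (∀ i, c i ∉ Bad) → ∃ Z : ℂ → ℂ, AnalyticOnNhd ℂ Z {s | 1 / 2 < s.re} ∧
          (∀ T : Set (𝓞 K), Transv (Ideal.span {4} * f) (XS (Ideal.span {4} * f * b) c₀) T →
            ∀ s : ℂ, 3 / 2 < s.re → HasSum (fun x : T => gw c p x * nfT s (x : 𝓞 K)) (Z s)) ∧
          Int3 (Z 1 / (e H35T.sq3 * R0) ^ (m + 1)) := by
  classical
  obtain ⟨σ, hσ⟩ := emb_exists K m hm
  have W : C1D b f c₀ σ := ⟨hb, hf, hc, hc', hσ⟩
  have h63 : Ideal.span {(6 : 𝓞 K)} ≤ Ideal.span {3} := by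
    rw [Ideal.span_singleton_le_span_singleton]
    exact ⟨2, by norm_num⟩
  have hb3 : IsCoprime b (Ideal.span {(3 : 𝓞 K)}) := by
    rw [Ideal.isCoprime_iff_sup_eq] at hb6 ⊢
    exact top_le_iff.1 (hb6 ▸ sup_le_sup_left h63 b)
  have hf3 : IsCoprime f (Ideal.span {(3 : 𝓞 K)}) := by
    rw [Ideal.isCoprime_iff_sup_eq] at hf6 ⊢
    exact top_le_iff.1 (hf6 ▸ sup_le_sup_left h63 f)
  obtain ⟨u, hu1, hu2, hu3, hu4⟩ := units_basis4 hm _ W.J'_ne C1D.J'_le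
  obtain ⟨n, r, hr1, hr2, hr3⟩ := split (Ideal.span {algebraMap O (𝓞 K) lam} *
    (Ideal.span {4} * f * b)) (Ideal.span {4} * f * b) W.I0_ne Ideal.mul_le_right c₀
  obtain ⟨L, hL⟩ := labels_exist3 hm b hb c₀ hc hc' u (fun z => C1D.J'_le2 (hu2 z))
  have hdir := fun (q : (Fin m → Fin (m + 1)) × Equiv.Perm (Fin m)) =>
    directions hm (fun k : Fin (m + 1) => L (kv (fun k => ((q.1 k : ℕ) : ℤ)) q.2 k))
      (labels_indep3 b c₀ u L hL _ _) (Ideal.span {algebraMap O (𝓞 K) lam} *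
        (Ideal.span {4} * f * b)) W.I0_ne
  choose d hd1 hd2 hd3 using hdir
  refine ⟨(⋃ q : ((Fin m → Fin (m + 1)) × Equiv.Perm (Fin m)) × Fin (m + 1),
    {c : Ideal (𝓞 K) | d q.1 q.2 ∈ c}) ∪ {c : Ideal (𝓞 K) | (3 : 𝓞 K) ∈ c}, ?_, ?_⟩
  · refine Set.Finite.union (Set.finite_iUnion fun q => finite_ideals _ (hd2 _ _)) ?_
    exact finite_ideals 3 (OfNat.ofNat_ne_zero 3)
  intro c p hcp hbad
  let D : Ctx K m := ⟨σ, Ideal.span {4} * f * b, c₀, c, p⟩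
  have hc0X : c₀ ∈ XS (Ideal.span {4} * f * b) c₀ := by
    change c₀ - c₀ ∈ Ideal.span {4} * f * b
    rw [sub_self]
    exact Ideal.zero_mem _
  have hD : D.Ok := ⟨hσ, fun h => W.ne' hc0X (C1D.four_le h), hcp⟩
  have hn : 0 < n := by
    obtain ⟨i, -, -⟩ := hr3 c₀ hc0X
    exact Nat.pos_of_ne_zero (fun h => by subst h; exact i.elim0)
  have hp3 : ∀ i, D.p i ≠ 3 := by
    intro i hi
    apply hbad i
    right
    have h1 : ((Ideal.absNorm (c i) : ℕ) : 𝓞 K) ∈ c i := Ideal.absNorm_mem _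
    rw [hcp.norm i] at h1
    have h2 : p i = 3 := hi
    rw [h2] at h1
    exact_mod_cast h1
  set I₀ : Ideal (𝓞 K) := Ideal.span {algebraMap O (𝓞 K) lam} * (Ideal.span {4} * f * b) with hI₀
  have hok : ∀ i, (Zc D I₀ (r i)).Ok := fun i => ⟨hσ, W.ne0 (hr1 i), hcp⟩
  have hlow := labels_low3 D hσ b f c₀ hc u L hL
  have hdirs : ∀ (i : Fin n) (a : Fin m → Fin (m + 1)) (π : Equiv.Perm (Fin m)),
      ∃ w', (Zc D I₀ (r i)).Dirs
        (fun k : Fin (m + 1) => L (kv (fun k => ((a k : ℕ) : ℤ)) π k)) w' := by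
    intro i a π
    refine dirs_of (Zc D I₀ (r i)) (hok i) _ (d (a, π)) (hd1 (a, π)) ?_ (hd3 (a, π)) ?_ ?_
      (labels_indep3 b c₀ u L hL _ _)
    · intro j k hj
      apply hbad j
      left
      exact Set.mem_iUnion.2 ⟨((a, π), k), hj⟩
    · intro x hx k
      obtain ⟨⟨y, hy⟩, -⟩ := hlow (kv (fun k => ((a k : ℕ) : ℤ)) π k) x (hr2 i hx)
      exact ⟨_, hy⟩
    · intro x hx k
      exact (hlow (kv (fun k => ((a k : ℕ) : ℤ)) π k) x (hr2 i hx)).2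
  have hu := fun i => W.uok u hu1 hu4 D rfl _ (hr1 i)
  have hw := fun i => hdirs i (fun _ => 0) 1
  choose w hw using hw
  have hG := fun i => gspec_exists (Zc D I₀ (r i)) (hok i) _ (w i) (hw i)
  choose G hG using hG
  have hz := fun i => zfun (Zc D I₀ (r i)) (hok i) u (hu i) _ (w i) (hw i) (G i) (hG i)
  choose Z hZ1 hZ2 hZ3 using hz
  have hval := fun i => CN_value (Zc D I₀ (r i)) (hok i) u (hu i) _ (w i) (hw i) (G i) (hG i) L
    hL.equi (hdirs i)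
  have hint := CN_int3 hK D hD b f hb3 hf3 rfl hp3 u hc L hL I₀ rfl n r hn hr3 hr2 hdirs hok
  have hJ3 : IsCoprime (Ideal.span {(4 : 𝓞 K)} * f) (Ideal.span {algebraMap O (𝓞 K) lam}) := by
    have h3l : Ideal.span {(3 : 𝓞 K)} ≤ Ideal.span {algebraMap O (𝓞 K) lam} := by
      rw [Ideal.span_singleton_le_span_singleton]
      refine ⟨algebraMap O (𝓞 K) (-(om ^ 2) * lam), ?_⟩
      rw [← map_mul]
      have h : (3 : 𝓞 K) = algebraMap O (𝓞 K) 3 := (map_ofNat _ 3).symm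
      rw [h, three_lam]
      congr 1
      ring
    refine IsCoprime.mul_left ?_ ?_
    · have h1 : IsCoprime (Ideal.span {(4 : 𝓞 K)}) (Ideal.span {(3 : 𝓞 K)}) := by
        rw [Ideal.isCoprime_span_singleton_iff]
        exact ⟨1, -1, by norm_num⟩
      rw [Ideal.isCoprime_iff_sup_eq] at h1 ⊢
      exact top_le_iff.1 (h1 ▸ sup_le_sup_left h3l _)
    · rw [Ideal.isCoprime_iff_sup_eq] at hf3 ⊢
      exact top_le_iff.1 (hf3 ▸ sup_le_sup_left h3l f)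
  obtain ⟨ν, hν, hT⟩ := cop3_change hK (Ideal.span {4} * f) (Ideal.span {algebraMap O (𝓞 K) lam} *
    (Ideal.span {4} * f)) W.J_ne hJ3 rfl (XS (Ideal.span {4} * f * b) c₀) W.zero_not W.stab
  refine ⟨fun s => (∑ i, kn (r i) * Z i s) / ν, ?_, ?_, ?_⟩
  · intro s hs
    exact (Finset.analyticAt_fun_sum _ fun i _ => analyticAt_const.mul (hZ1 i s hs)).div_const
  · intro T hTT s hs
    obtain ⟨T', hT', hφ⟩ := hT T hTT
    refine hφ (fun x => gw c p x * nfT s x) _ ?_ ?_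
    · intro v hv x _
      rw [Z3_gw, C1_nfT_inv hσ s v (Ideal.mul_le_left hv)
        (norm_one4 D hσ v (Ideal.mul_le_left hv)) x]
    · exact W.sum_classes n r hr2 hr3 u hu2 hu3 (fun x => gw c p x) s (fun i => Z i s)
        (fun i T hT hbij => hZ2 i T hT hbij s hs) T' hT'
  · show Int3 ((∑ i, kn (r i) * Z i 1) / (ν : ℂ) / (e H35T.sq3 * R0) ^ (m + 1))
    rw [div_right_comm]
    refine i3_div_unit ?_ (unit3_nat hν)
    rcases le_total 0 (Delta (D.lm u)) with h | h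
    · have h1 : ∑ i, kn (r i) * Z i 1 =
          ∑ i, kn (r i) * CN (m + 1) (Zc D I₀ (r i)).Jv (fun a => .A (L a)) := by
        refine Finset.sum_congr rfl fun i _ => ?_
        rw [hZ3, hval i]
        have h2 : |Delta ((Zc D I₀ (r i)).lm u)| = Delta ((Zc D I₀ (r i)).lm u) := abs_of_nonneg h
        rw [h2]
      rw [h1]
      exact hint
    · have h1 : ∑ i, kn (r i) * Z i 1 =
          -∑ i, kn (r i) * CN (m + 1) (Zc D I₀ (r i)).Jv (fun a => .A (L a)) := by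
        rw [← Finset.sum_neg_distrib]
        refine Finset.sum_congr rfl fun i _ => ?_
        rw [hZ3, hval i]
        have h2 : |Delta ((Zc D I₀ (r i)).lm u)| = -Delta ((Zc D I₀ (r i)).lm u) :=
          abs_of_nonpos h
        rw [h2]
        push_cast
        ring
      rw [h1, neg_div]
      exact i3_neg hint

/-- CORE, the form of the interface of H19T. -/
theorem coreT (K : Type) [Field K] [NumberField K] [Algebra F K] (m : ℕ)
    (hm : Module.finrank F K = m + 1) (hK : H35T.UnrOut K) (b f : Ideal (𝓞 K)) (hb : b ≠ ⊥)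
    (hb6 : IsCoprime b (Ideal.span {6})) (hf : f ≠ ⊥) (hf6 : IsCoprime f (Ideal.span {6}))
    (c₀ : 𝓞 K) (hc : c₀ ∈ b) (hc' : c₀ ∉ Ideal.span {2} * b) :
    ∃ Bad : Set (Ideal (𝓞 K)), Bad.Finite ∧
      ∀ (c : Fin (m + 1) × Fin 2 → Ideal (𝓞 K)) (p : Fin (m + 1) × Fin 2 → ℕ), Smooth c p →
        (∀ i, c i ∉ Bad) → ∃ Z : ℂ → ℂ, AnalyticOnNhd ℂ Z {s | 1 / 2 < s.re} ∧
          (∀ T : Set (𝓞 K), Transv (Ideal.span {4} * f) (XS (Ideal.span {4} * f * b) c₀) T →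
            ∀ s : ℂ, 3 / 2 < s.re → HasSum (fun x : T => gw c p x * nfT s (x : 𝓞 K)) (Z s)) ∧
          Int3 (Z 1 / (e H35T.sq3 * R0) ^ (m + 1)) :=
  coreT3 K m hm (unr3_of hK) b f hb hb6 hf hf6 c₀ hc hc'

end H35N
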